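import Pool.Agent.Lib.MP_4c698b_pr.E.Defs
import Pool.Agent.Lib.MP_4c698b_pr.BK

/-!
# Module BKc: connections through a separating set (about 90 lines)

PROOF. Let `A_s` be the set of the finite edge sets `a` such that for every `ω` with `ω e = true` for all
`e ∈ a` we have `(og S ω).Reachable x s`; `B_s` the same for `s`, `y`. Then
`{ω | ∃ a ∈ A_s, ∀ e ∈ a, ω e = true} ⊆ {ω | (og S ω).Reachable x s}`, so by `bk` (`E = Sym2 Γ`,
countable because `Γ` is, `S.countable`) the probability of the disjoint occurrence of `A_s`, `B_s` is at most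
`tau S p x s * tau S p s y`. It remains to see that `{x ↔ y}` is contained in the union over `s ∈ X` of the
disjoint occurrences (`measure_biUnion_finset_le`, or `measure_mono` + `measure_iUnion_le`). Let `w` be an
open walk from `x` to `y`; `w.bypass` (or `w.toPath`) is a path. If no vertex of it were in `X` then
`(res S Xᶜ).Reachable x y` (`Walk.transfer` or induction), against `h`. Let `s ∈ X` be a vertex of the path
`q`; `a` = edges of `q.takeUntil s`, `b` = edges of `q.dropUntil s` (`List.toFinset`, classical): they are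
disjoint because `q.edges` has no duplicates and is the concatenation
(`SimpleGraph.Walk.take_spec`, `edges_append`, `IsPath.isTrail.edges_nodup`, `List.nodup_append`). For
every `ω'` with all edges of `a` open, `x` and `s` are connected in `og S ω'` (`Walk.transfer`: the edges
of the walk are Cayley graph edges, and open in `ω'`).
-/

open MeasureTheory Filter Topology
open scoped ENNReal NNReal Pointwise

namespace IICErg

namespace Ends

variable {Γ : Type} [Group Γ]

/-- the finite edge sets that connect `x` and `y` whenever they are open -/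
private def bkcS (S : GenSet Γ) (x y : Γ) : Set (Finset (Sym2 Γ)) :=
  {a | ∀ ω : Cfg Γ, (∀ e ∈ a, ω e = true) → (og S ω).Reachable x y}

private theorem bkc_sub (S : GenSet Γ) (x y : Γ) :
    {ω : Cfg Γ | ∃ a ∈ bkcS S x y, ∀ e ∈ a, ω e = true} ⊆ {ω | (og S ω).Reachable x y} := by
  rintro ω ⟨a, ha, h⟩
  exact ha ω h

open Classical in
private theorem bkc_walk (S : GenSet Γ) {ω : Cfg Γ} {x y : Γ} (w : (og S ω).Walk x y) :
    w.edges.toFinset ∈ bkcS S x y ∧ ∀ e ∈ w.edges.toFinset, ω e = true := by
  constructor
  · intro ω' h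
    refine ⟨w.transfer (og S ω') ?_⟩
    intro e he
    have h1 : ω' e = true := h e (List.mem_toFinset.2 he)
    induction e using Sym2.ind with
    | _ a b =>
      rw [SimpleGraph.mem_edgeSet]
      exact ⟨(w.adj_of_mem_edges he).1, h1⟩
  · intro e he
    have he' := List.mem_toFinset.1 he
    induction e using Sym2.ind with
    | _ a b => exact (w.adj_of_mem_edges he').2

theorem tau_le_sum (S : GenSet Γ) (p : unitInterval) (X : Finset Γ) {x y : Γ}
    (h : Sep S (X : Set Γ) x y) :
    tau S p x y ≤ ∑ s ∈ X, tau S p x s * tau S p s y := by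
  classical
  have hc : Countable Γ := S.countable
  have hsub : {ω : Cfg Γ | (og S ω).Reachable x y} ⊆ ⋃ s ∈ X,
      {ω | ∃ a ∈ bkcS S x s, ∃ b ∈ bkcS S s y, Disjoint a b ∧ (∀ e ∈ a, ω e = true) ∧
        (∀ e ∈ b, ω e = true)} := by
    rintro ω ⟨w⟩
    obtain ⟨q, hq⟩ : ∃ q : (og S ω).Walk x y, q.IsPath := ⟨w.bypass, w.bypass_isPath⟩
    have hex : ∃ s ∈ X, s ∈ q.support := by
      by_contra hcon
      push Not at hcon
      apply h.2.2
      refine ⟨q.transfer (res S (X : Set Γ)ᶜ) ?_⟩
      intro e he
      induction e using Sym2.ind with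
      | _ a b =>
        rw [SimpleGraph.mem_edgeSet]
        refine ⟨(q.adj_of_mem_edges he).1, fun ha => ?_, fun hb => ?_⟩
        · exact hcon a ha (q.fst_mem_support_of_mem_edges he)
        · exact hcon b hb (q.snd_mem_support_of_mem_edges he)
    obtain ⟨s, hs, hsq⟩ := hex
    refine Set.mem_iUnion₂.2 ⟨s, hs, (q.takeUntil s hsq).edges.toFinset,
      (bkc_walk S (q.takeUntil s hsq)).1, (q.dropUntil s hsq).edges.toFinset,
      (bkc_walk S (q.dropUntil s hsq)).1, ?_, (bkc_walk S (q.takeUntil s hsq)).2,
      (bkc_walk S (q.dropUntil s hsq)).2⟩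
    have h1 : q.edges = (q.takeUntil s hsq).edges ++ (q.dropUntil s hsq).edges := by
      rw [← SimpleGraph.Walk.edges_append, SimpleGraph.Walk.take_spec]
    have h2 := hq.isTrail.edges_nodup
    rw [h1] at h2
    have h3 := (List.nodup_append'.1 h2).2.2
    rw [Finset.disjoint_left]
    intro e he he'
    exact h3 (List.mem_toFinset.1 he) (List.mem_toFinset.1 he')
  unfold tau
  refine (measure_mono hsub).trans ((measure_biUnion_finset_le X _).trans ?_)
  refine Finset.sum_le_sum fun s _ => ?_
  refine (bk p (bkcS S x s) (bkcS S s y)).trans ?_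
  exact mul_le_mul' (measure_mono (bkc_sub S x s)) (measure_mono (bkc_sub S s y))

end Ends

end IICErg
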