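import Pool.Agent.Lib.MP_4c698b_pr.E.CutA

/-!
# Module CntA: the number `M` of separating translates (about 150 lines)

PROOFS.
`meet_finite`, `card_meet`: `¬ Disjoint (tr K h) (tr K w)` means `h k = w k'` with `k, k' ∈ K`, so
`h = w k' k⁻¹` is in the image of `K ×ˢ K`.
`mem_finite`, `card_mem`: `x ∈ tr K h` iff `h = x k⁻¹` for some `k ∈ K`.
`sepK_finite`: `S.cay` is connected; let `w` be a walk from `x` to `y`. If no vertex of `w` is in
`tr K h` then `Off S (tr K h) x y` (`off_walk` with `γ = w.getVert`). So `h` is in the finite union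
of the finite sets `{h | v ∈ tr K h}`, `v ∈ w.support`.
`M_symm`: `SepK S K h x y ↔ SepK S K h y x`. `M_mul`: the bijection `h ↦ g * h` (`sepK_mul`;
`Set.ncard_image_of_injective`). `M_self`: `SepK S K h x x` is impossible (`sep_ne`).
`M_sub`: if `SepK h x g` and `w ∉ tr K h` then `SepK h x w` or `SepK h w g`: so the set is contained in
the union of three sets (`Set.ncard_union_le`, `Set.ncard_le_ncard`).
`M_near`: `M S K h s = M S K 1 (h⁻¹ * s)` (`M_mul`) and `h⁻¹ * s ∈ K`: `c = ∑ k ∈ K, M S K 1 k`.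
`M_meet`: `M S K a b = M S K 1 (a⁻¹ * b)` and `a⁻¹ * b = k k'⁻¹`: `c = ∑ over K ×ˢ K`.
-/

open scoped Pointwise

namespace IICErg

namespace Ends

variable {Γ : Type} [Group Γ]

private theorem CntA_meet_sub (K : Finset Γ) (w : Γ) : {h | ¬ Disjoint (tr K h) (tr K w)} ⊆
    (fun p : Γ × Γ => w * p.2 * p.1⁻¹) '' ((K ×ˢ K : Finset (Γ × Γ)) : Set (Γ × Γ)) := by
  intro h hh
  rw [Set.mem_ofPred_eq, Finset.disjoint_left] at hh
  push Not at hh
  obtain ⟨x, hx, hy⟩ := hh
  rw [mem_tr] at hx hy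
  refine ⟨(h⁻¹ * x, w⁻¹ * x), ?_, ?_⟩
  · rw [Finset.mem_coe, Finset.mem_product]
    exact ⟨hx, hy⟩
  · show w * (w⁻¹ * x) * (h⁻¹ * x)⁻¹ = h
    group

private theorem CntA_mem_sub (K : Finset Γ) (x : Γ) : {h | x ∈ tr K h} ⊆
    (fun k : Γ => x * k⁻¹) '' (K : Set Γ) := by
  intro h hh
  rw [Set.mem_ofPred_eq, mem_tr] at hh
  refine ⟨h⁻¹ * x, hh, ?_⟩
  show x * (h⁻¹ * x)⁻¹ = h
  group

theorem meet_finite (K : Finset Γ) (w : Γ) : {h | ¬ Disjoint (tr K h) (tr K w)}.Finite :=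
  ((K ×ˢ K : Finset (Γ × Γ)).finite_toSet.image _).subset (CntA_meet_sub K w)

theorem card_meet (K : Finset Γ) (w : Γ) :
    {h | ¬ Disjoint (tr K h) (tr K w)}.ncard ≤ K.card ^ 2 := by
  refine (Set.ncard_le_ncard (CntA_meet_sub K w)
    ((K ×ˢ K : Finset (Γ × Γ)).finite_toSet.image _)).trans ?_
  refine (Set.ncard_image_le (K ×ˢ K : Finset (Γ × Γ)).finite_toSet).trans ?_
  rw [Set.ncard_coe_finset, Finset.card_product, sq]

theorem mem_finite (K : Finset Γ) (x : Γ) : {h | x ∈ tr K h}.Finite :=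
  (K.finite_toSet.image _).subset (CntA_mem_sub K x)

theorem card_mem (K : Finset Γ) (x : Γ) : {h | x ∈ tr K h}.ncard ≤ K.card := by
  refine (Set.ncard_le_ncard (CntA_mem_sub K x) (K.finite_toSet.image _)).trans ?_
  refine (Set.ncard_image_le K.finite_toSet).trans ?_
  rw [Set.ncard_coe_finset]

theorem sepK_finite (S : GenSet Γ) (K : Finset Γ) (x y : Γ) : {h | SepK S K h x y}.Finite := by
  classical
  obtain ⟨w⟩ := (cay_connected S).preconnected x y
  have hsub : {h | SepK S K h x y} ⊆ ⋃ v ∈ (w.support.toFinset : Set Γ), {h | v ∈ tr K h} := by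
    intro h hh
    by_contra hc
    simp only [Set.mem_iUnion, not_exists] at hc
    refine hh.not_off ?_
    have h1 := off_walk (S := S) (X := (tr K h : Set Γ)) w.getVert w.length
      (fun t ht => w.adj_getVert_succ ht) (fun t _ hm => by
        refine hc (w.getVert t) ?_ hm
        rw [Finset.mem_coe, List.mem_toFinset]
        exact w.getVert_mem_support t)
    rwa [SimpleGraph.Walk.getVert_zero, SimpleGraph.Walk.getVert_length] at h1
  exact (Set.Finite.biUnion (Finset.finite_toSet _) (fun v _ => mem_finite K v)).subset hsub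

theorem M_symm (S : GenSet Γ) (K : Finset Γ) (x y : Γ) : M S K x y = M S K y x := by
  unfold M
  congr 1
  ext h
  exact ⟨fun h1 => Sep.symm h1, fun h1 => Sep.symm h1⟩

theorem M_mul (S : GenSet Γ) (K : Finset Γ) (g x y : Γ) :
    M S K (g * x) (g * y) = M S K x y := by
  unfold M
  have h1 : {h | SepK S K h (g * x) (g * y)} = (fun h => g * h) '' {h | SepK S K h x y} := by
    ext h
    constructor
    · intro hh
      refine ⟨g⁻¹ * h, ?_, mul_inv_cancel_left _ _⟩
      rw [Set.mem_ofPred_eq, ← sepK_mul S K g, mul_inv_cancel_left]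
      exact hh
    · rintro ⟨h', hh, rfl⟩
      exact (sepK_mul S K g h' x y).mpr hh
  rw [h1]
  exact Set.ncard_image_of_injective _ (mul_right_injective g)

theorem M_self (S : GenSet Γ) (K : Finset Γ) (x : Γ) : M S K x x = 0 := by
  unfold M
  have h1 : {h | SepK S K h x x} = ∅ := by
    ext h
    simp only [Set.mem_ofPred_eq, Set.mem_empty_iff_false, iff_false]
    intro h2
    exact sep_ne h2 rfl
  rw [h1, Set.ncard_empty]

theorem M_sub (S : GenSet Γ) (K : Finset Γ) (x w g : Γ) :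
    M S K x g ≤ M S K x w + M S K w g + K.card := by
  have hsub : {h | SepK S K h x g} ⊆
      ({h | SepK S K h x w} ∪ {h | SepK S K h w g}) ∪ {h | w ∈ tr K h} := by
    intro h hh
    by_cases hw : w ∈ tr K h
    · exact Or.inr hw
    · refine Or.inl ?_
      by_contra hc
      rw [Set.mem_union, not_or] at hc
      have h1 : Off S (tr K h : Set Γ) x w := off_of_not_sep hh.1 hw hc.1
      have h2 : Off S (tr K h : Set Γ) w g := off_of_not_sep hw hh.2.1 hc.2
      exact hh.not_off (h1.trans h2)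
  have hf : (({h | SepK S K h x w} ∪ {h | SepK S K h w g}) ∪ {h | w ∈ tr K h}).Finite :=
    ((sepK_finite S K x w).union (sepK_finite S K w g)).union (mem_finite K w)
  have h1 := Set.ncard_le_ncard hsub hf
  have h2 := Set.ncard_union_le ({h | SepK S K h x w} ∪ {h | SepK S K h w g}) {h | w ∈ tr K h}
  have h3 := Set.ncard_union_le {h | SepK S K h x w} {h | SepK S K h w g}
  have h4 := card_mem K w
  unfold M
  omega

theorem M_near (S : GenSet Γ) (K : Finset Γ) : ∃ c : ℕ, ∀ h s, s ∈ tr K h → M S K h s ≤ c := by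
  refine ⟨∑ k ∈ K, M S K 1 k, fun h s hs => ?_⟩
  rw [mem_tr] at hs
  have h1 := M_mul S K h⁻¹ h s
  rw [inv_mul_cancel] at h1
  rw [← h1]
  exact Finset.single_le_sum (f := fun k => M S K 1 k) (fun _ _ => Nat.zero_le _) hs

theorem M_meet (S : GenSet Γ) (K : Finset Γ) :
    ∃ c : ℕ, ∀ a b, ¬ Disjoint (tr K a) (tr K b) → M S K a b ≤ c := by
  let F : Γ × Γ → ℕ := fun p => M S K 1 (p.1 * p.2⁻¹)
  refine ⟨∑ p ∈ K ×ˢ K, F p, ?_⟩
  intro a b hab
  rw [Finset.disjoint_left] at hab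
  push Not at hab
  obtain ⟨x, hx, hy⟩ := hab
  rw [mem_tr] at hx hy
  have h1 := M_mul S K a⁻¹ a b
  rw [inv_mul_cancel] at h1
  have h2 : a⁻¹ * b = (a⁻¹ * x) * (b⁻¹ * x)⁻¹ := by group
  have hq : (a⁻¹ * x, b⁻¹ * x) ∈ K ×ˢ K := Finset.mem_product.mpr ⟨hx, hy⟩
  have h3 : F (a⁻¹ * x, b⁻¹ * x) ≤ ∑ p ∈ K ×ˢ K, F p :=
    Finset.single_le_sum (fun _ _ => Nat.zero_le _) hq
  have h4 : F (a⁻¹ * x, b⁻¹ * x) = M S K a b := by
    show M S K 1 ((a⁻¹ * x) * (b⁻¹ * x)⁻¹) = M S K a b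
    rw [← h2, h1]
  rw [← h4]
  exact h3

end Ends

end IICErg
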