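import Pool.Agent.Lib.MP_4c698b_pr.E.CntA

/-!
# Module CntB: superadditivity; the last cut; disjoint translates (about 150 lines)

PROOF of `M_super`. Write `T = {h | SepK h x g}`, `P = {h | SepK h x w}`, `Q = {h | SepK h w g}`,
`E = {h | ¬ Disjoint (tr K h) (tr K w)}` (`ncard ≤ |K|²`). `w ∈ tr K w` as `1 ∈ K`. The sets `tr K h`
are connected (`cn_tr`). If `h ∈ P \ E`: `sep_far` (`A = tr K h`, `X = tr K w`, `o = x`) gives `h ∈ T`, and
`inside` gives `Off S (tr K w) x h` (`h ∈ tr K h`). If `h ∈ Q \ E`: the same with `x` and `g` exchanged: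
`h ∈ T` and `Off S (tr K w) g h`. So `P \ E`, `Q \ E` are disjoint (`Off x g` is impossible) subsets of
`T`, `|P| + |Q| ≤ |T| + 2 |E|`. (`Set.ncard_union_eq`, `Set.ncard_diff_add_ncard`, all sets finite.)

PROOF of `exists_last`. Let `γ = w.getVert`, `w` a walk of `S.cay` from `x` to `g`, `n` its length. For
`h ∈ W` there is `t ≤ n` with `γ t ∈ tr K h` (otherwise `off_walk`); let `f h` be the smallest such `t`
(`sInf` or `Nat.find`). Let `b ∈ W` maximise `f` (`Set.exists_max_image`). Let `h ∈ W` with `tr K h`,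
`tr K b` disjoint: `f h ≠ f b`, so `f h < f b`, so `γ t ∉ tr K b` for all `t ≤ f h`; `off_walk` gives
`Off S (tr K b) x (γ (f h))`, and `Off S (tr K b) (γ (f h)) h` by `cn_off` (`h ∈ tr K h` since `1 ∈ K`).

PROOF of `greedy`. Among the subsets `I` of `H` for which the `tr N h`, `h ∈ I`, are pairwise disjoint take
one with maximal `card` (finitely many subsets: `Finset.exists_max_image` on the filtered powerset, `∅` is
one). Every `h ∈ H` meets some `h' ∈ I` (if `h ∈ I`, `h' = h`, needs `N` nonempty: if `N = ∅` then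
all are disjoint and maximality gives `I = H`; otherwise `insert h I` would be larger). So
`H ⊆ ⋃_{h' ∈ I} {h | ¬ Disjoint (tr N h) (tr N h')}`, each of these has at most `|N|²` elements. (Treat the
case `N = ∅` by `I = H`? there `|H| ≤ |I| * 0` is false: so `N.Nonempty` is assumed.)
-/

open scoped Pointwise

namespace IICErg

namespace Ends

variable {Γ : Type} [Group Γ]

private theorem CntB_self {K : Finset Γ} (h1 : (1 : Γ) ∈ K) (h : Γ) : h ∈ (tr K h : Set Γ) := by
  rw [Finset.mem_coe, mem_tr, inv_mul_cancel]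
  exact h1

theorem M_super {S : GenSet Γ} {K : Finset Γ} (hc : Cn S (K : Set Γ)) (h1 : (1 : Γ) ∈ K)
    {x w g : Γ} (h : SepK S K w x g) :
    M S K x w + M S K w g ≤ M S K x g + 2 * K.card ^ 2 := by
  have hww := CntB_self h1 w
  have hX := cn_tr hc w
  have hP : ∀ k, k ∈ {k | SepK S K k x w} \ {k | ¬ Disjoint (tr K k) (tr K w)} →
      SepK S K k x g ∧ Off S (tr K w : Set Γ) x k := by
    rintro k ⟨hk, hd⟩
    have hd' : Disjoint (tr K k : Set Γ) (tr K w : Set Γ) := by
      by_contra hn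
      exact hd (fun h2 => hn (Finset.disjoint_coe.mpr h2))
    exact ⟨sep_far hX (cn_tr hc k) hd' hww hk h,
      inside hX (cn_tr hc k) hd' hww h.1 hk k (CntB_self h1 k)⟩
  have hQ : ∀ k, k ∈ {k | SepK S K k w g} \ {k | ¬ Disjoint (tr K k) (tr K w)} →
      SepK S K k x g ∧ Off S (tr K w : Set Γ) g k := by
    rintro k ⟨hk, hd⟩
    have hd' : Disjoint (tr K k : Set Γ) (tr K w : Set Γ) := by
      by_contra hn
      exact hd (fun h2 => hn (Finset.disjoint_coe.mpr h2))
    exact ⟨(sep_far hX (cn_tr hc k) hd' hww (Sep.symm hk) (Sep.symm h)).symm,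
      inside hX (cn_tr hc k) hd' hww h.2.1 (Sep.symm hk) k (CntB_self h1 k)⟩
  have hfP := sepK_finite S K x w
  have hfQ := sepK_finite S K w g
  have hdis : Disjoint ({k | SepK S K k x w} \ {k | ¬ Disjoint (tr K k) (tr K w)})
      ({k | SepK S K k w g} \ {k | ¬ Disjoint (tr K k) (tr K w)}) := by
    rw [Set.disjoint_left]
    intro k hk hk'
    exact h.not_off ((hP k hk).2.trans (hQ k hk').2.symm)
  have hsub : ({k | SepK S K k x w} \ {k | ¬ Disjoint (tr K k) (tr K w)}) ∪
      ({k | SepK S K k w g} \ {k | ¬ Disjoint (tr K k) (tr K w)}) ⊆ {k | SepK S K k x g} := by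
    rintro k (hk | hk)
    · exact (hP k hk).1
    · exact (hQ k hk).1
  have e1 := Set.ncard_le_ncard hsub (sepK_finite S K x g)
  rw [Set.ncard_union_eq hdis (hfP.subset Set.sdiff_subset) (hfQ.subset Set.sdiff_subset)] at e1
  have e2 := Set.ncard_le_ncard_sdiff_add_ncard {k | SepK S K k x w}
    {k | ¬ Disjoint (tr K k) (tr K w)} (meet_finite K w)
  have e3 := Set.ncard_le_ncard_sdiff_add_ncard {k | SepK S K k w g}
    {k | ¬ Disjoint (tr K k) (tr K w)} (meet_finite K w)
  have e4 := card_meet K w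
  unfold M
  omega

theorem exists_last {S : GenSet Γ} {K : Finset Γ} (hc : Cn S (K : Set Γ)) (h1 : (1 : Γ) ∈ K)
    {x g : Γ} (W : Set Γ) (hW : W.Nonempty) (hs : ∀ h ∈ W, SepK S K h x g) :
    ∃ b ∈ W, ∀ h ∈ W, Disjoint (tr K h) (tr K b) → Off S (tr K b : Set Γ) x h := by
  obtain ⟨w⟩ := (cay_connected S).preconnected x g
  have hhit : ∀ h ∈ W, ∃ t, t ≤ w.length ∧ w.getVert t ∈ tr K h := by
    intro h hh
    by_contra hcon
    push Not at hcon
    have h2 := off_walk (S := S) (X := (tr K h : Set Γ)) w.getVert w.length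
      (fun t ht => w.adj_getVert_succ ht) (fun t ht hm => hcon t ht hm)
    rw [SimpleGraph.Walk.getVert_zero, SimpleGraph.Walk.getVert_length] at h2
    exact (hs h hh).not_off h2
  let f : Γ → ℕ := fun h => sInf {t | w.getVert t ∈ tr K h}
  have hfm : ∀ h ∈ W, w.getVert (f h) ∈ tr K h := by
    intro h hh
    obtain ⟨t, _, ht⟩ := hhit h hh
    exact Nat.sInf_mem (s := {t | w.getVert t ∈ tr K h}) ⟨t, ht⟩
  have hfl : ∀ h ∈ W, f h ≤ w.length := by
    intro h hh
    obtain ⟨t, ht', ht⟩ := hhit h hh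
    exact (Nat.sInf_le (s := {t | w.getVert t ∈ tr K h}) ht).trans ht'
  have hfin : W.Finite := (sepK_finite S K x g).subset (fun h hh => hs h hh)
  obtain ⟨b, hb, hmax⟩ := Set.exists_max_image W f hfin hW
  refine ⟨b, hb, fun h hh hd => ?_⟩
  have hne : f h ≠ f b := by
    intro he
    have h2 := hfm h hh
    rw [he] at h2
    exact (Finset.disjoint_left.mp hd h2) (hfm b hb)
  have hlt : f h < f b := lt_of_le_of_ne (hmax h hh) hne
  have h2 := off_walk (S := S) (X := (tr K b : Set Γ)) w.getVert (f h)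
    (fun t ht => w.adj_getVert_succ (lt_of_lt_of_le ht (hfl h hh)))
    (fun t ht hm => Nat.notMem_of_lt_sInf (s := {t | w.getVert t ∈ tr K b})
      (lt_of_le_of_lt ht hlt) hm)
  rw [SimpleGraph.Walk.getVert_zero] at h2
  exact h2.trans (cn_off (cn_tr hc h) (Finset.disjoint_coe.mpr hd) (hfm h hh) (CntB_self h1 h))

theorem greedy (N : Finset Γ) (hN : N.Nonempty) (H : Finset Γ) :
    ∃ I ⊆ H, (∀ a ∈ I, ∀ b ∈ I, a ≠ b → Disjoint (tr N a) (tr N b)) ∧
      H.card ≤ I.card * N.card ^ 2 := by
  classical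
  let C : Finset (Finset Γ) := H.powerset.filter
    (fun I => ∀ a ∈ I, ∀ b ∈ I, a ≠ b → Disjoint (tr N a) (tr N b))
  have hCne : C.Nonempty := by
    refine ⟨∅, ?_⟩
    rw [Finset.mem_filter, Finset.mem_powerset]
    exact ⟨Finset.empty_subset _, fun a ha => absurd ha (Finset.notMem_empty a)⟩
  obtain ⟨I, hIC, hmax⟩ := Finset.exists_max_image C Finset.card hCne
  rw [Finset.mem_filter, Finset.mem_powerset] at hIC
  refine ⟨I, hIC.1, hIC.2, ?_⟩
  have hNN : ∀ a, ¬ Disjoint (tr N a) (tr N a) := by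
    intro a hd
    obtain ⟨n, hn⟩ := hN
    have hm : a * n ∈ tr N a := by rw [mem_tr, inv_mul_cancel_left]; exact hn
    exact Finset.disjoint_left.mp hd hm hm
  have hmeet : ∀ h ∈ H, ∃ k ∈ I, ¬ Disjoint (tr N h) (tr N k) := by
    intro h hh
    by_cases hI : h ∈ I
    · exact ⟨h, hI, hNN h⟩
    · by_contra hcon
      push Not at hcon
      have hins : insert h I ∈ C := by
        rw [Finset.mem_filter, Finset.mem_powerset]
        refine ⟨Finset.insert_subset hh hIC.1, ?_⟩
        intro a ha b hb hab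
        rw [Finset.mem_insert] at ha hb
        rcases ha with rfl | ha
        · rcases hb with rfl | hb
          · exact absurd rfl hab
          · exact hcon b hb
        · rcases hb with rfl | hb
          · exact (hcon a ha).symm
          · exact hIC.2 a ha b hb hab
      have h2 := hmax _ hins
      rw [Finset.card_insert_of_notMem hI] at h2
      omega
  have hsub : H ⊆ I.biUnion (fun k => (meet_finite N k).toFinset) := by
    intro h hh
    obtain ⟨k, hk, hd⟩ := hmeet h hh
    rw [Finset.mem_biUnion]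
    exact ⟨k, hk, by rw [Set.Finite.mem_toFinset]; exact hd⟩
  refine (Finset.card_le_card hsub).trans ?_
  refine Finset.card_biUnion_le_card_mul _ _ _ (fun k _ => ?_)
  have h2 := card_meet N k
  rw [Set.ncard_eq_toFinset_card _ (meet_finite N k)] at h2
  exact h2

end Ends

end IICErg
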