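import Pool.Agent.Lib.MP_4c698b_pr.O3
import Pool.Agent.Lib.MP_4c698b_pr.Crit
import Pool.Agent.Lib.MP_4c698b_pr.L2h

/-!
# Module Har: the Harris inequality for connections (about 150 lines)

PROOF of `harris`: induction on `F` (`Finset.induction_on`) as in `O6_indep` (file `O6.lean`) with `O3_split`,
`O3_upd_dep`, `O3_meas`: for `b = true, false` put `A_b = {ω | upd ω e b ∈ A}`, `B_b` similarly (increasing, depend
on `F` only); `a_b`, `b_b` their probabilities, `c_b = P(A_b ∩ B_b) ≥ a_b b_b` by induction; `a_1 ≥ a_0`,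
`b_1 ≥ b_0` because `A_0 ⊆ A_1`, `B_0 ⊆ B_1` (`A`, `B` increasing, `measureReal_mono`). With `t = p`:
`P(A ∩ B) = t c_1 + (1-t) c_0 ≥ t a_1 b_1 + (1-t) a_0 b_0 ≥ (t a_1 + (1-t) a_0)(t b_1 + (1-t) b_0)`, the
difference is `t (1-t) (a_1-a_0) (b_1-b_0) ≥ 0`. Empty `F`: each of `A`, `B` is `∅` or everything.

PROOF of `tau_mul_le`: `{ω | dle (og S ω) n x y}` depends on finitely many edges (`crit_dle_dep` for `x = 1`;
copy its proof for a general start point: the edges with an endpoint in `{v | x⁻¹ * v ∈ S.ball n}`), is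
increasing (`dle_le`), measurable (`measurableSet_dle`), and increases with `n` (`dle_mono`) to
`{ω | (og S ω).Reachable x y}` (every walk has a length). So (`harris`)
`P(dle n x y) P(dle n y z) ≤ P(dle n x y, dle n y z) ≤ tau S p x z`; `n → ∞` with
`MeasureTheory.tendsto_measure_iUnion_atTop` (or `measure_iUnion_eq_iSup` twice). Convert between `.real`
and `ℝ≥0∞` (all measures are probabilities).

PROOF of `tau_lower`: for neighbours `x, y`: `tau S p x y ≥ P(edge open) = p` (as in `O1_edge`, with equality;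
`measurePreserving_eval_infinitePi`, `bern`). By `tau_mul_le` along a walk of the Cayley graph from `x` to
`y` (`cay_connected`) of length `n`: `tau S p x y ≥ p^n` (`tau S p x x = 1`). With `p₁ ≤ p`:
`ε = (ENNReal.ofReal p₁)^n`.
-/

open MeasureTheory Filter Topology
open scoped ENNReal NNReal Pointwise

namespace IICErg

namespace Ends

variable {Γ : Type} [Group Γ]

omit [Group Γ] in
private theorem upd_mono {ω ω' : Cfg Γ} (h : ∀ e, ω e = true → ω' e = true) (f : Sym2 Γ)
    (b : Bool) : ∀ e, upd ω f b e = true → upd ω' f b e = true := by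
  intro e he
  by_cases hf : e = f
  · subst hf
    rw [O3_upd_self] at he ⊢
    exact he
  · rw [O3_upd_ne _ _ hf] at he ⊢
    exact h e he

omit [Group Γ] in
private theorem upd_false_true (ω : Cfg Γ) (f : Sym2 Γ) :
    ∀ e, upd ω f false e = true → upd ω f true e = true := by
  intro e he
  by_cases hf : e = f
  · subst hf
    rw [O3_upd_self]
  · rw [O3_upd_ne _ _ hf] at he ⊢
    exact he

omit [Group Γ] in
theorem harris (p : unitInterval) (F : Finset (Sym2 Γ)) (A B : Set (Cfg Γ))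
    (hA : ∀ ω ω' : Cfg Γ, (∀ e ∈ F, ω e = ω' e) → (ω ∈ A ↔ ω' ∈ A))
    (hB : ∀ ω ω' : Cfg Γ, (∀ e ∈ F, ω e = ω' e) → (ω ∈ B ↔ ω' ∈ B))
    (hAi : ∀ ω ω' : Cfg Γ, (∀ e, ω e = true → ω' e = true) → ω ∈ A → ω' ∈ A)
    (hBi : ∀ ω ω' : Cfg Γ, (∀ e, ω e = true → ω' e = true) → ω ∈ B → ω' ∈ B) :
    (perc Γ p).real A * (perc Γ p).real B ≤ (perc Γ p).real (A ∩ B) := by
  classical
  induction F using Finset.induction_on generalizing A B with
  | empty =>
    by_cases h : ∃ ω, ω ∈ A
    · obtain ⟨ω, hω⟩ := h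
      have h1 : A = Set.univ := Set.eq_univ_of_forall fun ω' =>
        (hA ω ω' (by simp)).1 hω
      rw [h1, Set.univ_inter, probReal_univ, one_mul]
    · have h1 : A = ∅ := Set.eq_empty_of_forall_notMem fun ω hω => h ⟨ω, hω⟩
      rw [h1, Set.empty_inter, measureReal_empty, zero_mul]
  | insert e F he ih =>
    have hAm : MeasurableSet A := O3_meas _ _ hA
    have hBm : MeasurableSet B := O3_meas _ _ hB
    have h1 : ∀ b : Bool, (perc Γ p).real {ω | upd ω e b ∈ A} *
        (perc Γ p).real {ω | upd ω e b ∈ B} ≤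
        (perc Γ p).real ({ω | upd ω e b ∈ A} ∩ {ω | upd ω e b ∈ B}) := by
      intro b
      refine ih _ _ (fun ω ω' h => ?_) (fun ω ω' h => ?_) ?_ ?_
      · refine O3_upd_dep hA e b ω ω' fun f hf hfe => h f ?_
        exact (Finset.mem_insert.mp hf).resolve_left hfe
      · refine O3_upd_dep hB e b ω ω' fun f hf hfe => h f ?_
        exact (Finset.mem_insert.mp hf).resolve_left hfe
      · intro ω ω' h hω
        exact hAi _ _ (upd_mono h e b) hω
      · intro ω ω' h hω
        exact hBi _ _ (upd_mono h e b) hω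
    have h2 : ∀ b : Bool, {ω : Cfg Γ | upd ω e b ∈ A ∩ B} =
        {ω | upd ω e b ∈ A} ∩ {ω | upd ω e b ∈ B} := fun b => rfl
    have hAle : (perc Γ p).real {ω | upd ω e false ∈ A} ≤
        (perc Γ p).real {ω | upd ω e true ∈ A} :=
      measureReal_mono fun ω hω => hAi _ _ (upd_false_true ω e) hω
    have hBle : (perc Γ p).real {ω | upd ω e false ∈ B} ≤
        (perc Γ p).real {ω | upd ω e true ∈ B} :=
      measureReal_mono fun ω hω => hBi _ _ (upd_false_true ω e) hω
    have ht := h1 true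
    have hf := h1 false
    have hp0 : (0 : ℝ) ≤ p := p.2.1
    have hp1 : (0 : ℝ) ≤ 1 - p := by linarith [p.2.2]
    rw [O3_split p e (hAm.inter hBm), h2, h2, O3_split p e hAm, O3_split p e hBm]
    nlinarith [mul_le_mul_of_nonneg_left ht hp0, mul_le_mul_of_nonneg_left hf hp1,
      mul_nonneg (mul_nonneg hp0 hp1) (mul_nonneg (sub_nonneg.mpr hAle) (sub_nonneg.mpr hBle))]

private theorem dle_dep_aux (S : GenSet Γ) (n : ℕ) (x y : Γ) [DecidableEq Γ] (ω ω' : Cfg Γ)
    (h : ∀ e ∈ (S.ball n ×ˢ S.S).image (fun a => s(x * a.1, x * a.1 * a.2)), ω e = ω' e)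
    (hd : dle (og S ω) n x y) : dle (og S ω') n x y := by
  obtain ⟨w, hw⟩ := hd
  refine ⟨w.transfer (og S ω') ?_, by rw [SimpleGraph.Walk.length_transfer]; exact hw⟩
  intro e he
  induction e using Sym2.ind with
  | _ a b =>
    rw [SimpleGraph.mem_edgeSet]
    have hab : (og S ω).Adj a b := w.adj_of_mem_edges he
    have ha : a ∈ w.support := w.fst_mem_support_of_mem_edges he
    have hb : x⁻¹ * a ∈ S.ball n := by
      refine (S.mem_ball n x a).2 ⟨(w.takeUntil a ha).map (SimpleGraph.Hom.ofLE (og_le S ω)), ?_⟩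
      rw [SimpleGraph.Walk.length_map]
      exact (w.length_takeUntil_le_length ha).trans hw
    refine ⟨hab.1, ?_⟩
    rw [← h, hab.2]
    rw [Finset.mem_image]
    refine ⟨(x⁻¹ * a, a⁻¹ * b), ?_, by simp⟩
    rw [Finset.mem_product]
    exact ⟨hb, hab.1⟩

/-- `{dle n x y}` depends on finitely many edges -/
theorem dle_dep (S : GenSet Γ) (n : ℕ) (x y : Γ) : ∃ F : Finset (Sym2 Γ), ∀ ω ω' : Cfg Γ,
    (∀ e ∈ F, ω e = ω' e) → (dle (og S ω) n x y ↔ dle (og S ω') n x y) := by
  classical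
  refine ⟨(S.ball n ×ˢ S.S).image (fun a => s(x * a.1, x * a.1 * a.2)), fun ω ω' h => ?_⟩
  exact ⟨dle_dep_aux S n x y ω ω' h, dle_dep_aux S n x y ω' ω fun e he => (h e he).symm⟩

private theorem og_mono (S : GenSet Γ) {ω ω' : Cfg Γ} (h : ∀ e, ω e = true → ω' e = true) :
    og S ω ≤ og S ω' := fun _ _ hadj => ⟨hadj.1, h _ hadj.2⟩

private theorem tendsto_dle (S : GenSet Γ) (p : unitInterval) (x y : Γ) :
    Tendsto (fun n => perc Γ p {ω | dle (og S ω) n x y}) atTop (𝓝 (tau S p x y)) := by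
  have hU : {ω : Cfg Γ | (og S ω).Reachable x y} = ⋃ n, {ω : Cfg Γ | dle (og S ω) n x y} := by
    ext ω
    rw [Set.mem_iUnion]
    exact BasicA_reach_iff _ _ _
  unfold tau
  rw [hU]
  exact tendsto_measure_iUnion_atTop fun m n hmn ω hω => dle_mono hmn hω

theorem tau_mul_le (S : GenSet Γ) (p : unitInterval) (x y z : Γ) :
    tau S p x y * tau S p y z ≤ tau S p x z := by
  classical
  have h1 : ∀ n, perc Γ p {ω | dle (og S ω) n x y} * perc Γ p {ω | dle (og S ω) n y z} ≤
      tau S p x z := by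
    intro n
    obtain ⟨F₁, hF₁⟩ := dle_dep S n x y
    obtain ⟨F₂, hF₂⟩ := dle_dep S n y z
    have h2 := harris p (F₁ ∪ F₂) {ω | dle (og S ω) n x y} {ω | dle (og S ω) n y z}
      (fun ω ω' h => hF₁ ω ω' fun e he => h e (Finset.mem_union_left _ he))
      (fun ω ω' h => hF₂ ω ω' fun e he => h e (Finset.mem_union_right _ he))
      (fun ω ω' h hω => dle_le (og_mono S h) hω) (fun ω ω' h hω => dle_le (og_mono S h) hω)
    rw [← ofReal_measureReal (μ := perc Γ p) (s := {ω | dle (og S ω) n x y}) (measure_ne_top _ _),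
      ← ofReal_measureReal (μ := perc Γ p) (s := {ω | dle (og S ω) n y z}) (measure_ne_top _ _),
      ← ENNReal.ofReal_mul measureReal_nonneg]
    refine (ENNReal.ofReal_le_ofReal h2).trans ?_
    rw [ofReal_measureReal (measure_ne_top _ _)]
    refine measure_mono ?_
    rintro ω ⟨⟨w, -⟩, ⟨w', -⟩⟩
    exact ⟨w.append w'⟩
  have hfin : ∀ a b : Γ, tau S p a b ≠ ⊤ := fun a b => measure_ne_top _ _
  exact le_of_tendsto' (ENNReal.Tendsto.mul (tendsto_dle S p x y) (Or.inr (hfin _ _))
    (tendsto_dle S p y z) (Or.inr (hfin _ _))) h1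

private theorem tau_adj (S : GenSet Γ) (p : unitInterval) {x y : Γ} (h : S.cay.Adj x y) :
    ENNReal.ofReal p ≤ tau S p x y := by
  have h2 := (measurePreserving_eval_infinitePi (fun _ : Sym2 Γ => bern p)
    s(x, y)).measure_preimage (MeasurableSet.singleton true).nullMeasurableSet
  have h3 : bern p {true} = ENNReal.ofReal p := by
    rw [bern]
    simp
  rw [h3] at h2
  rw [← h2]
  unfold tau perc
  refine measure_mono ?_
  intro ω hω
  have h4 : (og S ω).Adj x y := ⟨h, hω⟩
  exact h4.reachable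

theorem tau_lower (S : GenSet Γ) (p₁ : unitInterval) (hp₁ : 0 < p₁) (x y : Γ) :
    ∃ ε : ℝ≥0∞, ε ≠ 0 ∧ ∀ p, p₁ ≤ p → ε ≤ tau S p x y := by
  obtain ⟨w⟩ := (cay_connected S).preconnected x y
  induction w with
  | @nil u =>
    refine ⟨1, one_ne_zero, fun p _ => ?_⟩
    have : {ω : Cfg Γ | (og S ω).Reachable u u} = Set.univ :=
      Set.eq_univ_of_forall fun ω => SimpleGraph.Reachable.refl _
    unfold tau
    rw [this, measure_univ]
  | @cons u v y hadj w ih =>
    obtain ⟨ε, hε, h⟩ := ih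
    refine ⟨ENNReal.ofReal p₁ * ε, mul_ne_zero ?_ hε, fun p hp => ?_⟩
    · have : (0 : ℝ) < p₁ := hp₁
      exact (ENNReal.ofReal_pos.mpr this).ne'
    · refine le_trans (mul_le_mul' ?_ (h p hp)) (tau_mul_le S p u v y)
      exact (ENNReal.ofReal_le_ofReal hp).trans (tau_adj S p hadj)

end Ends

end IICErg
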