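import Pool.Agent.Lib.MP_4c698b_pr.E.CntB

/-!
# Module Mult: boundedly many separators at a given level (about 120 lines)

PROOF. `B = 4 * |K|² + c`, `c` from `M_meet`. Let `W = {h | SepK h x g ∧ M x h = n}` (finite, `sepK_finite`).
If `W = ∅` the bound is clear. Let `b` be as in `exists_last` for `(x, g)` and `W`, and `a` as in
`exists_last` for `(g, x)` and `W`. Let `w ∈ W` with `tr K w` disjoint from `tr K a` and from `tr K b`. Put
`A = tr K w`. (`w ∈ tr K w` etc. because `1 ∈ K`; all translates are connected, `cn_tr`.)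
(1) `Off S (tr K b) x w`, so `Sep S (tr K b) w g`; `consist_mpr` (`X = tr K b`, `o = x`, `a := b`) gives
`Sep S (tr K w) x b`.
(2) `Off S (tr K a) g w`, so `Sep S (tr K a) w x`; `consist_mpr` (`X = tr K a`, `o = g`, `g := x`) gives
`Sep S (tr K w) g a`.
(3) `third` (`X = tr K a`, `A = tr K w`, `o = x`): `Off S (tr K w) a x` or `Off S (tr K w) a g`; the second is
excluded by (2), so `Off S (tr K w) a x`, and with (1) `SepK S K w a b`.
So `W ⊆ {h | SepK h a b} ∪ {¬ Disjoint with a} ∪ {¬ Disjoint with b}` and `|W| ≤ M a b + 2|K|²`.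
(4) `M a b ≤ c` if `tr K a`, `tr K b` are not disjoint (`M_meet`). If they are disjoint:
`Off S (tr K a) g b` (choice of `a`, as `b ∈ W`), so `SepK S K a x b`, and `M_super`:
`M x a + M a b ≤ M x b + 2|K|²` with `M x a = n = M x b`: `M a b ≤ 2|K|²`.
-/

open scoped Pointwise

namespace IICErg

namespace Ends

variable {Γ : Type} [Group Γ]

private theorem mult_mem_self {K : Finset Γ} (h1 : (1 : Γ) ∈ K) (h : Γ) :
    h ∈ (tr K h : Set Γ) := by
  rw [Finset.mem_coe, mem_tr, inv_mul_cancel]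
  exact h1

private theorem mult_key {S : GenSet Γ} {K : Finset Γ} (hc : Cn S (K : Set Γ))
    (h1 : (1 : Γ) ∈ K) {x g a b w : Γ} (ha : SepK S K a x g) (hb : SepK S K b x g)
    (hw : SepK S K w x g) (hda : Disjoint (tr K w) (tr K a)) (hdb : Disjoint (tr K w) (tr K b))
    (hbx : Off S (tr K b : Set Γ) x w) (hag : Off S (tr K a : Set Γ) g w) : SepK S K w a b := by
  have hdA : Disjoint (tr K w : Set Γ) (tr K a : Set Γ) := Finset.disjoint_coe.2 hda
  have hdB : Disjoint (tr K w : Set Γ) (tr K b : Set Γ) := Finset.disjoint_coe.2 hdb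
  have s1 : Sep S (tr K b : Set Γ) w g := Sep.off_left hb hbx
  have s2 : Sep S (tr K w : Set Γ) x b :=
    consist_mpr (cn_tr hc b) (cn_tr hc w) hdB (mult_mem_self h1 b) (mult_mem_self h1 w) hb hw s1
  have s3 : Sep S (tr K a : Set Γ) w x := Sep.off_left (Sep.symm ha) hag
  have s4 : Sep S (tr K w : Set Γ) g a :=
    consist_mpr (cn_tr hc a) (cn_tr hc w) hdA (mult_mem_self h1 a) (mult_mem_self h1 w)
      (Sep.symm ha) (Sep.symm hw) s3
  rcases third (cn_tr hc a) (cn_tr hc w) hdA (mult_mem_self h1 a) (mult_mem_self h1 w) ha hw with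
    h5 | h5
  · exact Sep.off_left s2 h5.symm
  · exact absurd h5 s4.symm.not_off

theorem mult {S : GenSet Γ} {K : Finset Γ} (hc : Cn S (K : Set Γ)) (h1 : (1 : Γ) ∈ K) :
    ∃ B : ℕ, ∀ (x g : Γ) (n : ℕ), {h | SepK S K h x g ∧ M S K x h = n}.ncard ≤ B := by
  obtain ⟨c, hcm⟩ := M_meet S K
  refine ⟨4 * K.card ^ 2 + c, fun x g n => ?_⟩
  rcases Set.eq_empty_or_nonempty {h | SepK S K h x g ∧ M S K x h = n} with hW | hW
  · rw [hW, Set.ncard_empty]
    exact Nat.zero_le _
  obtain ⟨b, hb, hbl⟩ := exists_last (S := S) (x := x) (g := g) hc h1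
    {h | SepK S K h x g ∧ M S K x h = n} hW (fun h hh => hh.1)
  obtain ⟨a, ha, hal⟩ := exists_last (S := S) (x := g) (g := x) hc h1
    {h | SepK S K h x g ∧ M S K x h = n} hW (fun h hh => Sep.symm hh.1)
  have hsub : {h | SepK S K h x g ∧ M S K x h = n} ⊆
      {h | SepK S K h a b} ∪ {h | ¬ Disjoint (tr K h) (tr K a)} ∪
        {h | ¬ Disjoint (tr K h) (tr K b)} := by
    intro w hw
    by_cases hda : Disjoint (tr K w) (tr K a)
    · by_cases hdb : Disjoint (tr K w) (tr K b)
      · exact Or.inl (Or.inl (mult_key hc h1 ha.1 hb.1 hw.1 hda hdb (hbl w hw hdb)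
          (hal w hw hda)))
      · exact Or.inr hdb
    · exact Or.inl (Or.inr hda)
  have hfin : ({h | SepK S K h a b} ∪ {h | ¬ Disjoint (tr K h) (tr K a)} ∪
      {h | ¬ Disjoint (tr K h) (tr K b)}).Finite :=
    ((sepK_finite S K a b).union (meet_finite K a)).union (meet_finite K b)
  have hcard := Set.ncard_le_ncard hsub hfin
  have hu1 := Set.ncard_union_le ({h | SepK S K h a b} ∪ {h | ¬ Disjoint (tr K h) (tr K a)})
    {h | ¬ Disjoint (tr K h) (tr K b)}
  have hu2 := Set.ncard_union_le {h | SepK S K h a b} {h | ¬ Disjoint (tr K h) (tr K a)}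
  have hma := card_meet K a
  have hmb := card_meet K b
  have hM : M S K a b = {h | SepK S K h a b}.ncard := rfl
  have hab : M S K a b ≤ 2 * K.card ^ 2 + c := by
    by_cases hd : Disjoint (tr K a) (tr K b)
    · have h2 : Off S (tr K a : Set Γ) g b := hal b hb hd.symm
      have h3 : SepK S K a x b := Sep.off_right ha.1 h2
      have h4 := M_super hc h1 h3
      have h5 : M S K x a = n := ha.2
      have h6 : M S K x b = n := hb.2
      omega
    · have := hcm a b hd
      omega
  omega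

end Ends

end IICErg
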