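import Pool.Agent.Lib.MP_4c698b_pr.E.Conn
import Pool.Agent.Lib.MP_4c698b_pr.E.Mult
import Pool.Agent.Lib.MP_4c698b_pr.E.Har

/-!
# Module Code: the sums of the two-point function over the levels of `M` are bounded (about 170 lines)

NOTATION. `m y = M S K 1 y`, `τ y = tau S p 1 y`, `a n = ∑' y, if m y = n then τ y else 0`.

PROOF. `A` from `connectors`, `B` from `mult`, `ε ≠ 0` with `ε ≤ tau S p 1 b` for all `b ∈ A`, `p ≥ p₁` (minimum of the
`ε_b` of `tau_lower` over the finite set `A`; `A` is nonempty or there is no `z ∉ K`), `c₀ = ∑_{b ∈ A} M 1 b + |K|`.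
For `w = y * b`, `b ∈ A`: `M 1 w ≤ m y + c₀` and `m y ≤ M 1 w + c₀` (`M_sub`, `M_mul`: `M y (y b) = M 1 b`, `M_symm`).
(1) Let `z ∉ K`, `y` arbitrary, `b ∈ A` with `SepK b y⁻¹ (b z)`; put `w = y b`, `g = y b z`. Then `SepK w 1 g`
(`sepK_mul` with `g = y`), `M w g = m z` (`M_mul`), so (`M_super`, `M_sub`) `|m g - M 1 w - m z| ≤ 2|K|² + |K|`, hence
`|m g - m y - m z| ≤ c` with `c = c₀ + 2|K|² + |K|`; and `τ g ≥ τ y * tau 1 b * τ z ≥ ε τ y τ z` (`tau_mul_le` twice,
`L2h_reach_mul`).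
(2) So for all `n`, `k`, with `a' k = ∑' z, if m z = k ∧ z ∉ K then τ z else 0`:
`ε * a n * a' k ≤ ∑_{b ∈ A} ∑' y ∑' z [m y = n] [m z = k] [SepK (y b) 1 (y b z)] [|m (y b z) - n - k| ≤ c] τ (y b z)`,
and for fixed `b` the substitution `(y, z) ↦ (w, g) = (y b, y b z)` (a bijection of `Γ × Γ`; as two successive
substitutions `z ↦ g` for fixed `y`, `y ↦ w`; `Equiv.tsum_eq`, `ENNReal.tsum_comm`) gives at most
`∑' g [|m g - n - k| ≤ c] τ g * #{w | SepK w 1 g, |M 1 w - n| ≤ c₀} ≤ (2c₀+1) B ∑' g [|m g - n - k| ≤ c] τ g`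
`≤ (2c₀+1) B (2c+1) sup_j a j` (`mult` for each of the `2c₀+1` possible values of `M 1 w`; a finite set of
cardinality `N` gives `∑' w, if … then 1 else 0 = N`; finiteness by `sepK_finite`). Put
`L = |A| (2c₀+1) B (2c+1)`.
(3) `s = ⨆ n, a n` is finite (`a n ≤ ∑' y, τ y ≠ ⊤`) and not 0 (`a 0 ≥ τ 1 = 1`, `M_self`). Taking the
supremum over `n` in (2): `ε * s * a' k ≤ L * s`, so `a' k ≤ L / ε`. And `a k ≤ a' k + ∑_{z ∈ K} τ z ≤ L / ε + |K|`.
`C = L / ε + |K|`. (If `A` is empty then `connectors` shows that there is no `z ∉ K`, so `a' k = 0`;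
the choice `ε = 1` works.)
-/

open MeasureTheory Filter Topology
open scoped ENNReal NNReal Pointwise

namespace IICErg

namespace Ends

variable {Γ : Type} [Group Γ]

open Classical in
private lemma code_card (P : Γ → Prop) (hf : {w | P w}.Finite) :
    ∑' w, (if P w then (1 : ℝ≥0∞) else 0) = ({w | P w}.ncard : ℝ≥0∞) := by
  rw [tsum_eq_sum (s := hf.toFinset)]
  · rw [Set.ncard_eq_toFinset_card _ hf, Finset.sum_congr rfl (g := fun _ => (1 : ℝ≥0∞))]
    · simp
    · intro w hw
      rw [Set.Finite.mem_toFinset] at hw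
      exact if_pos hw
  · intro w hw
    rw [Set.Finite.mem_toFinset] at hw
    exact if_neg hw

open Classical in
/-- a sum over a window of levels -/
private lemma code_window (t : Γ → ℝ≥0∞) (m : Γ → ℕ) (N c : ℕ) (C : ℝ≥0∞)
    (h : ∀ j, ∑' y, (if m y = j then t y else 0) ≤ C) :
    ∑' y, (if m y ≤ N + c ∧ N ≤ m y + c then t y else 0) ≤ (2 * c + 1 : ℕ) * C := by
  have h1 : ∀ y, (if m y ≤ N + c ∧ N ≤ m y + c then t y else 0) ≤
      ∑ j ∈ Finset.Icc (N - c) (N + c), (if m y = j then t y else 0) := by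
    intro y
    split_ifs with hy
    · have hm : m y ∈ Finset.Icc (N - c) (N + c) := by
        rw [Finset.mem_Icc]
        omega
      refine le_trans ?_ (Finset.single_le_sum (f := fun j => if m y = j then t y else 0)
        (fun j _ => zero_le) hm)
      simp
    · exact zero_le
  calc ∑' y, (if m y ≤ N + c ∧ N ≤ m y + c then t y else 0)
      ≤ ∑' y, ∑ j ∈ Finset.Icc (N - c) (N + c), (if m y = j then t y else 0) :=
        ENNReal.tsum_le_tsum h1
    _ = ∑ j ∈ Finset.Icc (N - c) (N + c), ∑' y, (if m y = j then t y else 0) :=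
        Summable.tsum_finsetSum fun _ _ => ENNReal.summable
    _ ≤ ∑ j ∈ Finset.Icc (N - c) (N + c), C := Finset.sum_le_sum fun j _ => h j
    _ = ((Finset.Icc (N - c) (N + c)).card : ℝ≥0∞) * C := by
        rw [Finset.sum_const, nsmul_eq_mul]
    _ ≤ (2 * c + 1 : ℕ) * C := by
        refine mul_le_mul_left ?_ C
        rw [Nat.card_Icc]
        exact_mod_cast (by omega : N + c + 1 - (N - c) ≤ 2 * c + 1)

open Classical in
theorem code {S : GenSet Γ} {K : Finset Γ} (hg : Good S K) (p₁ : unitInterval) (hp₁ : 0 < p₁) :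
    ∃ C : ℝ≥0∞, C ≠ ⊤ ∧ ∀ p, p₁ ≤ p → ∑' y, tau S p 1 y ≠ ⊤ → ∀ n : ℕ,
      ∑' y, (if M S K 1 y = n then tau S p 1 y else 0) ≤ C := by
  obtain ⟨A, hA⟩ := connectors hg
  obtain ⟨B, hB⟩ := mult hg.conn hg.one
  choose ε hε0 hε using fun b : Γ => tau_lower S p₁ hp₁ 1 b
  set ε₀ : ℝ≥0∞ := min (A.inf ε) 1 with hε₀
  have hε₀0 : ε₀ ≠ 0 := by
    refine (lt_min ?_ one_pos).ne'
    rw [Finset.lt_inf_iff ENNReal.zero_lt_top]
    exact fun b _ => pos_iff_ne_zero.2 (hε0 b)
  have hε₀t : ε₀ ≠ ⊤ := ((min_le_right _ _).trans_lt ENNReal.one_lt_top).ne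
  have hε₀b : ∀ b ∈ A, ∀ p, p₁ ≤ p → ε₀ ≤ tau S p 1 b := fun b hb p hp =>
    (min_le_left _ _).trans ((Finset.inf_le hb).trans (hε b p hp))
  set c₀ : ℕ := ∑ b ∈ A, M S K 1 b + K.card with hc₀
  set c : ℕ := c₀ + 2 * K.card ^ 2 + K.card with hc
  set L : ℕ := A.card * ((2 * c₀ + 1) * B * (2 * c + 1)) with hL
  refine ⟨(L : ℝ≥0∞) / ε₀ + K.card, ?_, ?_⟩
  · refine ENNReal.add_ne_top.2 ⟨?_, ENNReal.natCast_ne_top _⟩
    exact ENNReal.div_ne_top (ENNReal.natCast_ne_top _) hε₀0
  intro p hp hchi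
  -- notation
  let τ : Γ → ℝ≥0∞ := fun y => tau S p 1 y
  let m : Γ → ℕ := fun y => M S K 1 y
  let a : ℕ → ℝ≥0∞ := fun n => ∑' y, (if m y = n then τ y else 0)
  let a' : ℕ → ℝ≥0∞ := fun n => ∑' y, (if m y = n ∧ y ∉ K then τ y else 0)
  set s : ℝ≥0∞ := ⨆ n, a n with hs
  have hτ1 : τ 1 = 1 := by
    change perc Γ p {ω | (og S ω).Reachable 1 1} = 1
    rw [show {ω : Cfg Γ | (og S ω).Reachable 1 1} = Set.univ from
      Set.eq_univ_of_forall fun ω => SimpleGraph.Reachable.refl _]
    exact measure_univ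
  have hs0 : s ≠ 0 := by
    have h1 : (1 : ℝ≥0∞) ≤ s := by
      refine le_trans ?_ (le_iSup a 0)
      refine le_trans ?_ (ENNReal.le_tsum (1 : Γ))
      rw [if_pos (M_self S K 1), hτ1]
    exact (one_pos.trans_le h1).ne'
  have hst : s ≠ ⊤ := by
    refine (lt_of_le_of_lt (iSup_le fun n => ?_) (lt_top_iff_ne_top.2 hchi)).ne
    refine ENNReal.tsum_le_tsum fun y => ?_
    split_ifs
    · exact le_rfl
    · exact zero_le
  -- geometry
  have hbM : ∀ b ∈ A, M S K 1 b ≤ ∑ b ∈ A, M S K 1 b := fun b hb =>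
    Finset.single_le_sum (f := fun b => M S K 1 b) (fun _ _ => Nat.zero_le _) hb
  have hyb : ∀ y b, M S K y (y * b) = M S K 1 b := by
    intro y b
    have := M_mul S K y 1 b
    rwa [mul_one] at this
  have hw1 : ∀ y, ∀ b ∈ A, m (y * b) ≤ m y + c₀ := by
    intro y b hb
    have h1 := M_sub S K 1 y (y * b)
    have h2 := hbM b hb
    rw [hyb] at h1
    change M S K 1 (y * b) ≤ M S K 1 y + c₀
    omega
  have hw2 : ∀ y, ∀ b ∈ A, m y ≤ m (y * b) + c₀ := by
    intro y b hb
    have h1 := M_sub S K 1 (y * b) y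
    have h2 := hbM b hb
    rw [M_symm S K (y * b) y, hyb] at h1
    change M S K 1 y ≤ M S K 1 (y * b) + c₀
    omega
  -- the pointwise inequality
  let F : ℕ → ℕ → Γ → Γ → ℝ≥0∞ := fun n k w g =>
    if (SepK S K w 1 g ∧ m w ≤ n + c₀ ∧ n ≤ m w + c₀) ∧ (m g ≤ n + k + c ∧ n + k ≤ m g + c)
    then τ g else 0
  have hpt : ∀ n k y z, ε₀ * ((if m y = n then τ y else 0) *
      (if m z = k ∧ z ∉ K then τ z else 0)) ≤ ∑ b ∈ A, F n k (y * b) (y * b * z) := by
    intro n k y z
    split_ifs with h1 h2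
    · obtain ⟨b, hb, hsep⟩ := hA y⁻¹ z h2.2
      have hsep' : SepK S K (y * b) 1 (y * b * z) := by
        have := (sepK_mul S K y b y⁻¹ (b * z)).2 hsep
        rwa [mul_inv_cancel, ← mul_assoc] at this
      refine le_trans ?_ (Finset.single_le_sum (f := fun b => F n k (y * b) (y * b * z))
        (fun _ _ => zero_le) hb)
      have h3 := M_super hg.conn hg.one hsep'
      have h4 := M_sub S K 1 (y * b) (y * b * z)
      rw [hyb (y * b) z] at h3 h4
      have h5 := hw1 y b hb
      have h6 := hw2 y b hb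
      have h7 : M S K 1 z = k := h2.1
      have h8 : m y = n := h1
      have h9 : (SepK S K (y * b) 1 (y * b * z) ∧ m (y * b) ≤ n + c₀ ∧ n ≤ m (y * b) + c₀) ∧
          (m (y * b * z) ≤ n + k + c ∧ n + k ≤ m (y * b * z) + c) := by
        refine ⟨⟨hsep', by omega, by omega⟩, ?_, ?_⟩
        · change M S K 1 (y * b * z) ≤ n + k + c
          change M S K 1 (y * b) ≤ M S K 1 y + c₀ at h5
          change M S K 1 y = n at h8
          omega
        · change n + k ≤ M S K 1 (y * b * z) + c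
          change M S K 1 y ≤ M S K 1 (y * b) + c₀ at h6
          change M S K 1 y = n at h8
          omega
      change _ ≤ (if _ then _ else _)
      rw [if_pos h9]
      calc ε₀ * (τ y * τ z) ≤ tau S p 1 b * (τ y * τ z) :=
            mul_le_mul_left (hε₀b b hb p hp) _
        _ = (tau S p 1 y * tau S p y (y * b)) * tau S p (y * b) (y * b * z) := by
            have e1 : tau S p y (y * b) = tau S p 1 b := by
              have := L2h_reach_mul S p y 1 b
              rwa [mul_one] at this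
            have e2 : tau S p (y * b) (y * b * z) = tau S p 1 z := by
              have := L2h_reach_mul S p (y * b) 1 z
              rwa [mul_one] at this
            rw [e1, e2]
            change tau S p 1 b * (tau S p 1 y * tau S p 1 z) = _
            ring
        _ ≤ tau S p 1 (y * b) * tau S p (y * b) (y * b * z) :=
            mul_le_mul_left (tau_mul_le S p 1 y (y * b)) _
        _ ≤ tau S p 1 (y * b * z) := tau_mul_le S p 1 (y * b) (y * b * z)
    · simp
    · simp
    · simp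
  -- the sum of `F`
  have hF : ∀ n k, ∑' w, ∑' g, F n k w g ≤ (((2 * c₀ + 1) * B * (2 * c + 1) : ℕ) : ℝ≥0∞) * s := by
    intro n k
    rw [ENNReal.tsum_comm]
    have h1 : ∀ g, ∑' w, F n k w g ≤ (((2 * c₀ + 1 : ℕ) : ℝ≥0∞) * B) *
        (if m g ≤ n + k + c ∧ n + k ≤ m g + c then τ g else 0) := by
      intro g
      by_cases hD : m g ≤ n + k + c ∧ n + k ≤ m g + c
      · rw [if_pos hD]
        have h2 : ∀ w, F n k w g =
            (if m w ≤ n + c₀ ∧ n ≤ m w + c₀ then
              (if SepK S K w 1 g then (1 : ℝ≥0∞) else 0) else 0) * τ g := by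
          intro w
          change (if _ then _ else _) = _
          by_cases h3 : SepK S K w 1 g
          · by_cases h4 : m w ≤ n + c₀ ∧ n ≤ m w + c₀
            · rw [if_pos ⟨⟨h3, h4⟩, hD⟩, if_pos h4, if_pos h3, one_mul]
            · rw [if_neg (fun h5 => h4 h5.1.2), if_neg h4, zero_mul]
          · rw [if_neg (fun h5 => h3 h5.1.1), if_neg h3, ite_self, zero_mul]
        rw [tsum_congr h2, ENNReal.tsum_mul_right]
        refine mul_le_mul_left ?_ _
        refine code_window (fun w => if SepK S K w 1 g then 1 else 0) m n c₀ B ?_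
        intro j
        have hfin : {w | SepK S K w 1 g ∧ m w = j}.Finite :=
          (sepK_finite S K 1 g).subset fun w hw => hw.1
        refine le_trans (le_of_eq (Eq.trans (tsum_congr fun y => ?_) (code_card _ hfin))) ?_
        · by_cases h3 : SepK S K y 1 g <;> by_cases h4 : m y = j <;> simp [h3, h4]
        · exact_mod_cast hB 1 g j
      · have h2 : ∀ w, F n k w g = 0 := fun w => if_neg fun h3 => hD h3.2
        rw [tsum_congr h2, tsum_zero]
        exact zero_le
    refine (ENNReal.tsum_le_tsum h1).trans ?_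
    rw [ENNReal.tsum_mul_left]
    have h2 : ∑' g, (if m g ≤ n + k + c ∧ n + k ≤ m g + c then τ g else 0) ≤
        ((2 * c + 1 : ℕ) : ℝ≥0∞) * s :=
      code_window τ m (n + k) c s fun j => le_iSup a j
    refine (mul_le_mul_right h2 _).trans (le_of_eq ?_)
    push_cast
    ring
  -- the supermultiplicativity
  have hmain : ∀ n k, ε₀ * (a n * a' k) ≤ (L : ℝ≥0∞) * s := by
    intro n k
    have h1 : ε₀ * (a n * a' k) = ∑' y, ∑' z, ε₀ * ((if m y = n then τ y else 0) *
        (if m z = k ∧ z ∉ K then τ z else 0)) := by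
      simp only [ENNReal.tsum_mul_left, ENNReal.tsum_mul_right]
      rfl
    have h2 : ∀ b ∈ A, ∑' y, ∑' z, F n k (y * b) (y * b * z) = ∑' w, ∑' g, F n k w g := by
      intro b _
      have h3 : ∀ y, ∑' z, F n k (y * b) (y * b * z) = ∑' g, F n k (y * b) g := fun y =>
        (Equiv.mulLeft (y * b)).tsum_eq (fun g => F n k (y * b) g)
      rw [tsum_congr h3]
      exact (Equiv.mulRight b).tsum_eq (fun w => ∑' g, F n k w g)
    calc ε₀ * (a n * a' k) ≤ ∑' y, ∑' z, ∑ b ∈ A, F n k (y * b) (y * b * z) := by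
          rw [h1]
          exact ENNReal.tsum_le_tsum fun y => ENNReal.tsum_le_tsum fun z => hpt n k y z
      _ = ∑' y, ∑ b ∈ A, ∑' z, F n k (y * b) (y * b * z) :=
          tsum_congr fun y => Summable.tsum_finsetSum fun _ _ => ENNReal.summable
      _ = ∑ b ∈ A, ∑' y, ∑' z, F n k (y * b) (y * b * z) :=
          Summable.tsum_finsetSum fun _ _ => ENNReal.summable
      _ = ∑ b ∈ A, ∑' w, ∑' g, F n k w g := Finset.sum_congr rfl h2
      _ ≤ ∑ b ∈ A, (((2 * c₀ + 1) * B * (2 * c + 1) : ℕ) : ℝ≥0∞) * s :=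
          Finset.sum_le_sum fun _ _ => hF n k
      _ = (L : ℝ≥0∞) * s := by
          rw [Finset.sum_const, nsmul_eq_mul, hL]
          push_cast
          ring
  -- division by the supremum
  have ha' : ∀ k, a' k ≤ (L : ℝ≥0∞) / ε₀ := by
    intro k
    have h1 : (ε₀ * a' k) * s ≤ (L : ℝ≥0∞) * s := by
      have h2 : (ε₀ * a' k) * s = ⨆ n, ε₀ * (a n * a' k) := by
        rw [hs, ENNReal.mul_iSup]
        refine iSup_congr fun n => ?_
        ring
      rw [h2]
      exact iSup_le fun n => hmain n k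
    rw [ENNReal.mul_le_mul_iff_left hs0 hst] at h1
    rw [ENNReal.le_div_iff_mul_le (Or.inl hε₀0) (Or.inl hε₀t), mul_comm]
    exact h1
  intro n
  have hKs : ∑' y, (if y ∈ K then (1 : ℝ≥0∞) else 0) = K.card := by
    rw [tsum_eq_sum (s := K) (fun y hy => if_neg hy), Finset.sum_congr rfl (g := fun _ =>
      (1 : ℝ≥0∞)) (fun y hy => if_pos hy)]
    simp
  calc ∑' y, (if M S K 1 y = n then tau S p 1 y else 0)
      ≤ ∑' y, ((if m y = n ∧ y ∉ K then τ y else 0) + (if y ∈ K then (1 : ℝ≥0∞) else 0)) := by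
        refine ENNReal.tsum_le_tsum fun y => ?_
        by_cases hy : y ∈ K
        · rw [if_pos hy]
          refine le_trans ?_ le_add_self
          split_ifs
          · exact prob_le_one
          · exact zero_le
        · rw [if_neg hy, add_zero]
          by_cases h1 : M S K 1 y = n
          · rw [if_pos h1, if_pos ⟨h1, hy⟩]
          · rw [if_neg h1]
            exact zero_le
    _ = a' n + K.card := by
        rw [ENNReal.tsum_add, hKs]
    _ ≤ (L : ℝ≥0∞) / ε₀ + K.card := add_le_add (ha' n) le_rfl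

end Ends

end IICErg
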