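import Pool.Agent.Lib.MP_4c698b_pr.E.NoStar

/-!
# Module Conn: the connectors (about 110 lines)

We write `u ~ v` for `Off S K u v`; `c` is far if `tr K c`, `K` are disjoint.

PROOF of `two_far`. Take `c` from `no_star`: far, `¬ c ~ z`, `¬ c⁻¹ ~ z`.
If `¬ c ~ c⁻¹`: `g₁ = c`, `g₂ = c⁻¹` (`far_inv`, `inv_inv`).
If `c ~ c⁻¹`: let `t ∉ K`, `¬ t ~ z`, `¬ t ~ c` (`exists_other`), and `d` far with `t ~ d` (`exists_far`). If
`¬ d⁻¹ ~ z`: `g₁ = c`, `g₂ = d`. If `d⁻¹ ~ z`: `¬ d⁻¹ ~ c`, so by `push_mul` `d * c` is far and `d ~ d * c`. And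
`(d * c)⁻¹ = c⁻¹ * d⁻¹`: `push_mul` for `c⁻¹`, `d⁻¹` (far by `far_inv`; `(c⁻¹)⁻¹ = c`, `¬ c ~ d⁻¹` because
`d⁻¹ ~ z`) gives `c⁻¹ ~ c⁻¹ * d⁻¹`, hence `¬ (d * c)⁻¹ ~ z`. `g₁ = c`, `g₂ = d * c` (`~ d ~ t`, so not `~ c`).

PROOF of `connectors`. For `z ∉ K` let `g₁ z`, `g₂ z` be as in `two_far`. For `z' ~ z` the elements `g₁ z`,
`g₂ z` also satisfy the conditions for `z'`. For every `u` one of `SepK g_j u (g_j * z')`, `j = 1, 2` holds:
otherwise by `not_sep` `g₁ ~ u` and `g₂ ~ u`, so `g₁ ~ g₂`.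
Every `z' ∉ K` is `~` to an element `z ∉ K` of the finite set `∂K = {k * s | k ∈ K, s ∈ S}`: induction on a walk
of the Cayley graph from `z'` to `1 ∈ K`: if the next vertex `v` is in `K`, `z' = v * (v⁻¹ * z')` is in `∂K`;
otherwise `z' ~ v` (`off_adj`). Let `A` be the finset of all `g₁ z`, `g₂ z`, `z ∈ ∂K \ K`.
-/

open scoped Pointwise

namespace IICErg

namespace Ends

variable {Γ : Type} [Group Γ] {S : GenSet Γ} {K : Finset Γ}

theorem two_far (hg : Good S K) {z : Γ} (hz : z ∉ K) :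
    ∃ g₁ g₂, Disjoint (tr K g₁) K ∧ Disjoint (tr K g₂) K ∧ ¬ Off S (K : Set Γ) g₁⁻¹ z ∧
      ¬ Off S (K : Set Γ) g₂⁻¹ z ∧ ¬ Off S (K : Set Γ) g₁ g₂ := by
  obtain ⟨c, hcf, hcz, hciz⟩ := no_star hg hz
  by_cases hcc : Off S (K : Set Γ) c c⁻¹
  · obtain ⟨t, ht, htz, htc⟩ := exists_other hg z c
    obtain ⟨d, hdf, htd⟩ := exists_far hg ht
    by_cases hdz : Off S (K : Set Γ) d⁻¹ z
    · have h1 : ¬ Off S (K : Set Γ) d⁻¹ c := fun h => hcz (h.symm.trans hdz)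
      have h2 : ¬ Off S (K : Set Γ) (c⁻¹)⁻¹ d⁻¹ := by
        rw [inv_inv]
        exact fun h => h1 h.symm
      obtain ⟨h3, h4⟩ := push_mul hg hdf hcf h1
      obtain ⟨_, h5⟩ := push_mul hg (far_inv hcf) (far_inv hdf) h2
      refine ⟨c, d * c, hcf, h3, hciz, ?_, ?_⟩
      · rw [mul_inv_rev]
        exact fun h => hciz (h5.trans h)
      · exact fun h => htc (htd.trans (h4.trans h.symm))
    · exact ⟨c, d, hcf, hdf, hciz, hdz, fun h => htc (htd.trans h.symm)⟩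
  · refine ⟨c, c⁻¹, hcf, far_inv hcf, hciz, ?_, hcc⟩
    rw [inv_inv]
    exact hcz

private theorem conn_bdry [DecidableEq Γ] (hg : Good S K) :
    ∀ (z' y : Γ) (_ : S.cay.Walk z' y), y ∈ K → z' ∉ K →
      ∃ z ∈ K * S.S, z ∉ K ∧ Off S (K : Set Γ) z z' := by
  intro z' y w
  induction w with
  | nil => intro h1 h2; exact absurd h1 h2
  | @cons a b d hab w ih =>
    intro h1 h2
    by_cases hb : b ∈ K
    · refine ⟨a, ?_, h2, Off.refl h2⟩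
      have h3 : b⁻¹ * a ∈ S.S := hab.symm
      have e : a = b * (b⁻¹ * a) := by rw [mul_inv_cancel_left]
      rw [e]
      exact Finset.mul_mem_mul hb h3
    · obtain ⟨z, hz1, hz2, hz3⟩ := ih h1 hb
      exact ⟨z, hz1, hz2, hz3.trans (off_adj hab.symm hb h2)⟩

theorem connectors (hg : Good S K) :
    ∃ A : Finset Γ, ∀ u z : Γ, z ∉ K → ∃ b ∈ A, SepK S K b u (b * z) := by
  classical
  have hex : ∀ z : Γ, ∃ g₁ g₂ : Γ, z ∉ K → (Disjoint (tr K g₁) K ∧ Disjoint (tr K g₂) K ∧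
      ¬ Off S (K : Set Γ) g₁⁻¹ z ∧ ¬ Off S (K : Set Γ) g₂⁻¹ z ∧ ¬ Off S (K : Set Γ) g₁ g₂) := by
    intro z
    by_cases hz : z ∈ K
    · exact ⟨1, 1, fun h => absurd hz h⟩
    · obtain ⟨g₁, g₂, h⟩ := two_far hg hz
      exact ⟨g₁, g₂, fun _ => h⟩
  choose g1 g2 hG using hex
  refine ⟨(K * S.S).image g1 ∪ (K * S.S).image g2, fun u z' hz' => ?_⟩
  obtain ⟨w⟩ := (cay_connected S).preconnected z' 1
  obtain ⟨z, hz1, hz2, hz3⟩ := conn_bdry hg z' 1 w hg.one hz'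
  obtain ⟨f1, f2, f3, f4, f5⟩ := hG z hz2
  by_contra hne
  push Not at hne
  have k1 := hne (g1 z) (Finset.mem_union_left _ (Finset.mem_image_of_mem _ hz1))
  have k2 := hne (g2 z) (Finset.mem_union_right _ (Finset.mem_image_of_mem _ hz1))
  have m1 := not_sep hg f1 hz' (fun h => f3 (h.trans hz3.symm)) k1
  have m2 := not_sep hg f2 hz' (fun h => f4 (h.trans hz3.symm)) k2
  exact f5 (m1.trans m2.symm)

end Ends

end IICErg
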