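import Pool.Agent.Lib.MP_4c698b_pr.E.Defs

/-!
# Module CutA: connected sets and separation (about 170 lines)

Conventions: `Off S X x y`: outside `X` and joined outside `X`; `Sep S X x y`: outside `X` and not
joined outside `X` (`Defs.lean` has `Off.refl/symm/trans`, `Sep.symm`, `off_of_not_sep`,
`Sep.off_right`, `Off.anti` …).

PROOFS.
`off_mul`, `sepK_mul`, `cn_tr`: left multiplication by `g` is an automorphism of the Cayley graph
(`S.cay.Adj (g*x) (g*y) ↔ S.cay.Adj x y`, because `(g x)⁻¹ (g y) = x⁻¹ y`) and maps `tr K h` to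
`tr K (g*h)`; use `SimpleGraph.Reachable.map` with the two homomorphisms.
`cn_off`: a path inside the connected set `A` avoids `X` (`res_mono`, `A ⊆ Xᶜ`).
`off_adj`: one edge.
`off_walk`: if the vertices `γ 0, …, γ n` (consecutive ones adjacent) are outside `X` then `γ 0` and
`γ n` are joined outside `X` (induction on `n`).
`reach_avoid` (the basic lemma): take a walk of the Cayley graph from `z` to `k` (`cay_connected`),
i.e. induct on the walk, for all starting points `z ∉ X` at once: the next vertex `v` is adjacent to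
`z`. If `v ∈ X`, then `z`, `v` are not in `A` (`z ∉ A`: otherwise `Off S X z z` contradicts `hA`;
`v ∉ A` by disjointness), so `Off S A z v` by one edge, and `Off S A v k` by `cn_off` (`X` is connected
and disjoint from `A`). If `v ∉ X`, then `Off S X z v`, so `hA` holds for `v` too, and the induction
hypothesis gives `Off S A v k`; again `z, v ∉ A`, one edge.
`inside`: otherwise some `a₀ ∈ A` is not `Off`-related to `o`; since `A` is connected and disjoint
from `X`, no element of `A` is (`cn_off`, `Off.trans`); `reach_avoid` with `z = o`, `k = w` gives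
`Off S A o w`, against `Sep S A o w`.
`sep_far`: by `inside` all of `A` is `Off S X`-related to `o`, and `g` is not, so no element of `A` is
`Off S X`-related to `g`; `reach_avoid` (`z = g`, `k = w`) gives `Off S A g w`; so `Sep S A o g` by
`Sep.off_right`.
`third` : if neither `Off S A a o` nor `Off S A a g` (`a ∈ X`), then no element of `X` is `Off S A`-related to `o`
or `g` (`X` is connected and disjoint from `A`, `cn_off`), so by `reach_avoid` with the roles of `X` and `A`
exchanged, `Off S X o w` and `Off S X g w` (`w ∈ A`), hence `Off S X o g`, against `Sep S X o g`.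
`consist_mp`: `inside` gives `Off S X o w` (take the element `w` of `A`), and `Sep S X o g`.
`consist_mpr`: if not `Sep S A o a` then `Off S A o a` (`a ∉ A`, `o ∉ A`), so `Sep S A a g`, i.e.
`Sep S A g a`; by `consist_mp` with `o` and `g` exchanged `Sep S X w o`. So `w` (and hence all of `A`) is
`Off S X`-related neither to `o` nor to `g`; `reach_avoid` gives `Off S A o a` and `Off S A g a`, so
`Off S A o g`: a contradiction to `Sep S A o g`.
-/

open scoped Pointwise

namespace IICErg

namespace Ends

variable {Γ : Type} [Group Γ] {S : GenSet Γ}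

private theorem reach_mul (S : GenSet Γ) {X Y : Set Γ} (g : Γ) (h : ∀ v ∈ X, g * v ∈ Y)
    {x y : Γ} (hxy : (res S X).Reachable x y) : (res S Y).Reachable (g * x) (g * y) := by
  let f : res S X →g res S Y :=
    { toFun := fun v => g * v
      map_rel' := by
        rintro a b ⟨h1, h2, h3⟩
        refine ⟨?_, h _ h2, h _ h3⟩
        have h4 : a⁻¹ * b ∈ S.S := h1
        show (g * a)⁻¹ * (g * b) ∈ S.S
        rwa [mul_inv_rev, mul_assoc, inv_mul_cancel_left] }
  exact hxy.map f

private theorem mem_tr_mul (K : Finset Γ) (g h x : Γ) : g * x ∈ tr K (g * h) ↔ x ∈ tr K h := by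
  rw [mem_tr, mem_tr, mul_inv_rev, mul_assoc, inv_mul_cancel_left]

private theorem reach_tr (S : GenSet Γ) (K : Finset Γ) (g h x y : Γ) :
    (res S (tr K (g * h) : Set Γ)ᶜ).Reachable (g * x) (g * y) ↔
      (res S (tr K h : Set Γ)ᶜ).Reachable x y := by
  constructor
  · intro h1
    have h2 := reach_mul S (Y := (tr K h : Set Γ)ᶜ) g⁻¹ (fun v hv => by
      intro hc
      apply hv
      rw [Finset.mem_coe] at hc ⊢
      rwa [← mem_tr_mul K g h, mul_inv_cancel_left] at hc) h1
    rwa [inv_mul_cancel_left, inv_mul_cancel_left] at h2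
  · intro h1
    exact reach_mul S (Y := (tr K (g * h) : Set Γ)ᶜ) g (fun v hv => by
      intro hc
      apply hv
      rw [Finset.mem_coe] at hc ⊢
      rwa [mem_tr_mul K g h] at hc) h1

theorem off_mul (S : GenSet Γ) (K : Finset Γ) (g h x y : Γ) :
    Off S (tr K (g * h) : Set Γ) (g * x) (g * y) ↔ Off S (tr K h : Set Γ) x y := by
  unfold Off
  rw [reach_tr, Finset.mem_coe, Finset.mem_coe, Finset.mem_coe, Finset.mem_coe, mem_tr_mul,
    mem_tr_mul]

theorem sepK_mul (S : GenSet Γ) (K : Finset Γ) (g h x y : Γ) :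
    SepK S K (g * h) (g * x) (g * y) ↔ SepK S K h x y := by
  unfold SepK Sep
  rw [reach_tr, Finset.mem_coe, Finset.mem_coe, Finset.mem_coe, Finset.mem_coe, mem_tr_mul,
    mem_tr_mul]

theorem cn_tr {K : Finset Γ} (hK : Cn S (K : Set Γ)) (h : Γ) : Cn S (tr K h : Set Γ) := by
  intro x hx y hy
  rw [Finset.mem_coe, mem_tr] at hx hy
  have h1 := reach_mul S (Y := (tr K h : Set Γ)) h (fun v hv => by
    rw [Finset.mem_coe, mem_tr, inv_mul_cancel_left]
    exact hv) (hK _ hx _ hy)
  rwa [mul_inv_cancel_left, mul_inv_cancel_left] at h1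

theorem cn_off {A X : Set Γ} (hA : Cn S A) (hd : Disjoint A X) {a b : Γ} (ha : a ∈ A)
    (hb : b ∈ A) : Off S X a b :=
  ⟨Set.disjoint_left.mp hd ha, Set.disjoint_left.mp hd hb,
    (hA a ha b hb).mono (res_mono fun _ hv => Set.disjoint_left.mp hd hv)⟩

theorem off_adj {X : Set Γ} {a b : Γ} (h : S.cay.Adj a b) (ha : a ∉ X) (hb : b ∉ X) :
    Off S X a b := by
  have h1 : (res S Xᶜ).Adj a b := ⟨h, ha, hb⟩
  exact ⟨ha, hb, h1.reachable⟩

theorem off_walk {X : Set Γ} (γ : ℕ → Γ) (n : ℕ) (hγ : ∀ t < n, S.cay.Adj (γ t) (γ (t + 1)))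
    (hX : ∀ t ≤ n, γ t ∉ X) : Off S X (γ 0) (γ n) := by
  induction n with
  | zero => exact Off.refl (hX 0 le_rfl)
  | succ n ih =>
    exact (ih (fun t ht => hγ t (ht.trans n.lt_succ_self)) fun t ht => hX t (Nat.le_succ_of_le ht)).trans
      (off_adj (hγ n n.lt_succ_self) (hX n n.le_succ) (hX (n + 1) le_rfl))

/-- if `A` does not meet the component of `z` in the complement of the connected set `X`, then `z` is
joined to `X` outside `A` -/
theorem reach_avoid {X A : Set Γ} (hX : Cn S X) (hd : Disjoint A X) {z k : Γ} (hz : z ∉ X)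
    (hk : k ∈ X) (hA : ∀ a ∈ A, ¬ Off S X z a) : Off S A z k := by
  obtain ⟨w⟩ := (cay_connected S).preconnected z k
  induction w with
  | nil => exact absurd hk hz
  | @cons z v k hadj w ih =>
    have hzA : z ∉ A := fun h => hA z h (Off.refl hz)
    by_cases hv : v ∈ X
    · have hvA : v ∉ A := fun h => Set.disjoint_left.mp hd h hv
      exact (off_adj hadj hzA hvA).trans (cn_off hX hd.symm hv hk)
    · have hzv : Off S X z v := off_adj hadj hz hv
      have hA' : ∀ a ∈ A, ¬ Off S X v a := fun a ha h => hA a ha (hzv.trans h)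
      have hvA : v ∉ A := fun h => hA' v h (Off.refl hv)
      exact (off_adj hadj hzA hvA).trans (ih hv hk hA')

/-- a connected set that separates `o` from a point of `X` lies on the side of `o` -/
theorem inside {X A : Set Γ} (hX : Cn S X) (hA : Cn S A) (hd : Disjoint A X) {o w : Γ}
    (hw : w ∈ X) (ho : o ∉ X) (h : Sep S A o w) : ∀ a ∈ A, Off S X o a := by
  by_contra hcon
  push Not at hcon
  obtain ⟨a₀, ha₀, hn⟩ := hcon
  exact h.not_off (reach_avoid hX hd ho hw fun a ha hoa => hn (hoa.trans (cn_off hA hd ha ha₀)))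

theorem sep_far {X A : Set Γ} (hX : Cn S X) (hA : Cn S A) (hd : Disjoint A X) {o w g : Γ}
    (hw : w ∈ X) (h : Sep S A o w) (h' : Sep S X o g) : Sep S A o g := by
  have h1 := inside hX hA hd hw h'.1 h
  have h2 : Off S A g w := reach_avoid hX hd h'.2.1 hw fun a ha hga =>
    h'.not_off ((h1 a ha).trans hga.symm)
  exact h.off_right h2.symm

theorem third {X A : Set Γ} (hX : Cn S X) (hA : Cn S A) (hd : Disjoint A X) {o g a w : Γ}
    (ha : a ∈ X) (hw : w ∈ A) (hXs : Sep S X o g) (hAs : Sep S A o g) :
    Off S A a o ∨ Off S A a g := by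
  by_contra hcon
  push Not at hcon
  have h1 : Off S X o w := reach_avoid hA hd.symm hAs.1 hw fun b hb hob =>
    hcon.1 ((hob.trans (cn_off hX hd.symm hb ha)).symm)
  have h2 : Off S X g w := reach_avoid hA hd.symm hAs.2.1 hw fun b hb hob =>
    hcon.2 ((hob.trans (cn_off hX hd.symm hb ha)).symm)
  exact hXs.not_off (h1.trans h2.symm)

theorem consist_mp {X A : Set Γ} (hX : Cn S X) (hA : Cn S A) (hd : Disjoint A X) {o g a w : Γ}
    (ha : a ∈ X) (hw : w ∈ A) (hXs : Sep S X o g) (h : Sep S A o a) : Sep S X w g :=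
  hXs.off_left (inside hX hA hd ha hXs.1 h w hw)

theorem consist_mpr {X A : Set Γ} (hX : Cn S X) (hA : Cn S A) (hd : Disjoint A X) {o g a w : Γ}
    (ha : a ∈ X) (hw : w ∈ A) (hXs : Sep S X o g) (hAs : Sep S A o g) (h : Sep S X w g) :
    Sep S A o a := by
  by_contra hcon
  have haA : a ∉ A := fun h' => Set.disjoint_left.mp hd h' ha
  have h1 : Off S A o a := off_of_not_sep hAs.1 haA hcon
  have h2 : Off S A g a := reach_avoid hX hd hXs.2.1 ha fun b hb hgb =>
    h.symm.not_off (hgb.trans (cn_off hA hd hb hw))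
  exact hAs.not_off (h1.trans h2.symm)

end Ends

end IICErg
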