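import Pool.Agent.Lib.MP_4c698b_pr.E.Defs
import Pool.Agent.Lib.MP_4c698b_pr.O6

/-!
# Module DecA: independent finite edge sets (about 100 lines)

PROOF of `open_prob`: the complement is `{ω | ∀ e ∈ F, ω e = false}`, its probability is `(1-p)^|F|`:
induction on `F` (`Finset.induction_on`): with `O3_split` for the new edge `e`:
`{ω | upd ω e true ∈ Q} = ∅`, `{ω | upd ω e false ∈ Q}` is the event for the old set
(`O3_upd_self`, `O3_upd_ne`); measurability by `O3_meas`. (`probReal_compl_eq_one_sub` or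
`measureReal_compl`.)
PROOF of `open_prob_prod`: induction on `I`: for `insert h I` use `O6_indep` with
`A = {ω | ∃ e ∈ E h, ω e = true}`, `B = {ω | ∀ h' ∈ I, ∃ e ∈ E h', ω e = true}` and the edge set `E h`, which
is disjoint from all `E h'` (`O3_upd_ne`).
-/

open MeasureTheory Filter Topology
open scoped ENNReal NNReal Pointwise

namespace IICErg

namespace Ends

variable {Γ : Type} [Group Γ]

omit [Group Γ] in
private theorem meas_open (F : Finset (Sym2 Γ)) : MeasurableSet {ω : Cfg Γ | ∃ e ∈ F, ω e = true} := by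
  refine O3_meas F _ fun ω ω' h => ?_
  constructor
  · rintro ⟨e, he, h1⟩
    exact ⟨e, he, by rw [← h e he]; exact h1⟩
  · rintro ⟨e, he, h1⟩
    exact ⟨e, he, by rw [h e he]; exact h1⟩

theorem open_prob (p : unitInterval) (F : Finset (Sym2 Γ)) :
    (perc Γ p).real {ω | ∃ e ∈ F, ω e = true} = 1 - (1 - (p : ℝ)) ^ F.card := by
  classical
  induction F using Finset.induction_on with
  | empty => simp
  | insert e F he ih =>
    have h1 : {ω : Cfg Γ | upd ω e true ∈ {ω : Cfg Γ | ∃ f ∈ insert e F, ω f = true}} = Set.univ := by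
      ext ω
      refine ⟨fun _ => trivial, fun _ => ?_⟩
      exact ⟨e, Finset.mem_insert_self _ _, O3_upd_self _ _ _⟩
    have h2 : {ω : Cfg Γ | upd ω e false ∈ {ω : Cfg Γ | ∃ f ∈ insert e F, ω f = true}} =
        {ω : Cfg Γ | ∃ f ∈ F, ω f = true} := by
      ext ω
      constructor
      · rintro ⟨f, hf, h3⟩
        rcases Finset.mem_insert.mp hf with rfl | hf'
        · rw [O3_upd_self] at h3
          exact Bool.noConfusion h3
        · have hne : f ≠ e := fun h => he (h ▸ hf')
          rw [O3_upd_ne _ _ hne] at h3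
          exact ⟨f, hf', h3⟩
      · rintro ⟨f, hf, h3⟩
        have hne : f ≠ e := by
          rintro rfl
          exact he hf
        exact ⟨f, Finset.mem_insert_of_mem hf, by rw [O3_upd_ne _ _ hne]; exact h3⟩
    rw [O3_split p e (meas_open (insert e F)), h1, h2, ih, Finset.card_insert_of_notMem he,
      probReal_univ]
    ring

theorem open_prob_prod (p : unitInterval) (I : Finset Γ) (E : Γ → Finset (Sym2 Γ))
    (hE : ∀ a ∈ I, ∀ b ∈ I, a ≠ b → Disjoint (E a) (E b)) :
    (perc Γ p).real {ω | ∀ h ∈ I, ∃ e ∈ E h, ω e = true} =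
      ∏ h ∈ I, (1 - (1 - (p : ℝ)) ^ (E h).card) := by
  classical
  induction I using Finset.induction_on with
  | empty => simp
  | insert a I ha ih =>
    have h1 : {ω : Cfg Γ | ∀ h ∈ insert a I, ∃ e ∈ E h, ω e = true} =
        {ω : Cfg Γ | ∃ e ∈ E a, ω e = true} ∩ {ω : Cfg Γ | ∀ h ∈ I, ∃ e ∈ E h, ω e = true} := by
      ext ω
      simp only [Set.mem_ofPred_eq, Set.mem_inter_iff, Finset.forall_mem_insert]
    have hB : MeasurableSet {ω : Cfg Γ | ∀ h ∈ I, ∃ e ∈ E h, ω e = true} := by
      have h2 : {ω : Cfg Γ | ∀ h ∈ I, ∃ e ∈ E h, ω e = true} =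
          ⋂ h ∈ I, {ω : Cfg Γ | ∃ e ∈ E h, ω e = true} := by
        ext ω
        simp only [Set.mem_ofPred_eq, Set.mem_iInter]
      rw [h2]
      exact Finset.measurableSet_biInter _ fun h _ => meas_open (E h)
    have hA : ∀ ω ω' : Cfg Γ, (∀ e ∈ E a, ω e = ω' e) →
        (ω ∈ {ω : Cfg Γ | ∃ e ∈ E a, ω e = true} ↔ ω' ∈ {ω : Cfg Γ | ∃ e ∈ E a, ω e = true}) := by
      intro ω ω' h
      constructor
      · rintro ⟨e, he, h1⟩
        exact ⟨e, he, by rw [← h e he]; exact h1⟩
      · rintro ⟨e, he, h1⟩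
        exact ⟨e, he, by rw [h e he]; exact h1⟩
    have hU : ∀ e ∈ E a, ∀ (ω : Cfg Γ) (b : Bool),
        upd ω e b ∈ {ω : Cfg Γ | ∀ h ∈ I, ∃ e ∈ E h, ω e = true} ↔
          ω ∈ {ω : Cfg Γ | ∀ h ∈ I, ∃ e ∈ E h, ω e = true} := by
      intro e he ω b
      have hne : ∀ h ∈ I, ∀ f ∈ E h, f ≠ e := by
        rintro h hh f hf rfl
        have hah : a ≠ h := by
          rintro rfl
          exact ha hh
        exact Finset.disjoint_left.mp (hE a (Finset.mem_insert_self _ _) h
          (Finset.mem_insert_of_mem hh) hah) he hf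
      constructor
      · intro h h' hh'
        obtain ⟨f, hf, h3⟩ := h h' hh'
        rw [O3_upd_ne _ _ (hne h' hh' f hf)] at h3
        exact ⟨f, hf, h3⟩
      · intro h h' hh'
        obtain ⟨f, hf, h3⟩ := h h' hh'
        exact ⟨f, hf, by rw [O3_upd_ne _ _ (hne h' hh' f hf)]; exact h3⟩
    rw [h1, O6_indep p (E a) _ hB _ hA hU, open_prob, ih, Finset.prod_insert ha]
    intro x hx y hy hxy
    exact hE x (Finset.mem_insert_of_mem hx) y (Finset.mem_insert_of_mem hy) hxy

end Ends

end IICErg
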