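import Pool.Agent.Lib.MP_4c698b_pr.E.DecA
import Pool.Agent.Lib.MP_4c698b_pr.E.CntB

/-!
# Module DecB: exponential decay of the two-point function in `M` (about 130 lines)

PROOF of `exists_open_edge`. Let `N ⊇ K` contain all neighbours of elements of `K`. Suppose `x`, `y` are
connected in `og S ω` and `tr K h` separates them. Then some edge with both endpoints in `tr N h` is open:
otherwise the open walk from `x` to `y` never enters `tr K h`: `x ∉ tr K h`, and an open edge from `u ∉ tr K h`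
to `v ∈ tr K h` has both endpoints in `tr N h` (`h⁻¹ * v ∈ K`, `h⁻¹ * u` is a neighbour of it). So all its
vertices are outside `tr K h` and `(res S (tr K h)ᶜ).Reachable x y` (induction on the walk).
PROOF of `tau_le_pow`. `N` as above (`N = K ∪ (K ×ˢ S.S).image (k * s)`), `F h = O3_pairs (tr N h)` (or
`(tr N h).sym2`). Let `H` be the finset of the `h` with `SepK h x y` (`sepK_finite`), `|H| = M x y`. `greedy`
for `N` gives `I ⊆ H`, `tr N h` pairwise disjoint, so the `F h` are disjoint (a pair in both has its first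
element in both), and `M x y ≤ |I| |N|²`. Put `D = |N|²`, `E₀ = |F h|` - all `F h` have at most
`|N|²` elements (`card_image_le`, `card_tr`), so
`1 - (1-p)^|F h| ≤ t := 1 - (1-q)^(|N|²)` for `p ≤ q`, `0 ≤ t < 1`. `{x ↔ y} ⊆ {ω | ∀ h ∈ I, ∃ e ∈ F h, ω e}`, so
`τ ≤ t^|I|` (`open_prob_prod`, `Finset.prod_le_pow_card`).
Hence `τ^D ≤ t^(D |I|) ≤ t^(M x y)` (`t ≤ 1`). Choose `θ ∈ (0,1)` with `t ≤ θ^D` (for instance
`θ = max (1/2) (t^(1/D))` with `Real.rpow`, or: `θ ↦ θ^D` is continuous at `1` and `t < 1`). Then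
`τ^D ≤ θ^(D M) = (θ^M)^D`, so `τ ≤ θ^M` (`pow_le_pow_left₀` reversed: `le_of_pow_le_pow_left₀`, `D ≥ 1`).
-/

open MeasureTheory Filter Topology
open scoped ENNReal NNReal Pointwise

namespace IICErg

namespace Ends

variable {Γ : Type} [Group Γ]

theorem exists_open_edge (S : GenSet Γ) (K N : Finset Γ) (hKN : K ⊆ N)
    (hN : ∀ k ∈ K, ∀ s ∈ S.S, k * s ∈ N) (ω : Cfg Γ) (h : Γ) {x y : Γ} (hs : SepK S K h x y)
    (hr : (og S ω).Reachable x y) : ∃ e ∈ O3_pairs (tr N h), ω e = true := by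
  by_contra hcon
  have key : ∀ {u v : Γ} (_ : (og S ω).Walk u v), u ∉ (tr K h : Set Γ) →
      (res S ((tr K h : Set Γ))ᶜ).Reachable u v := by
    intro u v w
    induction w with
    | nil => exact fun _ => SimpleGraph.Reachable.refl _
    | @cons u u' v hadj w ih =>
      intro hu
      have hu' : u' ∉ (tr K h : Set Γ) := by
        intro hu'
        have h1 : h⁻¹ * u' ∈ K := (mem_tr K h u').mp (Finset.mem_coe.mp hu')
        have h2 : u'⁻¹ * u ∈ S.S := hadj.1.symm
        have h3 : h⁻¹ * u ∈ N := by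
          have h4 := hN _ h1 _ h2
          rwa [mul_assoc, mul_inv_cancel_left] at h4
        refine hcon ⟨s(u, u'), O3_mem_pairs ((mem_tr N h u).mpr h3)
          ((mem_tr N h u').mpr (hKN h1)), hadj.2⟩
      have hadj' : (res S ((tr K h : Set Γ))ᶜ).Adj u u' := ⟨hadj.1, hu, hu'⟩
      exact hadj'.reachable.trans (ih hu')
  obtain ⟨w⟩ := hr
  exact hs.2.2 (key w hs.1)

omit [Group Γ] in
private theorem disj_pairs {A B : Finset Γ} (h : Disjoint A B) :
    Disjoint (O3_pairs A) (O3_pairs B) := by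
  classical
  rw [Finset.disjoint_left]
  intro e he he'
  obtain ⟨⟨a, b⟩, hab, rfl⟩ := Finset.mem_image.mp he
  obtain ⟨⟨c, d⟩, hcd, h1⟩ := Finset.mem_image.mp he'
  rw [Finset.mem_product] at hab hcd
  simp only at h1 hab hcd
  have h2 : a ∈ s(c, d) := by rw [h1]; exact Sym2.mem_mk_left _ _
  rw [Sym2.mem_iff] at h2
  rcases h2 with h2 | h2
  · exact Finset.disjoint_left.mp h hab.1 (h2 ▸ hcd.1)
  · exact Finset.disjoint_left.mp h hab.1 (h2 ▸ hcd.2)

omit [Group Γ] in
private theorem card_pairs (A : Finset Γ) : (O3_pairs A).card ≤ A.card ^ 2 := by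
  classical
  unfold O3_pairs
  refine Finset.card_image_le.trans ?_
  rw [Finset.card_product, sq]

theorem decay (S : GenSet Γ) (K : Finset Γ) (h1 : (1 : Γ) ∈ K) (q : unitInterval) (hq : q < 1) :
    ∃ θ : ℝ≥0∞, θ ≠ 0 ∧ θ < 1 ∧ ∀ p ≤ q, ∀ x y : Γ, tau S p x y ≤ θ ^ M S K x y := by
  classical
  set N : Finset Γ := K ∪ (K ×ˢ S.S).image (fun z => z.1 * z.2) with hNdef
  have hKN : K ⊆ N := Finset.subset_union_left
  have hN : ∀ k ∈ K, ∀ s ∈ S.S, k * s ∈ N := fun k hk s hs =>
    Finset.mem_union_right _ (Finset.mem_image.mpr ⟨(k, s), Finset.mem_product.mpr ⟨hk, hs⟩, rfl⟩)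
  have hNne : N.Nonempty := ⟨1, hKN h1⟩
  set D : ℕ := N.card ^ 2 with hD
  have hD1 : 1 ≤ D := Nat.one_le_pow _ _ (Finset.card_pos.mpr hNne)
  have hq0 : (0 : ℝ) ≤ q := q.2.1
  have hq1 : (q : ℝ) < 1 := hq
  set t : ℝ := 1 - (1 - (q : ℝ)) ^ D with ht
  have ht0 : 0 ≤ t := by
    have : (1 - (q : ℝ)) ^ D ≤ 1 := pow_le_one₀ (by linarith) (by linarith)
    rw [ht]; linarith
  have ht1 : t < 1 := by
    have : 0 < (1 - (q : ℝ)) ^ D := pow_pos (by linarith) _
    rw [ht]; linarith
  have hDr : (1 : ℝ) ≤ D := by exact_mod_cast hD1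
  set θ : ℝ := 1 - (1 - t) / (2 * D) with hθ
  have hfrac : (1 - t) / (2 * D) ≤ 1 / 2 := by
    rw [div_le_div_iff₀ (by linarith) (by norm_num)]
    nlinarith
  have hfrac0 : 0 < (1 - t) / (2 * D) := by
    apply div_pos <;> linarith
  have hθ0 : 0 < θ := by rw [hθ]; linarith
  have hθ1 : θ < 1 := by rw [hθ]; linarith
  have htθ : t ≤ θ ^ D := by
    have h2 := one_add_mul_le_pow (a := -((1 - t) / (2 * D))) (by linarith) D
    have h3 : (D : ℝ) * -((1 - t) / (2 * D)) = -((1 - t) / 2) := by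
      field_simp
    have h4 : θ = 1 + -((1 - t) / (2 * D)) := by rw [hθ]; ring
    rw [h4]
    rw [h3] at h2
    linarith
  refine ⟨ENNReal.ofReal θ, ?_, ?_, ?_⟩
  · rw [Ne, ENNReal.ofReal_eq_zero]
    linarith
  · rw [← ENNReal.ofReal_one]
    exact (ENNReal.ofReal_lt_ofReal_iff one_pos).mpr hθ1
  · intro p hpq x y
    have hp0 : (0 : ℝ) ≤ p := p.2.1
    have hp1 : (p : ℝ) ≤ 1 := p.2.2
    have hpq' : (p : ℝ) ≤ q := hpq
    have hfin := sepK_finite S K x y
    obtain ⟨I, hI, hdisj, hcard⟩ := greedy N hNne hfin.toFinset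
    have hM : M S K x y = hfin.toFinset.card := by
      unfold M
      exact Set.ncard_eq_toFinset_card _ hfin
    have hsub : {ω : Cfg Γ | (og S ω).Reachable x y} ⊆
        {ω | ∀ h ∈ I, ∃ e ∈ O3_pairs (tr N h), ω e = true} := by
      intro ω hω h hh
      have h2 : SepK S K h x y := by
        have := hI hh
        rw [Set.Finite.mem_toFinset] at this
        exact this
      exact exists_open_edge S K N hKN hN ω h h2 hω
    have hprob := open_prob_prod p I (fun h => O3_pairs (tr N h))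
      (fun a ha b hb hab => disj_pairs (hdisj a ha b hb hab))
    have hle : (perc Γ p).real {ω : Cfg Γ | (og S ω).Reachable x y} ≤ t ^ I.card := by
      refine (measureReal_mono hsub (measure_ne_top _ _)).trans ?_
      rw [hprob]
      rw [← Finset.prod_const]
      refine Finset.prod_le_prod (fun h _ => ?_) (fun h _ => ?_)
      · have : (1 - (p : ℝ)) ^ (O3_pairs (tr N h)).card ≤ 1 :=
          pow_le_one₀ (by linarith) (by linarith)
        linarith
      · have hc : (O3_pairs (tr N h)).card ≤ D := by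
          have := card_pairs (tr N h)
          rwa [card_tr] at this
        have h3 : (1 - (q : ℝ)) ^ D ≤ (1 - (p : ℝ)) ^ (O3_pairs (tr N h)).card :=
          (pow_le_pow_of_le_one (by linarith) (by linarith) hc).trans
            (pow_le_pow_left₀ (by linarith) (by linarith) _)
        rw [ht]
        linarith
    have hle2 : (perc Γ p).real {ω : Cfg Γ | (og S ω).Reachable x y} ≤ θ ^ M S K x y := by
      refine hle.trans ((pow_le_pow_left₀ ht0 htθ _).trans ?_)
      rw [← pow_mul, hM]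
      refine pow_le_pow_of_le_one hθ0.le hθ1.le ?_
      rw [mul_comm]
      exact hcard
    unfold tau
    rw [← ENNReal.ofReal_pow hθ0.le, ← ofReal_measureReal (measure_ne_top _ _)]
    exact ENNReal.ofReal_le_ofReal hle2

end Ends

end IICErg
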