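import Pool.Agent.Lib.MP_4c698b_pr.ODefs
import Pool.Agent.Lib.MP_4c698b_pr.BasicB

/-!
# Groups with more than two ends: definitions and first facts

`Off S X x y`: `x`, `y` are outside `X` and joined by a path of the Cayley graph outside `X`.
`Sep S X x y`: `x`, `y` are outside `X` and not joined by such a path.
`tr K h = h K`: the translates of a finite set `K`. `SepK S K h x y`: `h K` separates `x` and `y`.
`M S K x y`: the number of the translates of `K` that separate `x` and `y`.
-/

open MeasureTheory Filter Topology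
open scoped ENNReal NNReal Pointwise

namespace IICErg

namespace Ends

variable {Γ : Type} [Group Γ]

/-- The part of the Cayley graph spanned by the set `X`. -/
def res (S : GenSet Γ) (X : Set Γ) : SimpleGraph Γ where
  Adj x y := S.cay.Adj x y ∧ x ∈ X ∧ y ∈ X
  symm := ⟨fun _ _ h => ⟨h.1.symm, h.2.2, h.2.1⟩⟩
  loopless := ⟨fun x h => S.cay.loopless.irrefl x h.1⟩

/-- `x` and `y` are outside `X` and there is a path of the Cayley graph from `x` to `y` that does not
meet `X`. -/
def Off (S : GenSet Γ) (X : Set Γ) (x y : Γ) : Prop :=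
  x ∉ X ∧ y ∉ X ∧ (res S Xᶜ).Reachable x y

/-- `X` separates `x` and `y`: they are outside `X` and every path from `x` to `y` meets `X`. -/
def Sep (S : GenSet Γ) (X : Set Γ) (x y : Γ) : Prop :=
  x ∉ X ∧ y ∉ X ∧ ¬ (res S Xᶜ).Reachable x y

/-- The Cayley graph has more than two ends: there is a finite set `F` of vertices such that the
complement of `F` has at least three infinite connected components. -/
def ManyEnds (S : GenSet Γ) : Prop :=
  ∃ (F : Finset Γ) (x : Fin 3 → Γ), (∀ i, {y | Off S F (x i) y}.Infinite) ∧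
    ∀ i j, i ≠ j → ¬ Off S F (x i) (x j)

/-- `X` is connected. -/
def Cn (S : GenSet Γ) (X : Set Γ) : Prop := ∀ x ∈ X, ∀ y ∈ X, (res S X).Reachable x y

/-- The translate `h K`. -/
def tr (K : Finset Γ) (h : Γ) : Finset Γ := K.map (Equiv.mulLeft h).toEmbedding

@[simp] theorem mem_tr (K : Finset Γ) (h x : Γ) : x ∈ tr K h ↔ h⁻¹ * x ∈ K := by
  simp only [tr, Finset.mem_map, Equiv.coe_toEmbedding, Equiv.coe_mulLeft]
  constructor
  · rintro ⟨a, ha, rfl⟩
    rwa [inv_mul_cancel_left]
  · intro h1
    exact ⟨_, h1, mul_inv_cancel_left _ _⟩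

theorem card_tr (K : Finset Γ) (h : Γ) : (tr K h).card = K.card := Finset.card_map _

theorem tr_one (K : Finset Γ) : tr K 1 = K := by
  ext x; simp

/-- `h K` separates `x` and `y`. -/
def SepK (S : GenSet Γ) (K : Finset Γ) (h x y : Γ) : Prop := Sep S (tr K h : Set Γ) x y

/-- The number of translates of `K` that separate `x` and `y`. -/
noncomputable def M (S : GenSet Γ) (K : Finset Γ) (x y : Γ) : ℕ := {h : Γ | SepK S K h x y}.ncard

/-- The finite set `K` is connected, contains `1`, all components of its complement are infinite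
and there are at least three of them. -/
structure Good (S : GenSet Γ) (K : Finset Γ) : Prop where
  one : (1 : Γ) ∈ K
  conn : Cn S (K : Set Γ)
  inf : ∀ x, x ∉ K → {y | Off S (K : Set Γ) x y}.Infinite
  three : ∃ x y z, Sep S (K : Set Γ) x y ∧ Sep S (K : Set Γ) y z ∧ Sep S (K : Set Γ) x z

variable {S : GenSet Γ} {X Y : Set Γ} {x y z : Γ}

theorem Off.refl (h : x ∉ X) : Off S X x x := ⟨h, h, SimpleGraph.Reachable.refl _⟩

theorem Off.symm (h : Off S X x y) : Off S X y x := ⟨h.2.1, h.1, h.2.2.symm⟩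

theorem Off.trans (h : Off S X x y) (h' : Off S X y z) : Off S X x z :=
  ⟨h.1, h'.2.1, h.2.2.trans h'.2.2⟩

theorem Sep.symm (h : Sep S X x y) : Sep S X y x := ⟨h.2.1, h.1, fun h1 => h.2.2 h1.symm⟩

theorem Sep.not_off (h : Sep S X x y) : ¬ Off S X x y := fun h1 => h.2.2 h1.2.2

theorem sep_of_not_off (hx : x ∉ X) (hy : y ∉ X) (h : ¬ Off S X x y) : Sep S X x y :=
  ⟨hx, hy, fun h1 => h ⟨hx, hy, h1⟩⟩

theorem off_of_not_sep (hx : x ∉ X) (hy : y ∉ X) (h : ¬ Sep S X x y) : Off S X x y := by
  by_contra h1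
  exact h (sep_of_not_off hx hy h1)

/-- if `y` is on the side of `z` and `X` separates `x` and `y`, then it separates `x` and `z` -/
theorem Sep.off_right (h : Sep S X x y) (h' : Off S X y z) : Sep S X x z :=
  ⟨h.1, h'.2.1, fun h1 => h.2.2 (h1.trans h'.2.2.symm)⟩

theorem Sep.off_left (h : Sep S X x y) (h' : Off S X x z) : Sep S X z y :=
  (h.symm.off_right h').symm

theorem sep_ne (h : Sep S X x y) : x ≠ y := by
  rintro rfl
  exact h.2.2 (SimpleGraph.Reachable.refl _)

theorem res_mono (h : X ⊆ Y) : res S X ≤ res S Y := fun _ _ h1 => ⟨h1.1, h h1.2.1, h h1.2.2⟩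

/-- `Off` for a larger set implies `Off` for the smaller one -/
theorem Off.anti (h : X ⊆ Y) (h' : Off S Y x y) : Off S X x y :=
  ⟨fun h1 => h'.1 (h h1), fun h1 => h'.2.1 (h h1),
    h'.2.2.mono (res_mono (Set.compl_subset_compl.2 h))⟩

end Ends

end IICErg
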