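import Pool.Agent.Lib.MP_4c698b_pr.E.CutA

/-!
# Module GoodK: more than two ends give a good finite set (about 150 lines)

PROOF. `F`, `x₀, x₁, x₂` from `ManyEnds`. The balls `S.ball n` exhaust the group (`GenSet.mem_ball`,
`cay_connected`) and increase (`GenSet.ball_mono`), so `F ⊆ B := S.ball R` for some `R`. `B` contains `1`
(`GenSet.one_mem_ball`) and every element of `B` is joined to `1` inside `B` (a walk of length `≤ R` from
`1`: all its vertices are in the ball; take the walk of `mem_ball` and look at initial segments, or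
induct on `R`). We write `u ≈ v` for `Off S B u v`.
(1) Every `x ∉ B` has `x ≈ z` for some `z ∉ B` in the finite set `∂B = {b * s | b ∈ B, s ∈ S}` (induction on
a walk of the Cayley graph from `x` to `1 ∈ B`: if the next vertex `v` is in `B` then
`x = v * (v⁻¹ * x) ∈ ∂B`, otherwise `x ≈ v`).
(2) Let `K = {x | x ∈ B ∨ {y | x ≈ y}.Finite}`. It is finite: it is contained in
`B ∪ ⋃ {y | z ≈ y}`, the union over the `z ∈ ∂B \ B` with finite `{y | z ≈ y}` (if `x ∈ K \ B` take `z` from (1);
`{y | z ≈ y} = {y | x ≈ y}` is finite and contains `x`). (`Set.Finite.toFinset`.)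
(3) `K` is connected: every `x ∈ K` is joined to `1` in `res S K`: clear if `x ∈ B` (`res_mono`). If `x ∉ B`, take
a walk from `x` to `1` in the Cayley graph and induct as in (1), for all `x ∈ K \ B` at once: the next
vertex `v` is in `B ⊆ K`, or `x ≈ v`, and then `v ∈ K` too; in both cases `x`, `v` are adjacent in `res S K`.
(4) `inf`: if `x ∉ K` then `{y | x ≈ y}` is infinite, and `x ≈ y` implies `Off S K x y`: all vertices of a
path from `x` to `y` outside `B` are `≈ x`, so they are not in `K` (for `y ∈ K \ B` the set `{y' | y ≈ y'}` is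
finite). (Induction on the walk in `res S Bᶜ`.)
(5) `three`: `{y | Off S F (x_i) y}` is infinite, so it contains `y_i ∉ K`. If `Off S K y_i y_j` (`i ≠ j`) then
`Off S F y_i y_j` (`Off.anti`, `F ⊆ B ⊆ K`), so `Off S F x_i x_j`: contradiction. Hence `Sep S K y_i y_j`
(`sep_of_not_off`).
-/

open scoped Pointwise

namespace IICErg

namespace Ends

variable {Γ : Type} [Group Γ]

private theorem gk_ball_reach (S : GenSet Γ) (n : ℕ) : ∀ x, x ∈ S.ball n →
    (res S (S.ball n : Set Γ)).Reachable 1 x := by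
  induction n with
  | zero =>
    intro x hx
    have h1 : dle S.cay 0 1 x := (S.mem_ball 0 1 x).1 (by simpa using hx)
    obtain ⟨w, hw⟩ := h1
    have h2 := SimpleGraph.Walk.eq_of_length_eq_zero (Nat.le_zero.1 hw)
    rw [← h2]
  | succ n ih =>
    intro x hx
    have h1 : dle S.cay (n + 1) x 1 := dle_symm ((S.mem_ball (n + 1) 1 x).1 (by simpa using hx))
    obtain ⟨w, hw⟩ := h1
    cases w with
    | nil => exact SimpleGraph.Reachable.refl _
    | cons h w' =>
      rename_i v
      rw [SimpleGraph.Walk.length_cons] at hw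
      have hv : v ∈ S.ball n := by
        have h2 : dle S.cay n 1 v := dle_symm ⟨w', by omega⟩
        have h3 := (S.mem_ball n 1 v).2 h2
        simpa using h3
      have h4 := (ih v hv).mono (res_mono (S := S)
        (Finset.coe_subset.2 (S.ball_mono (Nat.le_succ n))))
      refine h4.trans (SimpleGraph.Adj.reachable ⟨h.symm, ?_, ?_⟩)
      · exact Finset.mem_coe.2 (S.ball_mono (Nat.le_succ n) hv)
      · exact Finset.mem_coe.2 hx

private theorem gk_ball_exists (S : GenSet Γ) (F : Finset Γ) : ∃ n, F ⊆ S.ball n := by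
  classical
  induction F using Finset.induction_on with
  | empty => exact ⟨0, Finset.empty_subset _⟩
  | insert a F _ ih =>
    obtain ⟨n, hn⟩ := ih
    obtain ⟨w⟩ := (cay_connected S).preconnected 1 a
    have ha : a ∈ S.ball w.length := by
      have := (S.mem_ball w.length 1 a).mpr ⟨w, le_rfl⟩
      simpa using this
    refine ⟨max n w.length, ?_⟩
    rw [Finset.insert_subset_iff]
    exact ⟨S.ball_mono (le_max_right _ _) ha, hn.trans (S.ball_mono (le_max_left _ _))⟩

private theorem gk_edge {S : GenSet Γ} {B : Set Γ} {x v : Γ} (h : S.cay.Adj x v) (hx : x ∉ B)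
    (hv : v ∉ B) : Off S B x v :=
  ⟨hx, hv, SimpleGraph.Adj.reachable ⟨h, hx, hv⟩⟩

private theorem gk_bd (S : GenSet Γ) (B : Set Γ) {x y : Γ} (w : S.cay.Walk x y) :
    y ∈ B → x ∉ B → ∃ z, (∃ b ∈ B, b⁻¹ * z ∈ S.S) ∧ Off S B x z := by
  induction w with
  | nil => exact fun h h' => absurd h h'
  | cons h w' ih =>
    rename_i u v t
    intro ht hu
    by_cases hv : v ∈ B
    · exact ⟨u, ⟨v, hv, h.symm⟩, Off.refl hu⟩
    · obtain ⟨z, hz, hz'⟩ := ih ht hv
      exact ⟨z, hz, (gk_edge h hu hv).trans hz'⟩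

private theorem gk_eq {S : GenSet Γ} {B : Set Γ} {x v : Γ} (h : Off S B x v) :
    {y | Off S B v y} = {y | Off S B x y} := by
  ext y
  exact ⟨fun h' => h.trans h', fun h' => h.symm.trans h'⟩

private theorem gk_sub (S : GenSet Γ) (B : Set Γ) : B ⊆ {x | {y | Off S B x y}.Finite} := by
  intro x hx
  have h : {y | Off S B x y} = ∅ := by
    rw [Set.eq_empty_iff_forall_notMem]
    exact fun y hy => hy.1 hx
  show {y | Off S B x y}.Finite
  rw [h]
  exact Set.finite_empty

private theorem gk_fin (S : GenSet Γ) (B : Finset Γ) (h1 : (1 : Γ) ∈ B) :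
    {x | {y | Off S (B : Set Γ) x y}.Finite}.Finite := by
  classical
  set Z : Finset Γ := (B * S.S).filter fun z => {y | Off S (B : Set Γ) z y}.Finite with hZ
  refine (B.finite_toSet.union (Z.finite_toSet.biUnion
    (t := fun z => {y | Off S (B : Set Γ) z y}) fun z hz => ?_)).subset ?_
  · exact (Finset.mem_filter.1 (Finset.mem_coe.1 hz)).2
  · intro x hx
    by_cases hxB : x ∈ B
    · exact Or.inl hxB
    · right
      obtain ⟨w⟩ := (cay_connected S).preconnected x 1
      obtain ⟨z, ⟨b, hb, hbz⟩, hz⟩ := gk_bd S (B : Set Γ) w h1 hxB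
      refine Set.mem_biUnion (x := z) ?_ hz.symm
      refine Finset.mem_coe.2 (Finset.mem_filter.2 ⟨?_, ?_⟩)
      · exact Finset.mem_mul.2 ⟨b, hb, _, hbz, mul_inv_cancel_left b z⟩
      · rw [gk_eq hz]
        exact hx

private theorem gk_conn (S : GenSet Γ) (B K : Set Γ) (hK : K = {x | {y | Off S B x y}.Finite})
    (hB : ∀ x ∈ B, (res S B).Reachable x 1) {x y : Γ} (w : S.cay.Walk x y) :
    y ∈ B → x ∈ K → (res S K).Reachable x 1 := by
  have hBK : B ⊆ K := hK ▸ gk_sub S B
  induction w with
  | nil => exact fun h _ => (hB _ h).mono (res_mono hBK)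
  | cons h w' ih =>
    rename_i u v t
    intro ht hu
    by_cases huB : u ∈ B
    · exact (hB _ huB).mono (res_mono hBK)
    · have hv : v ∈ K := by
        by_cases hvB : v ∈ B
        · exact hBK hvB
        · have h1 := gk_edge h huB hvB
          rw [hK] at hu ⊢
          show {y | Off S B v y}.Finite
          rw [gk_eq h1]
          exact hu
      have h2 : (res S K).Adj u v := ⟨h, hu, hv⟩
      exact h2.reachable.trans (ih ht hv)

private theorem gk_inf (S : GenSet Γ) (B K : Set Γ) (hK : K = {x | {y | Off S B x y}.Finite})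
    {x y : Γ} (w : (res S Bᶜ).Walk x y) :
    x ∉ K → y ∉ K ∧ (res S Kᶜ).Reachable x y := by
  induction w with
  | nil => exact fun h => ⟨h, SimpleGraph.Reachable.refl _⟩
  | cons h w' ih =>
    rename_i u v t
    intro hu
    have h1 : Off S B u v := ⟨h.2.1, h.2.2, h.reachable⟩
    have hv : v ∉ K := by
      intro hv
      apply hu
      rw [hK] at hv ⊢
      show {y | Off S B u y}.Finite
      rw [← gk_eq h1]
      exact hv
    obtain ⟨h2, h3⟩ := ih hv
    have h4 : (res S Kᶜ).Adj u v := ⟨h.1, hu, hv⟩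
    exact ⟨h2, h4.reachable.trans h3⟩

theorem exists_good (S : GenSet Γ) (h : ManyEnds S) : ∃ K : Finset Γ, Good S K := by
  classical
  obtain ⟨F, x, hinf, hsep⟩ := h
  obtain ⟨R, hR⟩ := gk_ball_exists S F
  have hfin := gk_fin S (S.ball R) (S.one_mem_ball R)
  have hK : ((hfin.toFinset : Finset Γ) : Set Γ) =
      {x | {y | Off S (S.ball R : Set Γ) x y}.Finite} := hfin.coe_toFinset
  have hBK := gk_sub S (S.ball R : Set Γ)
  have hB : ∀ x ∈ (S.ball R : Set Γ), (res S (S.ball R : Set Γ)).Reachable x 1 :=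
    fun x hx => (gk_ball_reach S R x hx).symm
  rw [← hK] at hBK
  have h1 : ∀ x ∈ ((hfin.toFinset : Finset Γ) : Set Γ),
      (res S ((hfin.toFinset : Finset Γ) : Set Γ)).Reachable x 1 := by
    intro x hx
    obtain ⟨w⟩ := (cay_connected S).preconnected x 1
    exact gk_conn S _ _ hK hB w (S.one_mem_ball R) hx
  have h2 : ∀ i, ∃ y, Off S (F : Set Γ) (x i) y ∧ y ∉ hfin.toFinset := fun i => by
    obtain ⟨y, hy, hy'⟩ := (hinf i).exists_notMem_finset hfin.toFinset
    exact ⟨y, hy, hy'⟩
  choose y hy hyK using h2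
  have hFK : (F : Set Γ) ⊆ ((hfin.toFinset : Finset Γ) : Set Γ) :=
    (Finset.coe_subset.2 hR).trans hBK
  have h3 : ∀ i j, i ≠ j → Sep S ((hfin.toFinset : Finset Γ) : Set Γ) (y i) (y j) := by
    intro i j hij
    refine sep_of_not_off (hyK i) (hyK j) fun h => hsep i j hij ?_
    exact ((hy i).trans (Off.anti hFK h)).trans (hy j).symm
  refine ⟨hfin.toFinset, ⟨hBK (S.one_mem_ball R), ?_, ?_, ?_⟩⟩
  · intro a ha b hb
    exact (h1 a ha).trans (h1 b hb).symm
  · intro a ha
    have h4 : {y | Off S (S.ball R : Set Γ) a y}.Infinite := by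
      intro h5
      apply ha
      rw [← Finset.mem_coe, hK]
      exact h5
    refine h4.mono ?_
    rintro b ⟨hab, hb, ⟨w⟩⟩
    obtain ⟨h5, h6⟩ := gk_inf S _ _ hK w ha
    exact ⟨ha, h5, h6⟩
  · exact ⟨y 0, y 1, y 2, h3 0 1 (by decide), h3 1 2 (by decide), h3 0 2 (by decide)⟩

end Ends

end IICErg
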