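import Pool.Agent.Lib.MP_4c698b_pr.E.Har

/-!
# Module Lim: from `p < q` to `q` (about 110 lines)

PROOF. Let `τ_n p x y = perc Γ p {ω | dle (og S ω) n x y} ≤ tau S p x y`; `τ_n q x y ↑ tau S q x y` as `n → ∞`
(`measureReal`/`measure` of an increasing union, `dle_mono`, a walk has a length). If
`∑' f² = ⊤` the claim is clear (`1 ≤ C`); so let all `f y < ⊤`.
For finite sets `X`, `Y` and all `n`: `∑_{x ∈ X} (∑_{y ∈ Y} τ_n p x y * f y)² ≤ C * ∑' f²` for `p₁ ≤ p < q` (termwise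
`≤` the hypothesis). The left hand side is continuous in `p` (the event depends on finitely many edges,
`dle_dep`; `crit_continuous` / `perc_cont`; finite sums and products of finite numbers: work with
`ENNReal.toReal` or with `ENNReal.Tendsto` lemmas), and `q` is the limit of `p_k = q - (q - p₁)/(k+2)`,
`p₁ ≤ p_k < q`. So the inequality holds for `q` (`le_of_tendsto'`).
`n → ∞`: the left hand side converges to `∑_{x ∈ X} (∑_{y ∈ Y} tau S q x y * f y)²` (`ENNReal.Tendsto.const_mul` etc.,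
`tendsto_finset_sum`, `ENNReal.Tendsto.pow`). `Y → Γ`, `X → Γ`: `ENNReal.tsum_eq_iSup_sum` or
`ENNReal.summable.hasSum` (`Tendsto` along finsets).
-/

open MeasureTheory Filter Topology
open scoped ENNReal NNReal Pointwise

namespace IICErg

namespace Ends

variable {Γ : Type} [Group Γ]

/-- the finite volume two-point function -/
private noncomputable def Lim_t (S : GenSet Γ) (n : ℕ) (p : unitInterval) (x y : Γ) : ℝ≥0∞ :=
  perc Γ p {ω | dle (og S ω) n x y}

private theorem Lim_cont (S : GenSet Γ) (n : ℕ) (x y : Γ) :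
    Continuous fun p : unitInterval => Lim_t S n p x y := by
  obtain ⟨F, hF⟩ := dle_dep S n x y
  have h1 := crit_continuous F {ω : Cfg Γ | dle (og S ω) n x y} hF
  have h2 : (fun p : unitInterval => Lim_t S n p x y) =
      fun p : unitInterval => ENNReal.ofReal ((perc Γ p).real {ω | dle (og S ω) n x y}) := by
    funext p
    rw [Lim_t, measureReal_def, ENNReal.ofReal_toReal (measure_ne_top _ _)]
  rw [h2]
  exact ENNReal.continuous_ofReal.comp h1

private theorem Lim_le (S : GenSet Γ) (n : ℕ) (p : unitInterval) (x y : Γ) :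
    Lim_t S n p x y ≤ tau S p x y := by
  refine measure_mono fun ω hω => ?_
  exact ((dle_iff _ _ _ _).1 hω).1

private theorem Lim_tendsto (S : GenSet Γ) (q : unitInterval) (x y : Γ) :
    Tendsto (fun n => Lim_t S n q x y) atTop (𝓝 (tau S q x y)) := by
  have h : {ω : Cfg Γ | (og S ω).Reachable x y} = ⋃ n, {ω : Cfg Γ | dle (og S ω) n x y} := by
    ext ω
    rw [Set.mem_iUnion]
    exact BasicA_reach_iff _ _ _
  rw [tau, h]
  refine tendsto_measure_iUnion_atTop ?_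
  intro m n hmn ω hω
  exact dle_mono hmn hω

private theorem Lim_fin (S : GenSet Γ) (p₁ q : unitInterval) (hq : p₁ < q) (B : ℝ≥0∞)
    (f : Γ → ℝ≥0∞) (hf : ∀ y, f y ≠ ⊤)
    (h : ∀ p, p₁ ≤ p → p < q → ∑' x, (∑' y, tau S p x y * f y) ^ 2 ≤ B) (X Y : Finset Γ) (n : ℕ) :
    ∑ x ∈ X, (∑ y ∈ Y, Lim_t S n q x y * f y) ^ 2 ≤ B := by
  have hc : Continuous fun p : unitInterval =>
      ∑ x ∈ X, (∑ y ∈ Y, Lim_t S n p x y * f y) ^ 2 := by
    refine continuous_finsetSum _ fun x _ => ?_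
    refine (ENNReal.continuous_pow 2).comp ?_
    refine continuous_finsetSum _ fun y _ => ?_
    exact (ENNReal.continuous_mul_const (hf y)).comp (Lim_cont S n x y)
  have hcl : IsClosed {p : unitInterval |
      ∑ x ∈ X, (∑ y ∈ Y, Lim_t S n p x y * f y) ^ 2 ≤ B} := isClosed_le hc continuous_const
  have hsub : Set.Ico p₁ q ⊆ {p : unitInterval |
      ∑ x ∈ X, (∑ y ∈ Y, Lim_t S n p x y * f y) ^ 2 ≤ B} := by
    rintro p ⟨hp1, hp2⟩
    show ∑ x ∈ X, (∑ y ∈ Y, Lim_t S n p x y * f y) ^ 2 ≤ B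
    refine le_trans ?_ (h p hp1 hp2)
    refine le_trans ?_ (ENNReal.sum_le_tsum X)
    refine Finset.sum_le_sum fun x _ => ?_
    gcongr
    refine le_trans ?_ (ENNReal.sum_le_tsum Y)
    exact Finset.sum_le_sum fun y _ => mul_le_mul_left (Lim_le S n p x y) _
  have hmem : q ∈ closure (Set.Ico p₁ q) := by
    rw [closure_Ico hq.ne]
    exact ⟨hq.le, le_rfl⟩
  exact (closure_minimal hsub hcl) hmem

theorem l2_lim (S : GenSet Γ) (p₁ q : unitInterval) (hq : p₁ < q) (C : ℝ≥0∞) (hC : 1 ≤ C)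
    (h : ∀ p, p₁ ≤ p → p < q → ∀ f : Γ → ℝ≥0∞,
      ∑' x, (∑' y, tau S p x y * f y) ^ 2 ≤ C * ∑' y, f y ^ 2) (f : Γ → ℝ≥0∞) :
    ∑' x, (∑' y, tau S q x y * f y) ^ 2 ≤ C * ∑' y, f y ^ 2 := by
  by_cases htop : ∑' y, f y ^ 2 = ⊤
  · rw [htop, ENNReal.mul_top (by
      rintro rfl
      simp at hC)]
    exact le_top
  have hf : ∀ y, f y ≠ ⊤ := by
    intro y hy
    apply htop
    refine top_le_iff.1 ?_
    refine le_trans ?_ (ENNReal.le_tsum y)
    rw [hy]
    simp
  have h1 := Lim_fin S p₁ q hq (C * ∑' y, f y ^ 2) f hf fun p hp1 hp2 => h p hp1 hp2 f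
  have h2 : ∀ X Y : Finset Γ, ∑ x ∈ X, (∑ y ∈ Y, tau S q x y * f y) ^ 2 ≤
      C * ∑' y, f y ^ 2 := by
    intro X Y
    refine le_of_tendsto' (x := atTop) (f := fun n : ℕ => ∑ x ∈ X, (∑ y ∈ Y, Lim_t S n q x y * f y) ^ 2) ?_
      fun n => h1 X Y n
    refine tendsto_finsetSum _ fun x _ => ?_
    refine ENNReal.Tendsto.pow ?_
    refine tendsto_finsetSum _ fun y _ => ?_
    exact ENNReal.Tendsto.mul_const (Lim_tendsto S q x y) (Or.inr (hf y))
  have h3 : ∀ X : Finset Γ, ∑ x ∈ X, (∑' y, tau S q x y * f y) ^ 2 ≤ C * ∑' y, f y ^ 2 := by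
    intro X
    refine le_of_tendsto' (x := atTop) (f := fun Y : Finset Γ => ∑ x ∈ X, (∑ y ∈ Y, tau S q x y * f y) ^ 2) ?_
      fun Y => h2 X Y
    refine tendsto_finsetSum _ fun x _ => ?_
    refine ENNReal.Tendsto.pow ?_
    exact ENNReal.summable.hasSum
  rw [ENNReal.tsum_eq_iSup_sum]
  exact iSup_le h3

end Ends

end IICErg
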