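import Mathlib

/-!
# Module SchT: the Schur test (about 70 lines)

PROOF. `(∑' y, T x y * f y)² ≤ (∑' y, T x y * w y) * (∑' y, T x y * f y² / w y)`: Cauchy-Schwarz in `ℝ≥0∞`,
for instance `ENNReal.inner_le_Lp_mul_Lq_tsum`-type lemma with `p = q = 2`, or via
`ENNReal.lintegral_mul_le_Lp_mul_Lq` for the counting measure, applied to
`(T x y * w y)^(1/2)` and `(T x y * f y² / w y)^(1/2)`, whose product is `T x y * f y` (`w y ≠ 0, ⊤`); compare
`O1_cs` in `Pool/Agent/Lib/MP_4c698b_pr/O1.lean`. Another way: if the right hand side is finite use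
`2 a b ≤ λ a² + λ⁻¹ b²`. Then `≤ C * w x * ∑' y, T x y * f y² / w y`; sum over `x`, exchange the sums
(`ENNReal.tsum_comm`): `∑' y, f y² / w y * ∑' x, T x y * w x ≤ ∑' y, f y² / w y * (C * w y) = C * ∑' y, f y²`.
-/

open scoped ENNReal NNReal

namespace IICErg

namespace Ends

private theorem SchT_two (u v a b : ℝ≥0∞) (huv : u * v = 1) :
    2 * (a * b) ≤ u * a ^ 2 + v * b ^ 2 := by
  have hu0 : u ≠ 0 := by rintro h; rw [h, zero_mul] at huv; exact zero_ne_one huv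
  have hv0 : v ≠ 0 := by rintro h; rw [h, mul_zero] at huv; exact zero_ne_one huv
  by_cases hj : a = ⊤
  · rw [hj]
    have : u * (⊤ : ℝ≥0∞) ^ 2 = ⊤ := by
      rw [ENNReal.top_pow (by norm_num)]
      exact ENNReal.mul_top hu0
    rw [this, top_add]; exact le_top
  by_cases hk : b = ⊤
  · rw [hk]
    have : v * (⊤ : ℝ≥0∞) ^ 2 = ⊤ := by
      rw [ENNReal.top_pow (by norm_num)]
      exact ENNReal.mul_top hv0
    rw [this, add_top]; exact le_top
  have hut : u ≠ ⊤ := by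
    rintro h
    rw [h, ENNReal.top_mul hv0] at huv
    exact ENNReal.top_ne_one huv
  have hvt : v ≠ ⊤ := by
    rintro h
    rw [h, ENNReal.mul_top hu0] at huv
    exact ENNReal.top_ne_one huv
  lift a to ℝ≥0 using hj
  lift b to ℝ≥0 using hk
  lift u to ℝ≥0 using hut
  lift v to ℝ≥0 using hvt
  have huv' : u * v = 1 := by exact_mod_cast huv
  have huvR : (u : ℝ) * v = 1 := by exact_mod_cast huv'
  have main : 2 * (a * b) ≤ u * a ^ 2 + v * b ^ 2 := by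
    rw [← NNReal.coe_le_coe]
    push_cast
    have hu'pos : 0 ≤ (u : ℝ) := u.2
    have hs : 0 ≤ (u : ℝ) * ((a : ℝ) - v * b) ^ 2 := mul_nonneg hu'pos (sq_nonneg _)
    have e : (u : ℝ) * ((a : ℝ) - v * b) ^ 2 = u * a ^ 2 - 2 * (u * v) * (a * b) +
      (u * v) * (v * b ^ 2) := by ring
    rw [e, huvR] at hs
    linarith
  exact_mod_cast main

private theorem SchT_cs {ι : Type} (t f w : ι → ℝ≥0∞) (hw0 : ∀ x, w x ≠ 0)
    (hwt : ∀ x, w x ≠ ⊤) :
    (∑' y, t y * f y) ^ 2 ≤ (∑' y, t y * w y) * ∑' y, t y * (f y ^ 2 * (w y)⁻¹) := by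
  have key : ∀ y z : ι, 2 * ((t y * f y) * (t z * f z)) ≤
      (t z * w z) * (t y * (f y ^ 2 * (w y)⁻¹)) + (t y * w y) * (t z * (f z ^ 2 * (w z)⁻¹)) := by
    intro y z
    have h1 : (w z * (w y)⁻¹) * (w y * (w z)⁻¹) = 1 := by
      have h2 : (w z * (w y)⁻¹) * (w y * (w z)⁻¹) = (w z * (w z)⁻¹) * (w y * (w y)⁻¹) := by ring
      rw [h2, ENNReal.mul_inv_cancel (hw0 z) (hwt z), ENNReal.mul_inv_cancel (hw0 y) (hwt y),
        one_mul]
    have h2 := SchT_two _ _ (f y) (f z) h1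
    calc 2 * ((t y * f y) * (t z * f z)) = (t y * t z) * (2 * (f y * f z)) := by ring
      _ ≤ (t y * t z) * (w z * (w y)⁻¹ * f y ^ 2 + w y * (w z)⁻¹ * f z ^ 2) := by gcongr
      _ = _ := by ring
  have hsq : 2 * (∑' y, t y * f y) ^ 2 ≤
      2 * ((∑' y, t y * w y) * ∑' y, t y * (f y ^ 2 * (w y)⁻¹)) := by
    calc 2 * (∑' y, t y * f y) ^ 2 = ∑' y, ∑' z, 2 * ((t y * f y) * (t z * f z)) := by
          rw [sq, ← ENNReal.tsum_mul_right, ← ENNReal.tsum_mul_left]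
          refine tsum_congr fun j => ?_
          rw [← ENNReal.tsum_mul_left, ← ENNReal.tsum_mul_left]
      _ ≤ ∑' y, ∑' z, ((t z * w z) * (t y * (f y ^ 2 * (w y)⁻¹)) +
            (t y * w y) * (t z * (f z ^ 2 * (w z)⁻¹))) :=
          ENNReal.tsum_le_tsum fun y => ENNReal.tsum_le_tsum fun z => key y z
      _ = ∑' y, ((∑' z, t z * w z) * (t y * (f y ^ 2 * (w y)⁻¹)) +
            (t y * w y) * ∑' z, t z * (f z ^ 2 * (w z)⁻¹)) := by
          refine tsum_congr fun j => ?_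
          rw [ENNReal.tsum_add, ENNReal.tsum_mul_right, ENNReal.tsum_mul_left]
      _ = 2 * ((∑' y, t y * w y) * ∑' y, t y * (f y ^ 2 * (w y)⁻¹)) := by
          rw [ENNReal.tsum_add, ENNReal.tsum_mul_left, ENNReal.tsum_mul_right, two_mul]
  exact (ENNReal.mul_le_mul_iff_right two_ne_zero ENNReal.ofNat_ne_top).mp hsq

theorem schur_test {ι : Type} (T : ι → ι → ℝ≥0∞) (hT : ∀ x y, T x y = T y x) (w : ι → ℝ≥0∞)
    (hw0 : ∀ x, w x ≠ 0) (hwt : ∀ x, w x ≠ ⊤) (C : ℝ≥0∞)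
    (h : ∀ x, ∑' y, T x y * w y ≤ C * w x) (f : ι → ℝ≥0∞) :
    ∑' x, (∑' y, T x y * f y) ^ 2 ≤ C ^ 2 * ∑' y, f y ^ 2 := by
  calc ∑' x, (∑' y, T x y * f y) ^ 2
      ≤ ∑' x, (∑' y, T x y * w y) * ∑' y, T x y * (f y ^ 2 * (w y)⁻¹) :=
        ENNReal.tsum_le_tsum fun x => SchT_cs (T x) f w hw0 hwt
    _ ≤ ∑' x, (C * w x) * ∑' y, T x y * (f y ^ 2 * (w y)⁻¹) :=
        ENNReal.tsum_le_tsum fun x => mul_le_mul' (h x) le_rfl
    _ = ∑' y, ∑' x, C * ((f y ^ 2 * (w y)⁻¹) * (T y x * w x)) := by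
        rw [ENNReal.tsum_comm]
        refine tsum_congr fun x => ?_
        rw [← ENNReal.tsum_mul_left]
        refine tsum_congr fun y => ?_
        rw [hT y x]
        ring
    _ = ∑' y, C * ((f y ^ 2 * (w y)⁻¹) * ∑' x, T y x * w x) := by
        refine tsum_congr fun y => ?_
        rw [ENNReal.tsum_mul_left, ENNReal.tsum_mul_left]
    _ ≤ ∑' y, C * ((f y ^ 2 * (w y)⁻¹) * (C * w y)) := by
        refine ENNReal.tsum_le_tsum fun y => ?_
        gcongr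
        exact h y
    _ = ∑' y, C ^ 2 * f y ^ 2 := by
        refine tsum_congr fun y => ?_
        have h1 : (w y)⁻¹ * w y = 1 := ENNReal.inv_mul_cancel (hw0 y) (hwt y)
        calc C * ((f y ^ 2 * (w y)⁻¹) * (C * w y)) = C ^ 2 * f y ^ 2 * ((w y)⁻¹ * w y) := by ring
          _ = _ := by rw [h1, mul_one]
    _ = C ^ 2 * ∑' y, f y ^ 2 := ENNReal.tsum_mul_left

end Ends

end IICErg
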