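import Pool.Agent.Lib.MP_4c698b_pr.O7

/-!
# Module Shp1: below `p_c` there is a finite set with `φ_p(K) < 1` (about 150 lines)

PROOF of `perc_mono`. `f x = (perc Γ (projIcc 0 1 x)).real E` is continuous (`perc_cont`) and on `(0,1)` it has
the derivative `russo X F E ≥ 0` (`russo_deriv`; each term is `≥ 0` because `E` is increasing:
`{upd ω e false ∈ E} ⊆ {upd ω e true ∈ E}`, `measureReal_mono`). So `f` is monotone on `Set.Icc 0 1`
(`monotoneOn_of_deriv_nonneg`), and `f (p : ℝ) = (perc Γ p).real E` (`Set.projIcc_val`).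
PROOF of `phi_mono`. `{ω | (ogK S K ω).Reachable 1 x}` depends on `O3_pairs K` (`O3_ogK_dep`) and is increasing; so
`tK S p K x ≤ tK S q K x` (`perc_mono`); `phi` is `p` times a sum with nonnegative coefficients.
PROOF of `exists_phi`. Suppose `1 ≤ phi S p K` for all `K ∋ 1`. There is `q` with `p < q` and
`perc Γ q {ω | ¬ (cl S ω 1).Finite} = 0` (`lt_sSup_iff`, as at the start of `pc_le` in `O7.lean`). For
`x ∈ (p, q)`: `1 ≤ phi S X K` by `phi_mono`, so `dct` with `c = 1` gives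
`1 / (x (1-x)) * (1 - θ_n(x)) ≤ θ_n'(x)`, in particular `1 - θ_n(x) ≤ θ_n'(x)`
(`x (1-x) ≤ 1`). The rest is word for word the proof of `pc_le` with `h = 1` and `p1 = p`:
`1 - θ_n(q) ≤ exp(-(q - p))` for all `n ≥ 1`, but `θ_n(q) → 0`: a contradiction.
-/

open MeasureTheory Filter Topology
open scoped ENNReal NNReal Pointwise

namespace IICErg

namespace Ends

variable {Γ : Type} [Group Γ]

omit [Group Γ] in
private theorem shp1_russo_nonneg (F : Finset (Sym2 Γ)) (E : Set (Cfg Γ))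
    (hEi : ∀ ω ω' : Cfg Γ, (∀ e, ω e = true → ω' e = true) → ω ∈ E → ω' ∈ E)
    (p : unitInterval) : 0 ≤ russo p F E := by
  classical
  refine Finset.sum_nonneg fun e _ => ?_
  rw [sub_nonneg]
  refine measureReal_mono ?_
  intro ω hω
  have hω' : upd ω e false ∈ E := hω
  show upd ω e true ∈ E
  refine hEi _ _ (fun e' he' => ?_) hω'
  unfold upd at he' ⊢
  by_cases h : e' = e
  · subst h; simp
  · simp only [Function.update_of_ne h] at he' ⊢
    exact he'

private theorem shp1_mono (F : Finset (Sym2 Γ)) (E : Set (Cfg Γ))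
    (hE : ∀ ω ω' : Cfg Γ, (∀ e ∈ F, ω e = ω' e) → (ω ∈ E ↔ ω' ∈ E))
    (hEi : ∀ ω ω' : Cfg Γ, (∀ e, ω e = true → ω' e = true) → ω ∈ E → ω' ∈ E)
    {p q : unitInterval} (hpq : p ≤ q) : (perc Γ p).real E ≤ (perc Γ q).real E := by
  have hder : ∀ x ∈ Set.Ioo (0 : ℝ) 1, ∃ d, 0 ≤ d ∧
      HasDerivAt (fun x : ℝ => (perc Γ (Set.projIcc (0 : ℝ) 1 zero_le_one x)).real E) d x := by
    intro x hx
    let X : unitInterval := ⟨x, hx.1.le, hx.2.le⟩
    exact ⟨russo X F E, shp1_russo_nonneg F E hEi X, russo_deriv F E hE X hx.1 hx.2⟩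
  have hmono : MonotoneOn
      (fun x : ℝ => (perc Γ (Set.projIcc (0 : ℝ) 1 zero_le_one x)).real E)
      (Set.Icc (0 : ℝ) 1) := by
    refine monotoneOn_of_deriv_nonneg (convex_Icc _ _) (perc_cont F E hE).continuousOn ?_ ?_
    · rw [interior_Icc]
      intro x hx
      obtain ⟨d, _, hd⟩ := hder x hx
      exact hd.differentiableAt.differentiableWithinAt
    · rw [interior_Icc]
      intro x hx
      obtain ⟨d, hd0, hd⟩ := hder x hx
      rw [hd.deriv]
      exact hd0
  have h1 := hmono p.2 q.2 hpq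
  simpa only [Set.projIcc_val] using h1

omit [Group Γ] in
theorem perc_mono (F : Finset (Sym2 Γ)) (E : Set (Cfg Γ))
    (hE : ∀ ω ω' : Cfg Γ, (∀ e ∈ F, ω e = ω' e) → (ω ∈ E ↔ ω' ∈ E))
    (hEi : ∀ ω ω' : Cfg Γ, (∀ e, ω e = true → ω' e = true) → ω ∈ E → ω' ∈ E)
    {p q : unitInterval} (hpq : p ≤ q) : (perc Γ p).real E ≤ (perc Γ q).real E := by
  rcases isEmpty_or_nonempty Γ with hΓ | hΓ
  · rcases E.eq_empty_or_nonempty with h | ⟨ω, hω⟩
    · simp [h]
    · have h : E = Set.univ := by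
        ext ω'
        refine ⟨fun _ => trivial, fun _ => ?_⟩
        refine (hE ω ω' fun e _ => ?_).1 hω
        exact e.ind fun a _ => (hΓ.false a).elim
      simp [h]
  · obtain ⟨hR⟩ := (inferInstance : Nonempty (CommRing Γ))
    letI : Group Γ := inferInstanceAs (Group (Multiplicative Γ))
    exact shp1_mono F E hE hEi hpq

theorem phi_mono (S : GenSet Γ) {p q : unitInterval} (hpq : p ≤ q) (K : Finset Γ) :
    phi S p K ≤ phi S q K := by
  classical
  have htK : ∀ x, tK S p K x ≤ tK S q K x := by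
    intro x
    refine perc_mono (O3_pairs K) _ (O3_ogK_dep S K (fun G => G.Reachable 1 x)) ?_ hpq
    intro ω ω' h hω
    have hω' : (ogK S K ω).Reachable 1 x := hω
    show (ogK S K ω').Reachable 1 x
    have hle : ogK S K ω ≤ ogK S K ω' := by
      intro a b hab
      obtain ⟨⟨h1, h2⟩, h3⟩ := hab
      exact ⟨⟨h1, h _ h2⟩, h3⟩
    exact hω'.mono hle
  unfold phi
  refine mul_le_mul hpq ?_ ?_ q.2.1
  · exact Finset.sum_le_sum fun x _ => mul_le_mul_of_nonneg_left (htK x) (Nat.cast_nonneg _)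
  · exact Finset.sum_nonneg fun x _ => mul_nonneg (Nat.cast_nonneg _) measureReal_nonneg

theorem exists_phi (S : GenSet Γ) (p : unitInterval) (hp0 : 0 < p) (hp : p < pc S) :
    ∃ K : Finset Γ, (1 : Γ) ∈ K ∧ phi S p K < 1 := by
  by_contra hcon
  push Not at hcon
  have hp1pos : (0 : ℝ) < (p : ℝ) := hp0
  obtain ⟨q, hq, hPq⟩ : ∃ q ∈ {p : unitInterval | perc Γ p {ω | ¬ (cl S ω 1).Finite} = 0},
      p < q := lt_sSup_iff.1 hp
  have hPq' : (p : ℝ) < (q : ℝ) := hPq
  let θ : ℕ → ℝ → ℝ := fun n x =>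
    (perc Γ (Set.projIcc (0 : ℝ) 1 zero_le_one x)).real {ω | far S n ω 1}
  have hdep : ∀ n, ∀ ω ω' : Cfg Γ, (∀ e ∈ edB S n, ω e = ω' e) →
      (ω ∈ {ω | far S n ω 1} ↔ ω' ∈ {ω | far S n ω 1}) := fun n ω ω' h => far_edB S n ω ω' h
  have hcont : ∀ n, Continuous (θ n) := fun n => perc_cont (edB S n) _ (hdep n)
  -- the derivative
  have hder : ∀ n, 1 ≤ n → ∀ x ∈ Set.Ioo (p : ℝ) (q : ℝ), ∃ d, HasDerivAt (θ n) d x ∧
      (1 - θ n x) ≤ d := by
    intro n hn x hx
    have hx0 : 0 < x := hp1pos.trans hx.1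
    have hx1 : x < 1 := hx.2.trans_le q.2.2
    let X : unitInterval := ⟨x, hx0.le, hx1.le⟩
    have hproj : Set.projIcc (0 : ℝ) 1 zero_le_one x = X :=
      Set.projIcc_of_mem zero_le_one ⟨hx0.le, hx1.le⟩
    refine ⟨russo X (edB S n) {ω | far S n ω 1}, russo_deriv (edB S n) _ (hdep n) X hx0 hx1, ?_⟩
    have h1 : ∀ K : Finset Γ, (1 : Γ) ∈ K → 1 ≤ phi S X K := by
      intro K hK
      exact (hcon K hK).trans (phi_mono S (show p ≤ X from hx.1.le) K)
    have h2 := dct S X hx0 hx1 n hn 1 h1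
    have h3 : θ n x = (theta S X n).toReal := by
      show (perc Γ (Set.projIcc (0 : ℝ) 1 zero_le_one x)).real {ω | far S n ω 1} = _
      rw [hproj]
      rfl
    have h4 : θ n x ≤ 1 := measureReal_le_one
    rw [h3] at h4 ⊢
    refine le_trans ?_ h2
    have h6 : (1 : ℝ) ≤ 1 / (x * (1 - x)) := by
      rw [le_div_iff₀ (mul_pos hx0 (by linarith))]
      nlinarith
    calc (1 : ℝ) - (theta S X n).toReal = 1 * (1 - (theta S X n).toReal) := by rw [one_mul]
      _ ≤ 1 / (x * (1 - x)) * (1 - (theta S X n).toReal) :=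
        mul_le_mul_of_nonneg_right h6 (by linarith)
  -- the differential inequality
  have hanti : ∀ n, 1 ≤ n → 1 - θ n q ≤ Real.exp (-((q : ℝ) - p)) := by
    intro n hn
    have h1 : AntitoneOn (fun x => (1 - θ n x) * Real.exp (x - (p : ℝ)))
        (Set.Icc (p : ℝ) (q : ℝ)) := by
      refine antitoneOn_of_deriv_nonpos (convex_Icc _ _) ?_ ?_ ?_
      · exact ((continuous_const.sub (hcont n)).mul
          (Real.continuous_exp.comp (by fun_prop))).continuousOn
      · rw [interior_Icc]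
        intro x hx
        obtain ⟨d, hd, _⟩ := hder n hn x hx
        have h2 : HasDerivAt (fun x : ℝ => Real.exp (x - (p : ℝ)))
            (Real.exp (x - (p : ℝ)) * 1) x := ((hasDerivAt_id x).sub_const (p : ℝ)).exp
        exact (((hasDerivAt_const x (1 : ℝ)).sub hd).mul h2).differentiableAt.differentiableWithinAt
      · rw [interior_Icc]
        intro x hx
        obtain ⟨d, hd, hd'⟩ := hder n hn x hx
        have h2 : HasDerivAt (fun x : ℝ => Real.exp (x - (p : ℝ)))
            (Real.exp (x - (p : ℝ)) * 1) x := ((hasDerivAt_id x).sub_const (p : ℝ)).exp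
        have h3 : HasDerivAt (fun x => (1 - θ n x) * Real.exp (x - (p : ℝ)))
            ((0 - d) * Real.exp (x - (p : ℝ)) +
              (1 - θ n x) * (Real.exp (x - (p : ℝ)) * 1)) x :=
          ((hasDerivAt_const x (1 : ℝ)).sub hd).mul h2
        rw [h3.deriv]
        have h4 := Real.exp_pos (x - (p : ℝ))
        have h5 : ((1 - θ n x) - d) * Real.exp (x - (p : ℝ)) ≤ 0 :=
          mul_nonpos_of_nonpos_of_nonneg (by linarith) h4.le
        linarith
    have h2 := h1 (Set.left_mem_Icc.2 hPq'.le) (Set.right_mem_Icc.2 hPq'.le) hPq'.le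
    simp only [sub_self, Real.exp_zero, mul_one] at h2
    have h3 : 0 ≤ θ n p := measureReal_nonneg
    have h4 : (1 - θ n q) * Real.exp ((q : ℝ) - p) ≤ 1 := by linarith
    rw [Real.exp_neg]
    rw [← one_div, le_div_iff₀ (Real.exp_pos _)]
    exact h4
  -- the limit
  have hlim : Tendsto (fun n => θ n q) atTop (𝓝 0) := by
    have h1 := theta_lim S q
    rw [Set.mem_ofPred_eq] at hq
    rw [hq] at h1
    have h2 := (ENNReal.tendsto_toReal (ENNReal.zero_ne_top)).comp h1
    rw [ENNReal.toReal_zero] at h2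
    refine h2.congr fun n => ?_
    show (theta S q n).toReal = (perc Γ (Set.projIcc (0 : ℝ) 1 zero_le_one (q : ℝ))).real _
    rw [Set.projIcc_val]
    rfl
  have hlim2 : Tendsto (fun n => 1 - θ n q) atTop (𝓝 (1 - 0)) := tendsto_const_nhds.sub hlim
  have h1 : (1 : ℝ) - 0 ≤ Real.exp (-((q : ℝ) - p)) :=
    le_of_tendsto hlim2 (eventually_atTop.2 ⟨1, fun n hn => hanti n hn⟩)
  have h2 : Real.exp (-((q : ℝ) - p)) < 1 := by
    rw [Real.exp_lt_one_iff]
    linarith
  linarith

end Ends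

end IICErg
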