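import Pool.Agent.Lib.MP_4c698b_pr.O6
import Pool.Agent.Lib.MP_4c698b_pr.BK
import Pool.Agent.Lib.MP_4c698b_pr.O1
import Pool.Agent.Lib.MP_4c698b_pr.L2h

/-!
# Module Shp2: the Simon-Lieb inequality; finite susceptibility (about 170 lines)

PROOF of `simon`. Let `y ∉ K`. Let `A_{x,s}` (`x ∈ K`, `s ∈ S.S`, `x * s ∉ K`) be the set of the finite edge sets
`a` such that for every `ω` with `ω e = true` for all `e ∈ a`: `(ogK S K ω).Reachable 1 x` and
`ω s(x, x * s) = true`; `B_{x,s}` the finite edge sets which force `(og S ω).Reachable (x * s) y`.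
(1) `{ω | (og S ω).Reachable 1 y} ⊆ ⋃_{x,s}` of the disjoint occurrences of `A_{x,s}` and `B_{x,s}`: take an open
path `q` (`Walk.bypass`) from `1` to `y`; let the edge `(x, v)` be its first edge with `v ∉ K` (`1 ∈ K`, `y ∉ K`;
induction on the walk, for paths: either the second vertex is outside `K`, or apply the statement to the
tail and add the first edge to `a`; carry along that `a ∪ b` is contained in the edges of the walk, `a`, `b`
disjoint; the edges of a path are pairwise distinct). `s = x⁻¹ * v ∈ S.S`.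
(2) By `bk`: `P(disjoint occurrence) ≤ P(occurrence of A) * P(occurrence of B)
≤ P((ogK S K ω).Reachable 1 x, ω s(x, x s) = true) * tau S p (x * s) y`.
(3) The edge `s(x, x * s)` is not in `K`, so `{(ogK S K ω).Reachable 1 x}` is independent of it (`O6_indep` with
`F = {s(x, x s)}`; `ogK` does not change under `upd` at this edge): the first factor is
`p * tK S p K x` (`P(ω e = true) = p` as in `O1_edge`, or `O3_split`).
(4) Sum over `x`, `s`: `Finset.sum` over `(K ×ˢ S.S).filter (fun t => t.1 * t.2 ∉ K)`.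
PROOF of `chi_of_phi`. For a finite set `Λ` let `X = sup_z ∑_{y ∈ Λ} tau S p z y ≤ |Λ| < ∞`. For every `z`, by
translation (`L2h_reach_mul` with `g = z`: `tau S p z y = tau S p 1 (z⁻¹ * y)`) and `simon`, splitting
`Λ` into the `y` with `z⁻¹ * y ∈ K` (at most `|K|` of them, each term `≤ 1`) and the others:
`∑_{y ∈ Λ} tau S p z y ≤ |K| + ∑_{x,s} p tK(x) ∑_{y ∈ Λ} tau S p (z x s) y ≤ |K| + φ X`, where
`φ = ENNReal.ofReal (phi S p K) < 1` (`O6_phi`). So `X ≤ |K| + φ X`, `X ≤ |K| / (1 - φ)`, independent of `Λ`;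
`∑' y, tau S p 1 y = ⨆_Λ ∑_{y ∈ Λ} …` (`ENNReal.tsum_eq_iSup_sum`) is finite.
-/

open MeasureTheory Filter Topology
open scoped ENNReal NNReal Pointwise

namespace IICErg

namespace Ends

variable {Γ : Type} [Group Γ]

/-- an open walk is an open walk in every configuration in which its edges are open -/
private theorem reach_of_edges (S : GenSet Γ) {ω : Cfg Γ} {u y : Γ} (w : (og S ω).Walk u y)
    (ω' : Cfg Γ) (h : ∀ e ∈ w.edges, ω' e = true) : (og S ω').Reachable u y := by
  induction w with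
  | nil => exact SimpleGraph.Reachable.refl _
  | @cons a b z hadj w ih =>
    have h1 : (og S ω').Adj a b :=
      ⟨hadj.1, h _ (by rw [SimpleGraph.Walk.edges_cons]; exact List.mem_cons_self)⟩
    exact h1.reachable.trans
      (ih fun e he => h e (by rw [SimpleGraph.Walk.edges_cons]; exact List.mem_cons_of_mem _ he))

open Classical in
/-- the first exit from `K` -/
private theorem first_exit (S : GenSet Γ) (K : Finset Γ) {ω : Cfg Γ} {u y : Γ}
    (w : (og S ω).Walk u y) (hw : w.edges.Nodup) (hu : u ∈ K) (hy : y ∉ K) :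
    ∃ x ∈ K, ∃ v, v ∉ K ∧ S.cay.Adj x v ∧ ∃ a b : Finset (Sym2 Γ),
      a ⊆ w.edges.toFinset ∧ b ⊆ w.edges.toFinset ∧ Disjoint a b ∧
      (∀ ω' : Cfg Γ, (∀ e ∈ a, ω' e = true) →
        (ogK S K ω').Reachable u x ∧ ω' s(x, v) = true) ∧
      (∀ ω' : Cfg Γ, (∀ e ∈ b, ω' e = true) → (og S ω').Reachable v y) := by
  induction w with
  | nil => exact absurd hu hy
  | @cons u v' y hadj w ih =>
    rw [SimpleGraph.Walk.edges_cons, List.nodup_cons] at hw
    by_cases hv : v' ∈ K
    · obtain ⟨x, hx, v, hvK, hxv, a, b, ha, hb, hab, hfa, hfb⟩ := ih hw.2 hv hy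
      refine ⟨x, hx, v, hvK, hxv, insert s(u, v') a, b, ?_, ?_, ?_, ?_, hfb⟩
      · rw [SimpleGraph.Walk.edges_cons, List.toFinset_cons]
        exact Finset.insert_subset_insert _ ha
      · rw [SimpleGraph.Walk.edges_cons, List.toFinset_cons]
        exact hb.trans (Finset.subset_insert _ _)
      · rw [Finset.disjoint_insert_left]
        exact ⟨fun h => hw.1 (List.mem_toFinset.mp (hb h)), hab⟩
      · intro ω' h'
        obtain ⟨h1, h2⟩ := hfa ω' fun e he => h' e (Finset.mem_insert_of_mem he)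
        have h3 : (ogK S K ω').Adj u v' :=
          ⟨⟨hadj.1, h' _ (Finset.mem_insert_self _ _)⟩, hu, hv⟩
        exact ⟨h3.reachable.trans h1, h2⟩
    · refine ⟨u, hu, v', hv, hadj.1, {s(u, v')}, w.edges.toFinset, ?_, ?_, ?_, ?_, ?_⟩
      · rw [SimpleGraph.Walk.edges_cons, List.toFinset_cons, Finset.singleton_subset_iff]
        exact Finset.mem_insert_self _ _
      · rw [SimpleGraph.Walk.edges_cons, List.toFinset_cons]
        exact Finset.subset_insert _ _
      · rw [Finset.disjoint_singleton_left, List.mem_toFinset]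
        exact hw.1
      · intro ω' h'
        exact ⟨SimpleGraph.Reachable.refl _, h' _ (Finset.mem_singleton_self _)⟩
      · intro ω' h'
        exact reach_of_edges S w ω' fun e he => h' e (List.mem_toFinset.mpr he)

/-- the edge sets that force a connection from `1` to `x` inside `K` and the edge to `x * s` -/
private def famA (S : GenSet Γ) (K : Finset Γ) (x s : Γ) : Set (Finset (Sym2 Γ)) :=
  {a | ∀ ω : Cfg Γ, (∀ e ∈ a, ω e = true) →
    (ogK S K ω).Reachable 1 x ∧ ω s(x, x * s) = true}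

/-- the edge sets that force a connection from `z` to `y` -/
private def famB (S : GenSet Γ) (z y : Γ) : Set (Finset (Sym2 Γ)) :=
  {b | ∀ ω : Cfg Γ, (∀ e ∈ b, ω e = true) → (og S ω).Reachable z y}

private theorem famA_prob (S : GenSet Γ) (p : unitInterval) (K : Finset Γ) {x s : Γ}
    (hxs : x * s ∉ K) :
    perc Γ p (occ (famA S K x s)) ≤ ENNReal.ofReal (p * tK S p K x) := by
  classical
  set A : Set (Cfg Γ) := {ω | ω s(x, x * s) = true} with hA
  set B : Set (Cfg Γ) := {ω | (ogK S K ω).Reachable 1 x} with hB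
  have hsub : occ (famA S K x s) ⊆ A ∩ B := by
    rintro ω ⟨a, ha, h⟩
    exact ⟨(ha ω h).2, (ha ω h).1⟩
  have hBm : MeasurableSet B := O3_meas (O3_pairs K) _ (O3_ogK_dep S K (fun G => G.Reachable 1 x))
  have hind : (perc Γ p).real (A ∩ B) = (perc Γ p).real A * (perc Γ p).real B := by
    refine O6_indep p {s(x, x * s)} B hBm A ?_ ?_
    · intro ω ω' h
      have := h _ (Finset.mem_singleton_self _)
      show ω s(x, x * s) = true ↔ ω' s(x, x * s) = true
      rw [this]
    · intro e he ω b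
      rw [Finset.mem_singleton] at he
      subst he
      have h1 : ogK S K (upd ω s(x, x * s) b) = ogK S K ω := by
        refine O3_ogK S K fun u hu v hv => O3_upd_ne _ _ ?_
        intro huv
        rw [Sym2.eq_iff] at huv
        rcases huv with ⟨-, h2⟩ | ⟨h2, -⟩
        · exact hxs (h2 ▸ hv)
        · exact hxs (h2 ▸ hu)
      show (ogK S K (upd ω s(x, x * s) b)).Reachable 1 x ↔ (ogK S K ω).Reachable 1 x
      rw [h1]
  have hAp : (perc Γ p).real A ≤ p := by
    refine ENNReal.toReal_le_of_le_ofReal p.2.1 ?_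
    refine le_trans (measure_mono ?_) (O1_edge p s(x, x * s))
    intro ω hω
    refine ⟨{s(x, x * s)}, rfl, fun e he => ?_⟩
    rw [Finset.mem_singleton] at he
    rw [he]
    exact hω
  refine (measure_mono hsub).trans ?_
  rw [← ofReal_measureReal (measure_ne_top _ _), hind]
  exact ENNReal.ofReal_le_ofReal (mul_le_mul_of_nonneg_right hAp measureReal_nonneg)

open Classical in
theorem simon (S : GenSet Γ) (p : unitInterval) (K : Finset Γ) (h1 : (1 : Γ) ∈ K) (y : Γ)
    (hy : y ∉ K) :
    tau S p 1 y ≤ ∑ t ∈ (K ×ˢ S.S).filter (fun t => t.1 * t.2 ∉ K),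
      ENNReal.ofReal (p * tK S p K t.1) * tau S p (t.1 * t.2) y := by
  have hsub : {ω : Cfg Γ | (og S ω).Reachable 1 y} ⊆
      ⋃ t ∈ (K ×ˢ S.S).filter (fun t => t.1 * t.2 ∉ K),
        occ (dj (famA S K t.1 t.2) (famB S (t.1 * t.2) y)) := by
    intro ω hω
    obtain ⟨w⟩ := (hω : (og S ω).Reachable 1 y)
    obtain ⟨x, hx, v, hvK, hxv, a, b, ha, hb, hab, hfa, hfb⟩ :=
      first_exit S K w.bypass w.bypass_isPath.isTrail.edges_nodup h1 hy
    have hopen : ∀ e ∈ w.bypass.edges.toFinset, ω e = true := by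
      intro e he
      rw [List.mem_toFinset] at he
      induction e using Sym2.ind with
      | _ a b => exact (w.bypass.adj_of_mem_edges he).2
    have h2 : x * (x⁻¹ * v) = v := mul_inv_cancel_left x v
    rw [Set.mem_iUnion₂]
    refine ⟨(x, x⁻¹ * v), ?_, a ∪ b, ⟨a, ?_, b, ?_, hab, rfl⟩, ?_⟩
    · rw [Finset.mem_filter, Finset.mem_product]
      refine ⟨⟨hx, hxv⟩, ?_⟩
      show x * (x⁻¹ * v) ∉ K
      rwa [h2]
    · intro ω' h'
      show (ogK S K ω').Reachable 1 x ∧ ω' s(x, x * (x⁻¹ * v)) = true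
      rw [h2]
      exact hfa ω' h'
    · intro ω' h'
      show (og S ω').Reachable (x * (x⁻¹ * v)) y
      rw [h2]
      exact hfb ω' h'
    · intro e he
      rcases Finset.mem_union.mp he with he | he
      · exact hopen e (ha he)
      · exact hopen e (hb he)
  unfold tau
  refine (measure_mono hsub).trans ((measure_biUnion_finset_le _ _).trans ?_)
  refine Finset.sum_le_sum fun t ht => ?_
  rw [Finset.mem_filter] at ht
  refine (bk_occ S p _ _).trans (mul_le_mul' (famA_prob S p K ht.2) (measure_mono ?_))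
  rintro ω ⟨b, hb, h⟩
  exact hb ω h

theorem chi_of_phi (S : GenSet Γ) (p : unitInterval) (K : Finset Γ) (h1 : (1 : Γ) ∈ K)
    (h : phi S p K < 1) : ∑' y, tau S p 1 y ≠ ⊤ := by
  classical
  have hsum : ∑ t ∈ (K ×ˢ S.S).filter (fun t => t.1 * t.2 ∉ K),
      ENNReal.ofReal (p * tK S p K t.1) = ENNReal.ofReal (phi S p K) := by
    rw [O6_phi, Finset.mul_sum, ENNReal.ofReal_sum_of_nonneg]
    intro t _
    exact mul_nonneg p.2.1 measureReal_nonneg
  set φ : ℝ≥0∞ := ENNReal.ofReal (phi S p K) with hφ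
  have hφ1 : φ < 1 := by
    rw [hφ, ← ENNReal.ofReal_one]
    exact (ENNReal.ofReal_lt_ofReal_iff one_pos).mpr h
  have htau1 : ∀ a b : Γ, tau S p a b ≤ 1 := fun a b => prob_le_one
  have bound : ∀ Λ : Finset Γ, ∑ y ∈ Λ, tau S p 1 y ≤ (K.card : ℝ≥0∞) / (1 - φ) := by
    intro Λ
    set X : ℝ≥0∞ := ⨆ z, ∑ y ∈ Λ, tau S p z y with hX
    have hXtop : X ≠ ⊤ := by
      have : X ≤ (Λ.card : ℝ≥0∞) := by
        refine iSup_le fun z => ?_
        refine (Finset.sum_le_sum fun y _ => htau1 z y).trans ?_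
        rw [Finset.sum_const, nsmul_eq_mul, mul_one]
      exact ne_top_of_le_ne_top (ENNReal.natCast_ne_top _) this
    have hrec : X ≤ (K.card : ℝ≥0∞) + X * φ := by
      refine iSup_le fun z => ?_
      rw [← Finset.sum_filter_add_sum_filter_not Λ (fun y => z⁻¹ * y ∈ K)]
      refine add_le_add ?_ ?_
      · refine (Finset.sum_le_sum fun y _ => htau1 z y).trans ?_
        rw [Finset.sum_const, nsmul_eq_mul, mul_one]
        have hle : (Λ.filter (fun y => z⁻¹ * y ∈ K)).card ≤ K.card := by
          refine Finset.card_le_card_of_injOn (fun y => z⁻¹ * y) ?_ ?_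
          · intro y hy
            exact (Finset.mem_filter.mp hy).2
          · intro a _ b _ hab
            exact mul_left_cancel hab
        exact_mod_cast hle
      · have h2 : ∀ y ∈ Λ.filter (fun y => ¬ z⁻¹ * y ∈ K), tau S p z y ≤
            ∑ t ∈ (K ×ˢ S.S).filter (fun t => t.1 * t.2 ∉ K),
              ENNReal.ofReal (p * tK S p K t.1) * tau S p (z * (t.1 * t.2)) y := by
          intro y hy
          have h3 : tau S p z y = tau S p 1 (z⁻¹ * y) := by
            rw [← L2h_reach_mul S p z 1 (z⁻¹ * y), mul_one, mul_inv_cancel_left]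
          rw [h3]
          refine (simon S p K h1 _ (Finset.mem_filter.mp hy).2).trans (le_of_eq ?_)
          refine Finset.sum_congr rfl fun t _ => ?_
          rw [← L2h_reach_mul S p z (t.1 * t.2) (z⁻¹ * y), mul_inv_cancel_left]
        refine (Finset.sum_le_sum h2).trans ?_
        rw [Finset.sum_comm, mul_comm X φ, ← hsum, Finset.sum_mul]
        refine Finset.sum_le_sum fun t _ => ?_
        rw [← Finset.mul_sum]
        refine mul_le_mul' le_rfl ?_
        refine le_trans (Finset.sum_le_sum_of_subset (Finset.filter_subset _ _)) ?_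
        exact le_iSup (fun z => ∑ y ∈ Λ, tau S p z y) (z * (t.1 * t.2))
    have h4 : X * (1 - φ) ≤ (K.card : ℝ≥0∞) := by
      rw [ENNReal.mul_sub (fun _ _ => hXtop), mul_one]
      exact tsub_le_iff_right.mpr hrec
    have h5 : (1 - φ) ≠ 0 := (tsub_pos_of_lt hφ1).ne'
    have h6 : X ≤ (K.card : ℝ≥0∞) / (1 - φ) := by
      rw [ENNReal.le_div_iff_mul_le (Or.inl h5) (Or.inl (by
        exact ne_top_of_le_ne_top ENNReal.one_ne_top tsub_le_self))]
      exact h4
    exact (le_iSup (fun z => ∑ y ∈ Λ, tau S p z y) 1).trans h6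
  rw [ENNReal.tsum_eq_iSup_sum]
  refine ne_top_of_le_ne_top ?_ (iSup_le bound)
  exact ENNReal.div_ne_top (ENNReal.natCast_ne_top _) (tsub_pos_of_lt hφ1).ne'

end Ends

end IICErg
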