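import Pool.Agent.Lib.MP_4c698b_pr.E.CntB

/-!
# Module SchC: the combinatorial part of the Schur test (about 160 lines)

PROOF. `c = 2|K|² + 2|K|`. Let `T = {h | SepK h o y}`, `P = {h | SepK h x o}`, `Q = {h | SepK h x y}`,
`H = P ∩ Q`; all finite.
(0) `P \ H \ {h | y ∈ tr K h} ⊆ T`: `h ∈ P`, not `SepK h x y`, `y ∉ tr K h`: `Off x y`, and `Sep x o`, so
`Sep y o`.
Case 1: `H = ∅`. Also `Q \ {h | o ∈ tr K h} ⊆ T`: `h ∈ Q`, `h ∉ P`, so `Off x o`, `Sep x y`, so `Sep o y`. The
two sets are disjoint, so `|P| + |Q| ≤ |T| + 2|K|`: first alternative (`M_symm`).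
Case 2: `H` is nonempty. `b` from `exists_last` for `(x, o)` and `W = H`: `b ∈ H` and
`Off S (tr K b) x h` for all `h ∈ H` with `tr K h`, `tr K b` disjoint. We show the second alternative with
`h := b`.
(a) `|H| ≤ M x b + |K|²`: for `h ∈ H` with `tr K h` disjoint from `tr K b`: `Off S (tr K b) x h`, so
`Sep S (tr K b) h o`, and `consist_mpr` (`A = tr K h`, `X = tr K b`, `o = x`, `g = o`) gives `SepK h x b`.
(b) Let `R = {h | SepK h b y}`. Let `h ∈ R` with `tr K h`, `tr K b` disjoint and `o ∉ tr K h`. Then: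
 (b1) `∀ a ∈ tr K h, Off S (tr K b) y a`: `inside` (`X = tr K b`, `A = tr K h`, `o := y`, `w := b`).
 (b2) `Off S (tr K h) x b`: `reach_avoid` (`X = tr K b`, `A = tr K h`, `z = x`, `k = b`): no `a ∈ tr K h` has
 `Off S (tr K b) x a`, by (b1) and `SepK b x y`. So `SepK h x y`.
 (b3) `SepK h o y`: otherwise `Off S (tr K h) o y`, so `Sep S (tr K h) b o`, so `Sep S (tr K h) x o` by (b2),
 so `h ∈ H`, and `Off S (tr K b) x h` (choice of `b`), but `Off S (tr K b) y h` by (b1): contradiction to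
 `SepK b x y`.
(c) The sets `P \ H \ {y ∈ tr K h}` and `R \ {¬ disjoint from tr K b} \ {o ∈ tr K h}` are subsets of `T`; they
are disjoint: an element of the second has `SepK h x y` (b2), so if it is in `P` it is in `H`. So
`|P| - |H| - |K| + |R| - |K|² - |K| ≤ |T|`, with (a): `|P| + |R| ≤ |T| + M x b + 2|K|² + 2|K|`.
-/

open scoped Pointwise

namespace IICErg

namespace Ends

variable {Γ : Type} [Group Γ]

private theorem SchC_self {K : Finset Γ} (h1 : (1 : Γ) ∈ K) (h : Γ) : h ∈ (tr K h : Set Γ) := by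
  rw [Finset.mem_coe, mem_tr, inv_mul_cancel]
  exact h1

theorem schur_comb {S : GenSet Γ} {K : Finset Γ} (hc : Cn S (K : Set Γ)) (h1 : (1 : Γ) ∈ K) :
    ∃ c : ℕ, ∀ x o y : Γ, M S K o x + M S K x y ≤ M S K o y + c ∨
      ∃ h, SepK S K h x o ∧ SepK S K h x y ∧ M S K o x + M S K h y ≤ M S K o y + M S K x h + c := by
  refine ⟨2 * K.card ^ 2 + 2 * K.card, fun x o y => ?_⟩
  have hfP := sepK_finite S K x o
  have hfQ := sepK_finite S K x y
  have hfT := sepK_finite S K o y
  have h0 : ∀ h, SepK S K h x o → ¬ SepK S K h x y → y ∉ tr K h → SepK S K h o y := by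
    intro h hP hQ hy
    have h2 : Off S (tr K h : Set Γ) x y := off_of_not_sep hP.1 hy hQ
    exact (Sep.off_left hP h2).symm
  by_cases hW : ({h | SepK S K h x o} ∩ {h | SepK S K h x y}).Nonempty
  · right
    obtain ⟨b, hb, hlast⟩ := exists_last hc h1 ({h | SepK S K h x o} ∩ {h | SepK S K h x y}) hW
      (fun h hh => hh.1)
    refine ⟨b, hb.1, hb.2, ?_⟩
    have hbo : SepK S K b x o := hb.1
    have hby : SepK S K b x y := hb.2
    have hX := cn_tr hc b
    have hbb := SchC_self h1 b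
    -- (a)
    have ha : ({h | SepK S K h x o} ∩ {h | SepK S K h x y}) \
        {h | ¬ Disjoint (tr K h) (tr K b)} ⊆ {h | SepK S K h x b} := by
      rintro h ⟨hh, hd⟩
      rw [Set.mem_ofPred_eq, not_not] at hd
      have h2 := hlast h hh hd
      exact consist_mpr hX (cn_tr hc h) (Finset.disjoint_coe.mpr hd) hbb (SchC_self h1 h) hbo hh.1
        (Sep.off_left hbo h2)
    -- (b)
    have hR : ∀ h, h ∈ ({h | SepK S K h b y} \ {h | ¬ Disjoint (tr K h) (tr K b)}) \
        {h | o ∈ tr K h} → SepK S K h x y ∧ SepK S K h o y := by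
      rintro h ⟨⟨hh, hd⟩, ho⟩
      rw [Set.mem_ofPred_eq, not_not] at hd
      have hd' : Disjoint (tr K h : Set Γ) (tr K b : Set Γ) := Finset.disjoint_coe.mpr hd
      have hb1 : ∀ a ∈ (tr K h : Set Γ), Off S (tr K b : Set Γ) y a :=
        inside hX (cn_tr hc h) hd' hbb hby.2.1 (Sep.symm hh)
      have hb2 : Off S (tr K h : Set Γ) x b :=
        reach_avoid hX hd' hby.1 hbb (fun a ha hoff => hby.not_off (hoff.trans (hb1 a ha).symm))
      have hxy : SepK S K h x y := Sep.off_left hh hb2.symm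
      refine ⟨hxy, ?_⟩
      by_contra hcon
      have h3 : Off S (tr K h : Set Γ) o y := off_of_not_sep ho hh.2.1 hcon
      have h4 : SepK S K h x o := Sep.off_right hxy h3.symm
      have h5 := hlast h ⟨h4, hxy⟩ hd
      exact hby.not_off (h5.trans (hb1 h (SchC_self h1 h)).symm)
    -- (c)
    have hdis : Disjoint ((({h | SepK S K h x o}) \
        ({h | SepK S K h x o} ∩ {h | SepK S K h x y})) \ {h | y ∈ tr K h})
        (({h | SepK S K h b y} \ {h | ¬ Disjoint (tr K h) (tr K b)}) \ {h | o ∈ tr K h}) := by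
      rw [Set.disjoint_left]
      rintro h ⟨⟨hP, hH⟩, _⟩ hh
      exact hH ⟨hP, (hR h hh).1⟩
    have hsub : ((({h | SepK S K h x o}) \
        ({h | SepK S K h x o} ∩ {h | SepK S K h x y})) \ {h | y ∈ tr K h}) ∪
        (({h | SepK S K h b y} \ {h | ¬ Disjoint (tr K h) (tr K b)}) \ {h | o ∈ tr K h}) ⊆
        {h | SepK S K h o y} := by
      rintro h (⟨⟨hP, hH⟩, hy⟩ | hh)
      · exact h0 h hP (fun h2 => hH ⟨hP, h2⟩) hy
      · exact (hR h hh).2
    have hfR := sepK_finite S K b y
    have e1 := Set.ncard_le_ncard hsub hfT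
    rw [Set.ncard_union_eq hdis
      ((hfP.subset Set.sdiff_subset).subset Set.sdiff_subset)
      ((hfR.subset Set.sdiff_subset).subset Set.sdiff_subset)] at e1
    have e2 := Set.ncard_le_ncard_sdiff_add_ncard ({h | SepK S K h x o} \
        ({h | SepK S K h x o} ∩ {h | SepK S K h x y})) {h | y ∈ tr K h} (mem_finite K y)
    have e3 := Set.ncard_le_ncard_sdiff_add_ncard {h | SepK S K h x o}
        ({h | SepK S K h x o} ∩ {h | SepK S K h x y}) (hfP.subset Set.inter_subset_left)
    have e4 := Set.ncard_le_ncard_sdiff_add_ncard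
        ({h | SepK S K h b y} \ {h | ¬ Disjoint (tr K h) (tr K b)}) {h | o ∈ tr K h}
        (mem_finite K o)
    have e5 := Set.ncard_le_ncard_sdiff_add_ncard {h | SepK S K h b y}
        {h | ¬ Disjoint (tr K h) (tr K b)} (meet_finite K b)
    have e6 := Set.ncard_le_ncard_sdiff_add_ncard ({h | SepK S K h x o} ∩ {h | SepK S K h x y})
        {h | ¬ Disjoint (tr K h) (tr K b)} (meet_finite K b)
    have e7 := Set.ncard_le_ncard ha (sepK_finite S K x b)
    have e8 := card_meet K b
    have e9 := card_mem K y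
    have e10 := card_mem K o
    rw [M_symm S K o x]
    unfold M
    omega
  · left
    rw [Set.not_nonempty_iff_eq_empty] at hW
    have hno : ∀ h, SepK S K h x o → SepK S K h x y → False := by
      intro h h2 h3
      have : h ∈ ({h | SepK S K h x o} ∩ {h | SepK S K h x y}) := ⟨h2, h3⟩
      rw [hW] at this
      exact this
    have hdis : Disjoint ({h | SepK S K h x o} \ {h | y ∈ tr K h})
        ({h | SepK S K h x y} \ {h | o ∈ tr K h}) := by
      rw [Set.disjoint_left]
      rintro h ⟨hP, _⟩ ⟨hQ, _⟩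
      exact hno h hP hQ
    have hsub : ({h | SepK S K h x o} \ {h | y ∈ tr K h}) ∪
        ({h | SepK S K h x y} \ {h | o ∈ tr K h}) ⊆ {h | SepK S K h o y} := by
      rintro h (⟨hP, hy⟩ | ⟨hQ, ho⟩)
      · exact h0 h hP (fun h2 => hno h hP h2) hy
      · have h2 : Off S (tr K h : Set Γ) x o := off_of_not_sep hQ.1 ho (fun h3 => hno h h3 hQ)
        exact Sep.off_left hQ h2
    have e1 := Set.ncard_le_ncard hsub hfT
    rw [Set.ncard_union_eq hdis (hfP.subset Set.sdiff_subset) (hfQ.subset Set.sdiff_subset)] at e1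
    have e2 := Set.ncard_le_ncard_sdiff_add_ncard {h | SepK S K h x o} {h | y ∈ tr K h}
      (mem_finite K y)
    have e3 := Set.ncard_le_ncard_sdiff_add_ncard {h | SepK S K h x y} {h | o ∈ tr K h}
      (mem_finite K o)
    have e4 := card_mem K y
    have e5 := card_mem K o
    rw [M_symm S K o x]
    unfold M
    omega

end Ends

end IICErg
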