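import Pool.Agent.Lib.MP_4c698b_pr.E.SumA
import Pool.Agent.Lib.MP_4c698b_pr.E.SchC
import Pool.Agent.Lib.MP_4c698b_pr.E.BKc

/-!
# Module SumB: the Schur sums (about 150 lines)

NOTATION. `m y = M 1 y`, `G = ∑' y, tau S p 1 y * β ^ m y ≤ G₀` (hypothesis), `i = β⁻¹` (`1 ≤ i < ∞`), `c` from
`schur_comb`, `c₁` from `M_near`, `c₂ = c₁ + |K|`.

PROOF. Fix `p`, `x`. For `h`, `y` let `t_A y = tau x y * β ^ m y` if `m x + M x y ≤ m y + c`, else `0`; `t_B h y` the same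
value if `SepK h x 1`, `SepK h x y` and `m x + M h y ≤ m y + M x h + c`, else `0`. By `schur_comb` (with `o = 1`):
`tau x y * β ^ m y ≤ t_A y + ∑' h, t_B h y` (`ENNReal.le_tsum`). Sum over `y` (`ENNReal.tsum_add`,
`ENNReal.tsum_comm`).
(A) If `m x + M x y ≤ m y + c` then `β ^ m y * β ^ c ≤ β ^ m x * β ^ M x y` (`β ≤ 1`), so
`β ^ m y ≤ i ^ c * β ^ m x * β ^ M x y`. So `∑' y, t_A y ≤ i ^ c * β ^ m x * G` (`sum_tau` with `s = x`).
(B) Fix `h` with `SepK h x 1`. `β ^ m y ≤ i ^ (c + M x h) * β ^ m x * β ^ M h y` for the `y` that count,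
`tau x y ≤ ∑_{s ∈ tr K h} tau x s * tau s y` (`tau_le_sum`), `β ^ M h y ≤ i ^ c₂ * β ^ M s y` for `s ∈ tr K h`
(`M s y ≤ M s h + M h y + |K| ≤ M h y + c₂`: `M_sub`, `M_symm`, `M_near`), and
`tau x s ≤ θ ^ M x s ≤ (θ⁻¹) ^ c₂ * θ ^ M x h` (`M x h ≤ M x s + c₂`). So
`∑' y, t_B h y ≤ |K| * (θ⁻¹) ^ c₂ * i ^ c * i ^ c₂ * G * β ^ m x * (θ * i) ^ M x h`.
(C) `∑' h, [SepK h x 1] (θ * i) ^ M x h ≤ B * (1 - θ * i)⁻¹ < ∞` (`sum_H`; `θ * i < 1` since `θ < β`).
`C = i ^ c * G₀ + |K| * (θ⁻¹) ^ c₂ * i ^ (c + c₂) * G₀ * B * (1 - θ * i)⁻¹`.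
-/

open MeasureTheory Filter Topology
open scoped ENNReal NNReal Pointwise

namespace IICErg

namespace Ends

variable {Γ : Type} [Group Γ]

private theorem SumB_pw {β : ℝ≥0∞} (h0 : β ≠ 0) (h1 : β ≤ 1) {a d c : ℕ} (h : a ≤ d + c) :
    β ^ d ≤ β⁻¹ ^ c * β ^ a := by
  have hT : β ≠ ⊤ := ne_top_of_le_ne_top ENNReal.one_ne_top h1
  have e1 : β⁻¹ ^ c * β ^ c = 1 := by
    rw [← mul_pow, ENNReal.inv_mul_cancel h0 hT, one_pow]
  calc β ^ d = β⁻¹ ^ c * β ^ (d + c) := by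
        rw [pow_add, mul_comm (β ^ d), ← mul_assoc, e1, one_mul]
    _ ≤ β⁻¹ ^ c * β ^ a := mul_le_mul_right (pow_le_pow_right_of_le_one' h1 h) _

theorem schur_sum {S : GenSet Γ} {K : Finset Γ} (hc : Cn S (K : Set Γ)) (h1 : (1 : Γ) ∈ K)
    (θ β G₀ : ℝ≥0∞) (hθ0 : θ ≠ 0) (hθβ : θ < β) (hβ1 : β < 1) (hG₀ : G₀ ≠ ⊤) :
    ∃ C : ℝ≥0∞, C ≠ ⊤ ∧ ∀ p : unitInterval, (∀ x y : Γ, tau S p x y ≤ θ ^ M S K x y) →
      ∑' y, tau S p 1 y * β ^ M S K 1 y ≤ G₀ →
      ∀ x, ∑' y, tau S p x y * β ^ M S K 1 y ≤ C * β ^ M S K 1 x := by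
  classical
  have hβ0 : β ≠ 0 := (pos_iff_ne_zero.1 (zero_le.trans_lt hθβ))
  have hβT : β ≠ ⊤ := (hβ1.trans ENNReal.one_lt_top).ne
  have hθ1 : θ ≤ 1 := (hθβ.trans hβ1).le
  obtain ⟨c, hcomb⟩ := schur_comb (S := S) hc h1
  obtain ⟨c1, hnear⟩ := M_near S K
  obtain ⟨B, hBT, hB⟩ := sum_H (S := S) hc h1
  set c2 : ℕ := c1 + K.card with hc2
  have hiT : β⁻¹ ≠ ⊤ := ENNReal.inv_ne_top.2 hβ0
  have hθT : θ⁻¹ ≠ ⊤ := ENNReal.inv_ne_top.2 hθ0
  have hr : θ * β⁻¹ < 1 := by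
    rw [← div_eq_mul_inv]
    exact ENNReal.div_lt_of_lt_mul' (by rwa [mul_one])
  have hrT : (1 - θ * β⁻¹)⁻¹ ≠ ⊤ := ENNReal.inv_ne_top.2 (tsub_pos_of_lt hr).ne'
  set D : ℝ≥0∞ := (K.card : ℝ≥0∞) * (θ⁻¹ ^ c2 * (β⁻¹ ^ c * (β⁻¹ ^ c2 * G₀))) with hD
  have hDT : D ≠ ⊤ := by
    refine ENNReal.mul_ne_top (ENNReal.natCast_ne_top _) (ENNReal.mul_ne_top
      (ENNReal.pow_ne_top hθT) (ENNReal.mul_ne_top (ENNReal.pow_ne_top hiT)
      (ENNReal.mul_ne_top (ENNReal.pow_ne_top hiT) hG₀)))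
  refine ⟨β⁻¹ ^ c * G₀ + D * (B * (1 - θ * β⁻¹)⁻¹), ENNReal.add_ne_top.2
    ⟨ENNReal.mul_ne_top (ENNReal.pow_ne_top hiT) hG₀,
      ENNReal.mul_ne_top hDT (ENNReal.mul_ne_top hBT hrT)⟩, fun p hτ hG x => ?_⟩
  -- the two parts
  let tA : Γ → ℝ≥0∞ := fun y => if M S K 1 x + M S K x y ≤ M S K 1 y + c then
    tau S p x y * β ^ M S K 1 y else 0
  let tB : Γ → Γ → ℝ≥0∞ := fun h y => if SepK S K h x 1 ∧ SepK S K h x y ∧
    M S K 1 x + M S K h y ≤ M S K 1 y + M S K x h + c then tau S p x y * β ^ M S K 1 y else 0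
  have hpt : ∀ y, tau S p x y * β ^ M S K 1 y ≤ tA y + ∑' h, tB h y := by
    intro y
    rcases hcomb x 1 y with h | ⟨h, e1, e2, e3⟩
    · have : tA y = tau S p x y * β ^ M S K 1 y := if_pos h
      rw [this]
      exact le_self_add
    · have : tB h y = tau S p x y * β ^ M S K 1 y := if_pos ⟨e1, e2, e3⟩
      calc tau S p x y * β ^ M S K 1 y = tB h y := this.symm
        _ ≤ ∑' h, tB h y := ENNReal.le_tsum h
        _ ≤ _ := le_add_self
  have hG' : ∀ s, ∑' y, tau S p s y * β ^ M S K s y ≤ G₀ := fun s => by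
    rw [sum_tau]
    exact hG
  -- part A
  have hA : ∑' y, tA y ≤ β⁻¹ ^ c * G₀ * β ^ M S K 1 x := by
    calc ∑' y, tA y ≤ ∑' y, (β⁻¹ ^ c * β ^ M S K 1 x) * (tau S p x y * β ^ M S K x y) := by
          refine ENNReal.tsum_le_tsum fun y => ?_
          simp only [tA]
          split_ifs with h
          · calc tau S p x y * β ^ M S K 1 y
                ≤ tau S p x y * (β⁻¹ ^ c * β ^ (M S K 1 x + M S K x y)) :=
                  mul_le_mul_right (SumB_pw hβ0 hβ1.le h) _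
              _ = _ := by rw [pow_add]; ring
          · exact zero_le
      _ = (β⁻¹ ^ c * β ^ M S K 1 x) * ∑' y, tau S p x y * β ^ M S K x y := ENNReal.tsum_mul_left
      _ ≤ (β⁻¹ ^ c * β ^ M S K 1 x) * G₀ := mul_le_mul_right (hG' x) _
      _ = _ := by ring
  -- part B
  have hBh : ∀ h, ∑' y, tB h y ≤ D * β ^ M S K 1 x *
      (if SepK S K h x 1 then (θ * β⁻¹) ^ M S K x h else 0) := by
    intro h
    by_cases hs : SepK S K h x 1
    · rw [if_pos hs]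
      have hterm : ∀ y, tB h y ≤ ∑ s ∈ tr K h, (θ⁻¹ ^ c2 * θ ^ M S K x h *
          (β⁻¹ ^ (c + M S K x h) * β ^ M S K 1 x) * β⁻¹ ^ c2) *
            (tau S p s y * β ^ M S K s y) := by
        intro y
        simp only [tB]
        split_ifs with hy
        · obtain ⟨-, hsy, hle⟩ := hy
          have e1 : β ^ M S K 1 y ≤ β⁻¹ ^ (c + M S K x h) * β ^ (M S K 1 x + M S K h y) :=
            SumB_pw hβ0 hβ1.le (by omega)
          calc tau S p x y * β ^ M S K 1 y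
              ≤ (∑ s ∈ tr K h, tau S p x s * tau S p s y) *
                (β⁻¹ ^ (c + M S K x h) * β ^ (M S K 1 x + M S K h y)) :=
                mul_le_mul' (tau_le_sum S p (tr K h) hsy) e1
            _ = ∑ s ∈ tr K h, tau S p x s * tau S p s y *
                (β⁻¹ ^ (c + M S K x h) * β ^ (M S K 1 x + M S K h y)) := Finset.sum_mul _ _ _
            _ ≤ _ := by
                refine Finset.sum_le_sum fun s hsK => ?_
                have n1 : M S K s h ≤ c1 := by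
                  rw [M_symm]
                  exact hnear h s hsK
                have e2 : β ^ M S K h y ≤ β⁻¹ ^ c2 * β ^ M S K s y := by
                  refine SumB_pw hβ0 hβ1.le ?_
                  have := M_sub S K s h y
                  omega
                have e3 : tau S p x s ≤ θ⁻¹ ^ c2 * θ ^ M S K x h := by
                  refine (hτ x s).trans (SumB_pw hθ0 hθ1 ?_)
                  have := M_sub S K x s h
                  omega
                calc tau S p x s * tau S p s y *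
                      (β⁻¹ ^ (c + M S K x h) * β ^ (M S K 1 x + M S K h y))
                    = tau S p x s * tau S p s y *
                      (β⁻¹ ^ (c + M S K x h) * (β ^ M S K 1 x * β ^ M S K h y)) := by
                      rw [pow_add β]
                  _ ≤ (θ⁻¹ ^ c2 * θ ^ M S K x h) * tau S p s y *
                      (β⁻¹ ^ (c + M S K x h) * (β ^ M S K 1 x * (β⁻¹ ^ c2 * β ^ M S K s y))) := by
                      gcongr
                  _ = _ := by ring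
        · exact zero_le
      calc ∑' y, tB h y ≤ ∑' y, ∑ s ∈ tr K h, (θ⁻¹ ^ c2 * θ ^ M S K x h *
            (β⁻¹ ^ (c + M S K x h) * β ^ M S K 1 x) * β⁻¹ ^ c2) *
              (tau S p s y * β ^ M S K s y) := ENNReal.tsum_le_tsum hterm
        _ = ∑ s ∈ tr K h, ∑' y, (θ⁻¹ ^ c2 * θ ^ M S K x h *
            (β⁻¹ ^ (c + M S K x h) * β ^ M S K 1 x) * β⁻¹ ^ c2) *
              (tau S p s y * β ^ M S K s y) :=
            Summable.tsum_finsetSum fun _ _ => ENNReal.summable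
        _ ≤ ∑ s ∈ tr K h, (θ⁻¹ ^ c2 * θ ^ M S K x h *
            (β⁻¹ ^ (c + M S K x h) * β ^ M S K 1 x) * β⁻¹ ^ c2) * G₀ := by
            refine Finset.sum_le_sum fun s _ => ?_
            rw [ENNReal.tsum_mul_left]
            exact mul_le_mul_right (hG' s) _
        _ = D * β ^ M S K 1 x * (θ * β⁻¹) ^ M S K x h := by
            rw [Finset.sum_const, card_tr, nsmul_eq_mul, hD, pow_add, mul_pow]
            ring
    · rw [if_neg hs, mul_zero]
      have : ∀ y, tB h y = 0 := fun y => if_neg fun hh => hs hh.1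
      simp [this]
  calc ∑' y, tau S p x y * β ^ M S K 1 y ≤ ∑' y, (tA y + ∑' h, tB h y) :=
        ENNReal.tsum_le_tsum hpt
    _ = ∑' y, tA y + ∑' y, ∑' h, tB h y := ENNReal.tsum_add
    _ = ∑' y, tA y + ∑' h, ∑' y, tB h y := by rw [ENNReal.tsum_comm (f := fun y h => tB h y)]
    _ ≤ β⁻¹ ^ c * G₀ * β ^ M S K 1 x + ∑' h, D * β ^ M S K 1 x *
        (if SepK S K h x 1 then (θ * β⁻¹) ^ M S K x h else 0) :=
        add_le_add hA (ENNReal.tsum_le_tsum hBh)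
    _ ≤ β⁻¹ ^ c * G₀ * β ^ M S K 1 x + D * β ^ M S K 1 x * (B * (1 - θ * β⁻¹)⁻¹) := by
        rw [ENNReal.tsum_mul_left]
        exact add_le_add le_rfl (mul_le_mul_right (hB _ x 1) _)
    _ = _ := by ring

end Ends

end IICErg
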