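import Pool.Agent.Lib.MP_4c698b_pr.Main
import Pool.Agent.Lib.MP_4c698b_pr.E.GoodK
import Pool.Agent.Lib.MP_4c698b_pr.E.Code
import Pool.Agent.Lib.MP_4c698b_pr.E.SumB
import Pool.Agent.Lib.MP_4c698b_pr.E.SchT
import Pool.Agent.Lib.MP_4c698b_pr.E.Lim
import Pool.Agent.Lib.MP_4c698b_pr.E.DecB
import Pool.Agent.Lib.MP_4c698b_pr.E.Shp1
import Pool.Agent.Lib.MP_4c698b_pr.E.Shp2

/-!
# Module FinE: assembly
-/

open MeasureTheory Filter Topology
open scoped ENNReal NNReal Pointwise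

namespace IICErg

namespace Ends

variable {Γ : Type} [Group Γ]

/-- A Cayley graph with more than two ends has a critical two-point function that is bounded on
`ℓ²` (`0 < p_c < 1` is proved elsewhere). -/
theorem l2_ends (S : GenSet Γ) (hS : ManyEnds S) (h0 : 0 < pc S) (h1 : pc S < 1) :
    L2Bounded S (pc S) := by
  classical
  obtain ⟨K, hg⟩ := exists_good S hS
  obtain ⟨p₁, hp₁0, hp₁⟩ : ∃ p₁ : unitInterval, 0 < p₁ ∧ p₁ < pc S := by
    refine ⟨⟨(pc S : ℝ) / 2, ?_, ?_⟩, ?_, ?_⟩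
    · have : (0 : ℝ) ≤ pc S := (pc S).2.1
      linarith
    · have : (pc S : ℝ) ≤ 1 := (pc S).2.2
      have : (0 : ℝ) ≤ pc S := (pc S).2.1
      linarith
    · have h2 : (0 : ℝ) < pc S := h0
      change (0 : ℝ) < (pc S : ℝ) / 2
      linarith
    · have h2 : (0 : ℝ) < pc S := h0
      change (pc S : ℝ) / 2 < pc S
      linarith
  obtain ⟨θ, hθ0, hθ1, hθ⟩ := decay S K hg.one (pc S) h1
  obtain ⟨β, hθβ, hβ1⟩ := exists_between hθ1
  obtain ⟨C₁, hC₁, hcode⟩ := code hg p₁ hp₁0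
  have hG : C₁ * (1 - β)⁻¹ ≠ ⊤ := by
    refine ENNReal.mul_ne_top hC₁ ?_
    rw [ENNReal.inv_ne_top]
    exact (tsub_pos_of_lt hβ1).ne'
  obtain ⟨C₂, hC₂, hsum⟩ := schur_sum hg.conn hg.one θ β (C₁ * (1 - β)⁻¹) hθ0 hθβ hβ1 hG
  have hβ0 : β ≠ 0 := (lt_of_le_of_lt bot_le hθβ).ne'
  have hβt : β ≠ ⊤ := (hβ1.trans ENNReal.one_lt_top).ne
  refine ⟨C₂ ^ 2 + 1, ENNReal.add_ne_top.2 ⟨ENNReal.pow_ne_top hC₂, ENNReal.one_ne_top⟩, ?_⟩
  refine l2_lim S p₁ (pc S) hp₁ _ (le_add_self) ?_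
  intro p hp hpc f
  have hp0 : 0 < p := hp₁0.trans_le hp
  obtain ⟨K', h1', hphi⟩ := exists_phi S p hp0 hpc
  have hchi := chi_of_phi S p K' h1' hphi
  have hlev := hcode p hp hchi
  have hGp := sum_level (fun y => tau S p 1 y) (fun y => M S K 1 y) C₁ β hlev
  have hx := hsum p (hθ p hpc.le) hGp
  refine (schur_test (fun x y => tau S p x y) (fun x y => L2h_tau_symm S p x y)
    (fun y => β ^ M S K 1 y) (fun x => pow_ne_zero _ hβ0) (fun x => ENNReal.pow_ne_top hβt)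
    C₂ hx f).trans ?_
  exact mul_le_mul_left (le_self_add) _

/-- every IIC of a Cayley graph with more than two ends is ergodic -/
theorem ergodic_ends (S : GenSet Γ) (hS : ManyEnds S) (A : Measure (RGraph S.S.card))
    (hA : IsIIC S A) : Ergodic A := by
  obtain ⟨hp0, hp1, -⟩ := iic_basic S A hA
  exact iic_ergodic S (l2_ends S hS hp0 hp1) A hA

end Ends

end IICErg
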