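import Pool.Agent.Lib.MP_4c698b_pr.E.Push

/-!
# Module NoStar: no component of the complement of `K` is distinguished (about 170 lines)

We write `u ~ v` for `Off S K u v`; `c` is far if `tr K c`, `K` are disjoint.

PROOF. Suppose the contrary: (★) every far `c` has `c ~ z` or `c⁻¹ ~ z`. Let
`D = {c | far, ¬ c ~ z}`; for `c ∈ D` we have `c⁻¹ ~ z` (★).
(1) If `c, d ∈ D` then `¬ c⁻¹ ~ d` (`c⁻¹ ~ z`, `¬ d ~ z`), so by `push_mul` `c * d` is far and `c ~ c * d`; hence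
`c * d ∈ D`.
(2) By `exists_other` (twice) there are `x₁ ∉ K` with `¬ x₁ ~ z`, and `x₂ ∉ K` with `¬ x₂ ~ z`, `¬ x₂ ~ x₁`; by
`exists_far` there are `c₁ ~ x₁`, `c₂ ~ x₂` far. So `c₁, c₂ ∈ D` and `¬ c₁ ~ c₂`.
(3) For a list `l : List Bool` let `w l = (l.map (fun b => cond b c₁ c₂)).prod`. By (1) and induction, for
`l ≠ []`: `w l ∈ D`, and `w (b :: l) ~ c_b` (also for `l = []`). `w` is injective on lists of the same
length: `w (b :: l) = w (b' :: l')` gives `c_b ~ c_b'`, so `b = b'`, cancel.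
(4) For `n ≥ 1` let `P` be the finset of the `(w l)⁻¹`, `l` of length `n`
(`List.Vector Bool n` or `Fin n → Bool` with `List.ofFn`): `|P| = 2^n`. Every `a ∈ P` has `a⁻¹ ∈ D`. Also
`M 1 a ≤ n * m` with `m = max (M 1 c₁⁻¹) (M 1 c₂⁻¹) + |K|`: `M 1 (u * v) ≤ M 1 u + M u (u * v) + |K| = M 1 u + M 1 v + |K|`
(`M_sub`, `M_mul`), `(w (b :: l))⁻¹ = (w l)⁻¹ * c_b⁻¹`.
(5) `greedy` (`N = K`, `H = P`): `I ⊆ P`, pairwise disjoint translates, `2^n ≤ |I| |K|²`.
For `a ≠ a'` in `I`: `SepK a 1 a'` or `SepK a' 1 a`: `c = a⁻¹ * a'` is far (`tr K a`, `tr K a'` are disjoint), so by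
(★) `a⁻¹ * a' ~ z` or `a'⁻¹ * a ~ z` (`c⁻¹ = a'⁻¹ * a`). In the first case: `a⁻¹ ∈ D`, so `¬ a⁻¹ ~ z`, hence
`¬ a⁻¹ ~ a⁻¹ * a'`, both are outside `K`: `Sep S K (a⁻¹ * 1) (a⁻¹ * a')`, i.e. `SepK a 1 a'` (`sepK_mul` with
`g = a`, `h = 1`, `tr_one`). The second case is symmetric.
(6) Transitivity: `a, a', a'' ∈ I`, `SepK a 1 a'`, `SepK a' 1 a''`: `sep_far` (`A = tr K a`, `X = tr K a'`,
`w = a'`, `o = 1`, `g = a''`; `a ≠ a'` so the translates are disjoint) gives `SepK a 1 a''`.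
(7) Let `f a = |{a' ∈ I | SepK a' 1 a}|` and `b ∈ I` with `f b` maximal. Every `a ∈ I`, `a ≠ b` has `SepK a 1 b`:
otherwise `SepK b 1 a` (5), and `{a' ∈ I | SepK a' 1 b} ∪ {b} ⊆ {a' ∈ I | SepK a' 1 a}` by (6), and `b` is not in the
first set (`¬ SepK b 1 b`, as `b ∈ tr K b`): `f a > f b`. So `|I| - 1 ≤ M 1 b ≤ n m`.
(8) So `2^n ≤ (n m + 1) |K|²` for all `n ≥ 1`: false for large `n` (for instance by
`tendsto_pow_const_div_const_pow_of_one_lt` or an elementary argument).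
-/

open scoped Pointwise

namespace IICErg

namespace Ends

variable {Γ : Type} [Group Γ] {S : GenSet Γ} {K : Finset Γ}

private theorem ns_self (h1 : (1 : Γ) ∈ K) (h : Γ) : h ∈ tr K h := by
  rw [mem_tr, inv_mul_cancel]
  exact h1

private theorem ns_far_notMem (h1 : (1 : Γ) ∈ K) {c : Γ} (h : Disjoint (tr K c) K) : c ∉ K :=
  fun h2 => Finset.disjoint_left.1 h (ns_self h1 c) h2

private theorem ns_disj {a b : Γ} (h : Disjoint (tr K a) (tr K b)) :
    Disjoint (tr K (a⁻¹ * b)) K := by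
  rw [Finset.disjoint_left]
  intro x hx hxK
  rw [mem_tr] at hx
  have h1 : a * x ∈ tr K a := by
    rw [mem_tr, inv_mul_cancel_left]
    exact hxK
  have h2 : a * x ∈ tr K b := by
    rw [mem_tr]
    have : b⁻¹ * (a * x) = (a⁻¹ * b)⁻¹ * x := by group
    rw [this]
    exact hx
  exact Finset.disjoint_left.1 h h1 h2

/-- the far elements that are not on the side of `z` -/
private def DD (S : GenSet Γ) (K : Finset Γ) (z : Γ) : Set Γ :=
  {c | Disjoint (tr K c) K ∧ ¬ Off S (K : Set Γ) c z}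

private theorem dd_mul (hg : Good S K) {z : Γ}
    (star : ∀ c, Disjoint (tr K c) K → Off S (K : Set Γ) c z ∨ Off S (K : Set Γ) c⁻¹ z)
    {c d : Γ} (hc : c ∈ DD S K z) (hd : d ∈ DD S K z) :
    c * d ∈ DD S K z ∧ Off S (K : Set Γ) c (c * d) := by
  have h1 : Off S (K : Set Γ) c⁻¹ z := (star c hc.1).resolve_left hc.2
  have h2 : ¬ Off S (K : Set Γ) c⁻¹ d := fun h => hd.2 (h.symm.trans h1)
  obtain ⟨h3, h4⟩ := push_mul hg hc.1 hd.1 h2
  exact ⟨⟨h3, fun h => hc.2 (h4.trans h)⟩, h4⟩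

/-- products -/
private def ww (c₁ c₂ : Γ) (l : List Bool) : Γ := (l.map (fun b => cond b c₁ c₂)).prod

private theorem ww_cons (c₁ c₂ : Γ) (b : Bool) (l : List Bool) :
    ww c₁ c₂ (b :: l) = cond b c₁ c₂ * ww c₁ c₂ l := by
  simp [ww]

private theorem ww_nil (c₁ c₂ : Γ) : ww c₁ c₂ [] = 1 := by
  simp [ww]

private theorem ww_mem (hg : Good S K) {z c₁ c₂ : Γ}
    (star : ∀ c, Disjoint (tr K c) K → Off S (K : Set Γ) c z ∨ Off S (K : Set Γ) c⁻¹ z)
    (h1 : c₁ ∈ DD S K z) (h2 : c₂ ∈ DD S K z) (b : Bool) (l : List Bool) :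
    ww c₁ c₂ (b :: l) ∈ DD S K z ∧ Off S (K : Set Γ) (cond b c₁ c₂) (ww c₁ c₂ (b :: l)) := by
  induction l generalizing b with
  | nil =>
    have hb : cond b c₁ c₂ ∈ DD S K z := by cases b <;> simpa
    rw [ww_cons, ww_nil, mul_one]
    exact ⟨hb, Off.refl (ns_far_notMem hg.one hb.1)⟩
  | cons b' l ih =>
    have hb : cond b c₁ c₂ ∈ DD S K z := by cases b <;> simpa
    rw [ww_cons]
    exact dd_mul hg star hb (ih b').1

private theorem ww_inj (hg : Good S K) {z c₁ c₂ : Γ}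
    (star : ∀ c, Disjoint (tr K c) K → Off S (K : Set Γ) c z ∨ Off S (K : Set Γ) c⁻¹ z)
    (h1 : c₁ ∈ DD S K z) (h2 : c₂ ∈ DD S K z) (h12 : ¬ Off S (K : Set Γ) c₁ c₂)
    (l l' : List Bool) (hl : l.length = l'.length) (hw : ww c₁ c₂ l = ww c₁ c₂ l') : l = l' := by
  induction l generalizing l' with
  | nil =>
    cases l' with
    | nil => rfl
    | cons b' l' => simp at hl
  | cons b l ih =>
    cases l' with
    | nil => simp at hl
    | cons b' l' =>
      have e1 := (ww_mem hg star h1 h2 b l).2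
      have e2 := (ww_mem hg star h1 h2 b' l').2
      have hbb : b = b' := by
        rw [hw] at e1
        have e3 := e1.trans e2.symm
        cases b <;> cases b'
        · rfl
        · exact absurd e3.symm h12
        · exact absurd e3 h12
        · rfl
      subst hbb
      rw [ww_cons, ww_cons] at hw
      have h3 := mul_left_cancel hw
      rw [ih l' (by simpa using hl) h3]

private theorem ww_M (S : GenSet Γ) (K : Finset Γ) (c₁ c₂ : Γ) (l : List Bool) :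
    M S K 1 (ww c₁ c₂ l)⁻¹ ≤ l.length * (M S K 1 c₁⁻¹ + M S K 1 c₂⁻¹ + K.card) := by
  induction l with
  | nil => simp [ww_nil, M_self]
  | cons b l ih =>
    have h1 := M_sub S K 1 (ww c₁ c₂ l)⁻¹ ((ww c₁ c₂ l)⁻¹ * (cond b c₁ c₂)⁻¹)
    have h2 := M_mul S K (ww c₁ c₂ l)⁻¹ 1 (cond b c₁ c₂)⁻¹
    rw [mul_one] at h2
    rw [ww_cons, mul_inv_rev, List.length_cons, add_mul, one_mul]
    have h3 : M S K 1 (cond b c₁ c₂)⁻¹ ≤ M S K 1 c₁⁻¹ + M S K 1 c₂⁻¹ := by
      cases b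
      · exact Nat.le_add_left _ _
      · exact Nat.le_add_right _ _
    omega

private theorem ns_num (C : ℕ) (h : ∀ n : ℕ, 1 ≤ n → 2 ^ n ≤ C * n) : False := by
  have h1 := h (2 * (2 * C + 1)) (by omega)
  have h2 : 2 * C + 1 < 2 ^ (2 * C + 1) := Nat.lt_two_pow_self
  have h3 : 2 ^ (2 * (2 * C + 1)) = 2 ^ (2 * C + 1) * 2 ^ (2 * C + 1) := by
    rw [← pow_add]
    congr 1
    omega
  rw [h3] at h1
  have h4 : (2 * C + 2) * (2 * C + 2) ≤ 2 ^ (2 * C + 1) * 2 ^ (2 * C + 1) :=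
    Nat.mul_le_mul (by omega) (by omega)
  nlinarith

theorem no_star (hg : Good S K) {z : Γ} (hz : z ∉ K) :
    ∃ c, Disjoint (tr K c) K ∧ ¬ Off S (K : Set Γ) c z ∧ ¬ Off S (K : Set Γ) c⁻¹ z := by
  by_contra hcon
  have star : ∀ c, Disjoint (tr K c) K → Off S (K : Set Γ) c z ∨ Off S (K : Set Γ) c⁻¹ z := by
    intro c hc
    by_contra h
    rw [not_or] at h
    exact hcon ⟨c, hc, h.1, h.2⟩
  -- two elements
  obtain ⟨x₁, hx₁, hx₁z, -⟩ := exists_other hg z z
  obtain ⟨x₂, hx₂, hx₂z, hx₂₁⟩ := exists_other hg z x₁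
  obtain ⟨c₁, hc₁, hxc₁⟩ := exists_far hg hx₁
  obtain ⟨c₂, hc₂, hxc₂⟩ := exists_far hg hx₂
  have hD₁ : c₁ ∈ DD S K z := ⟨hc₁, fun h => hx₁z (hxc₁.trans h)⟩
  have hD₂ : c₂ ∈ DD S K z := ⟨hc₂, fun h => hx₂z (hxc₂.trans h)⟩
  have h12 : ¬ Off S (K : Set Γ) c₁ c₂ := fun h =>
    hx₂₁ (hxc₂.trans (h.symm.trans hxc₁.symm))
  classical
  set m : ℕ := M S K 1 c₁⁻¹ + M S K 1 c₂⁻¹ + K.card with hm
  refine ns_num ((m + 1) * K.card ^ 2) fun n hn => ?_
  -- the set `P`
  set P : Finset Γ := Finset.univ.image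
    (fun v : Fin n → Bool => (ww c₁ c₂ (List.ofFn v))⁻¹) with hP
  have hPcard : P.card = 2 ^ n := by
    rw [hP, Finset.card_image_of_injective]
    · simp
    · intro v v' hv
      have h1 : ww c₁ c₂ (List.ofFn v) = ww c₁ c₂ (List.ofFn v') := inv_injective hv
      have h2 := ww_inj hg star hD₁ hD₂ h12 _ _ (by simp) h1
      exact List.ofFn_injective h2
  have hPD : ∀ a ∈ P, a⁻¹ ∈ DD S K z ∧ M S K 1 a ≤ n * m := by
    intro a ha
    rw [hP, Finset.mem_image] at ha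
    obtain ⟨v, -, rfl⟩ := ha
    rw [inv_inv]
    have hlen : (List.ofFn v).length = n := List.length_ofFn
    constructor
    · rcases hl : List.ofFn v with _ | ⟨b, l⟩
      · rw [hl] at hlen
        simp at hlen
        omega
      · exact (ww_mem hg star hD₁ hD₂ b l).1
    · have := ww_M S K c₁ c₂ (List.ofFn v)
      rw [hlen] at this
      exact this
  obtain ⟨I, hIP, hId, hIc⟩ := greedy K ⟨1, hg.one⟩ P
  rw [hPcard] at hIc
  have hKpos : 0 < 2 ^ n := by positivity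
  have hIne : I.Nonempty := by
    rw [Finset.nonempty_iff_ne_empty]
    rintro rfl
    simp at hIc
  have hself : ∀ a x, ¬ SepK S K a x a := fun a x h =>
    h.2.1 (Finset.mem_coe.2 (ns_self hg.one a))
  -- one direction
  have hdir : ∀ a a', a ∈ P → Off S (K : Set Γ) (a⁻¹ * a') z → SepK S K a 1 a' := by
    intro a a' ha hoff
    have hD := (hPD a ha).1
    have h1 : ¬ Off S (K : Set Γ) a⁻¹ (a⁻¹ * a') := fun h => hD.2 (h.trans hoff)
    have h2 : Sep S (K : Set Γ) a⁻¹ (a⁻¹ * a') :=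
      sep_of_not_off (fun h => ns_far_notMem hg.one hD.1 (Finset.mem_coe.1 h)) hoff.1 h1
    have h3 : SepK S K 1 a⁻¹ (a⁻¹ * a') := by
      unfold SepK
      rw [tr_one]
      exact h2
    have h4 := (sepK_mul S K a 1 a⁻¹ (a⁻¹ * a')).2 h3
    rwa [mul_one, mul_inv_cancel, mul_inv_cancel_left] at h4
  have hcomp : ∀ a ∈ I, ∀ a' ∈ I, a ≠ a' → SepK S K a 1 a' ∨ SepK S K a' 1 a := by
    intro a ha a' ha' hne
    rcases star (a⁻¹ * a') (ns_disj (hId a ha a' ha' hne)) with h | h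
    · exact Or.inl (hdir a a' (hIP ha) h)
    · right
      refine hdir a' a (hIP ha') ?_
      have : (a⁻¹ * a')⁻¹ = a'⁻¹ * a := by group
      rwa [this] at h
  have htrans : ∀ a ∈ I, ∀ a' ∈ I, ∀ a'' ∈ I, SepK S K a 1 a' → SepK S K a' 1 a'' →
      SepK S K a 1 a'' := by
    intro a ha a' ha' a'' _ h1 h2
    have hne : a ≠ a' := by
      rintro rfl
      exact hself a 1 h1
    exact sep_far (cn_tr hg.conn a') (cn_tr hg.conn a)
      (Finset.disjoint_coe.2 (hId a ha a' ha' hne)) (Finset.mem_coe.2 (ns_self hg.one a')) h1 h2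
  obtain ⟨b, hbI, hbmax⟩ := Finset.exists_max_image I
    (fun a => (I.filter (fun a' => SepK S K a' 1 a)).card) hIne
  have hall : ∀ a ∈ I, a ≠ b → SepK S K a 1 b := by
    intro a ha hne
    rcases hcomp a ha b hbI hne with h | h
    · exact h
    · exfalso
      have hsub : insert b (I.filter (fun a' => SepK S K a' 1 b)) ⊆
          I.filter (fun a' => SepK S K a' 1 a) := by
        intro x hx
        rw [Finset.mem_insert] at hx
        rcases hx with rfl | hx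
        · exact Finset.mem_filter.2 ⟨hbI, h⟩
        · rw [Finset.mem_filter] at hx
          exact Finset.mem_filter.2 ⟨hx.1, htrans x hx.1 b hbI a ha hx.2 h⟩
      have h1 := Finset.card_le_card hsub
      rw [Finset.card_insert_of_notMem] at h1
      · have := hbmax a ha
        omega
      · intro h2
        exact hself b 1 (Finset.mem_filter.1 h2).2
  have hIM : I.card ≤ M S K 1 b + 1 := by
    have h1 : ((I.erase b : Finset Γ) : Set Γ) ⊆ {h | SepK S K h 1 b} := by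
      intro x hx
      rw [Finset.mem_coe, Finset.mem_erase] at hx
      exact hall x hx.2 hx.1
    have h2 := Set.ncard_le_ncard h1 (sepK_finite S K 1 b)
    rw [Set.ncard_coe_finset, Finset.card_erase_of_mem hbI] at h2
    have h3 : M S K 1 b = {h | SepK S K h 1 b}.ncard := rfl
    omega
  have hMb := (hPD b (hIP hbI)).2
  have h5 : I.card ≤ (m + 1) * n := by
    have : (m + 1) * n = n * m + n := by ring
    omega
  calc 2 ^ n ≤ I.card * K.card ^ 2 := hIc
    _ ≤ (m + 1) * n * K.card ^ 2 := Nat.mul_le_mul_right _ h5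
    _ = (m + 1) * K.card ^ 2 * n := by ring

end Ends

end IICErg
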