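import Pool.Agent.Lib.MP_4c698b_pr.E.CntB

/-!
# Module Push: translates and components (about 90 lines)

`K` good; we write `u ~ v` for `Off S K u v`. `c` is called far if `tr K c` and `K` are disjoint.

PROOFS.
`far_inv`: translate by `c⁻¹`: `Disjoint (tr K c) K ↔ Disjoint K (tr K c⁻¹)` (elementwise with
`mem_tr`).
`push`: `tr K c⁻¹` is connected (`cn_tr`), disjoint from `K` and contains `c⁻¹`, so by `cn_off` all its
elements are `~ c⁻¹`, hence none is `~ z`. `reach_avoid` (`X = K`, `A = tr K c⁻¹`, `k = 1`) gives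
`Off S (tr K c⁻¹) z 1`; translate by `c` (`off_mul` with `g = c`, `h = c⁻¹`; `tr K 1 = K`):
`Off S K (c * z) c`.
`push_mul`: every `a ∈ tr K d` is `~ d` (`cn_off`), so `¬ c⁻¹ ~ a`, and `a ∉ K`; `push` gives
`c ~ c * a`, in particular `c * a ∉ K`. The elements of `tr K (c * d)` are the `c * a`, `a ∈ tr K d`. So
`tr K (c * d)` is disjoint from `K`, and `c ~ c * d` (`a = d ∈ tr K d`).
`exists_far`: `{y | x ~ y}` is infinite (`hg.inf`), `{c | ¬ Disjoint (tr K c) (tr K 1)}` is finite
(`meet_finite`, `tr_one`).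
`exists_other`: of the three points of `hg.three` at most one is `~ z` and at most one is `~ z'`.
`not_sep`: suppose `¬ SepK S K c u (c * z)`. `c * z ∉ tr K c` since `z ∉ K`. Either `u ∈ tr K c`: then `c ~ u`
(`cn_off`). Or `Off S (tr K c) u (c * z)`: translate by `c⁻¹`: `Off S K (c⁻¹ * u) z`, so
`¬ c⁻¹ ~ c⁻¹ * u`, and `push` gives `c ~ c * (c⁻¹ * u) = u`.
-/

open scoped Pointwise

namespace IICErg

namespace Ends

variable {Γ : Type} [Group Γ] {S : GenSet Γ} {K : Finset Γ}

theorem far_inv {c : Γ} (h : Disjoint (tr K c) K) : Disjoint (tr K c⁻¹) K := by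
  rw [Finset.disjoint_left] at h ⊢
  intro a ha hK
  rw [mem_tr, inv_inv] at ha
  refine h (a := c * a) ?_ ha
  rwa [mem_tr, inv_mul_cancel_left]

private theorem mem_tr_self (hg : Good S K) (c : Γ) : c ∈ tr K c := by
  rw [mem_tr, inv_mul_cancel]
  exact hg.one

omit [Group Γ] in
private theorem dcoe {A : Finset Γ} (h : Disjoint A K) :
    Disjoint (A : Set Γ) (K : Set Γ) := Finset.disjoint_coe.2 h

private theorem not_mem_of_far (hg : Good S K) {c : Γ} (hc : Disjoint (tr K c) K) : c ∉ K :=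
  fun h => Finset.disjoint_left.1 hc (mem_tr_self hg c) h

theorem push (hg : Good S K) {c z : Γ} (hc : Disjoint (tr K c) K) (hz : z ∉ K)
    (h : ¬ Off S (K : Set Γ) c⁻¹ z) : Off S (K : Set Γ) c (c * z) := by
  have hd : Disjoint (tr K c⁻¹ : Set Γ) (K : Set Γ) := dcoe (far_inv hc)
  have h1 : Off S (tr K c⁻¹ : Set Γ) z 1 := by
    refine reach_avoid hg.conn hd (by simpa using hz) (by simpa using hg.one) ?_
    intro a ha hza
    have h2 : Off S (K : Set Γ) a c⁻¹ :=
      cn_off (cn_tr hg.conn c⁻¹) hd ha (by simpa using mem_tr_self hg c⁻¹)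
    exact h (hza.trans h2).symm
  have h3 := (off_mul S K c c⁻¹ z 1).2 h1
  rw [mul_inv_cancel, tr_one, mul_one] at h3
  exact h3.symm

theorem push_mul (hg : Good S K) {c d : Γ} (hc : Disjoint (tr K c) K) (hd : Disjoint (tr K d) K)
    (h : ¬ Off S (K : Set Γ) c⁻¹ d) :
    Disjoint (tr K (c * d)) K ∧ Off S (K : Set Γ) c (c * d) := by
  have key : ∀ a ∈ tr K d, Off S (K : Set Γ) c (c * a) := by
    intro a ha
    refine push hg hc (fun hK => Finset.disjoint_left.1 hd ha hK) ?_
    intro h1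
    exact h (h1.trans (cn_off (cn_tr hg.conn d) (dcoe hd) (by simpa using ha)
      (by simpa using mem_tr_self hg d)))
  refine ⟨?_, key d (mem_tr_self hg d)⟩
  rw [Finset.disjoint_left]
  intro x hx hK
  rw [mem_tr, mul_inv_rev, mul_assoc] at hx
  have h1 : c⁻¹ * x ∈ tr K d := by
    rw [mem_tr]
    exact hx
  have h2 := (key _ h1).2.1
  rw [mul_inv_cancel_left] at h2
  exact h2 (by simpa using hK)

theorem exists_far (hg : Good S K) {x : Γ} (hx : x ∉ K) :
    ∃ c, Disjoint (tr K c) K ∧ Off S (K : Set Γ) x c := by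
  have h1 := hg.inf x hx
  have h2 : {h | ¬ Disjoint (tr K h) (tr K 1)}.Finite := meet_finite K 1
  obtain ⟨c, hc, hc'⟩ := (h1.sdiff h2).nonempty
  refine ⟨c, ?_, hc⟩
  by_contra h3
  refine hc' ?_
  simp only [Set.mem_setOf_eq, tr_one]
  exact h3

theorem exists_other (hg : Good S K) (z z' : Γ) :
    ∃ t, t ∉ K ∧ ¬ Off S (K : Set Γ) t z ∧ ¬ Off S (K : Set Γ) t z' := by
  obtain ⟨a, b, c, hab, hbc, hac⟩ := hg.three
  by_contra hcon
  push Not at hcon
  have ha : a ∉ K := by simpa using hab.1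
  have hb : b ∉ K := by simpa using hab.2.1
  have hc : c ∉ K := by simpa using hbc.2.1
  have nab : ¬ Off S (K : Set Γ) a b := hab.not_off
  have nbc : ¬ Off S (K : Set Γ) b c := hbc.not_off
  have nac : ¬ Off S (K : Set Γ) a c := hac.not_off
  have d : ∀ t, t ∉ K → Off S (K : Set Γ) t z ∨ Off S (K : Set Γ) t z' := by
    intro t ht
    by_cases h : Off S (K : Set Γ) t z
    · exact Or.inl h
    · exact Or.inr (hcon t ht h)
  rcases d a ha with h1 | h1 <;> rcases d b hb with h2 | h2 <;> rcases d c hc with h3 | h3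
  · exact nab (h1.trans h2.symm)
  · exact nab (h1.trans h2.symm)
  · exact nac (h1.trans h3.symm)
  · exact nbc (h2.trans h3.symm)
  · exact nbc (h2.trans h3.symm)
  · exact nac (h1.trans h3.symm)
  · exact nab (h1.trans h2.symm)
  · exact nab (h1.trans h2.symm)

/-- `c` itself is in the component of every point that is not separated from `c z` -/
theorem not_sep (hg : Good S K) {c z u : Γ} (hc : Disjoint (tr K c) K) (hz : z ∉ K)
    (h : ¬ Off S (K : Set Γ) c⁻¹ z) (hu : ¬ SepK S K c u (c * z)) : Off S (K : Set Γ) c u := by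
  by_cases hm : u ∈ tr K c
  · exact cn_off (cn_tr hg.conn c) (dcoe hc) (by simpa using mem_tr_self hg c) (by simpa using hm)
  · have hz' : c * z ∉ (tr K c : Set Γ) := by
      intro h1
      have h2 : c * z ∈ tr K c := h1
      rw [mem_tr, inv_mul_cancel_left] at h2
      exact hz h2
    have hm' : u ∉ (tr K c : Set Γ) := fun h1 => hm h1
    have h1 : Off S (tr K c : Set Γ) u (c * z) := off_of_not_sep hm' hz' hu
    have h2 : Off S (K : Set Γ) (c⁻¹ * u) z := by
      have h3 := (off_mul S K c 1 (c⁻¹ * u) z).1 (by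
        rw [mul_one, mul_inv_cancel_left]
        exact h1)
      rwa [tr_one] at h3
    have h4 : ¬ Off S (K : Set Γ) c⁻¹ (c⁻¹ * u) := fun h5 => h (h5.trans h2)
    have h5 := push hg hc (z := c⁻¹ * u) (by simpa using h2.1) h4
    rwa [mul_inv_cancel_left] at h5

end Ends

end IICErg
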