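import Pool.Agent.Lib.MP_4c698b_pr.E.Mult
import Pool.Agent.Lib.MP_4c698b_pr.L2h

/-!
# Module SumA: sums over levels (about 80 lines)

PROOF of `sum_level`: `β ^ m y = ∑' n, if m y = n then β ^ n else 0`; exchange the sums
(`ENNReal.tsum_comm`): `∑' y, t y * β ^ m y = ∑' n, β ^ n * ∑' y, (if m y = n then t y else 0) ≤ ∑' n, β ^ n * C`,
`ENNReal.tsum_geometric`, `ENNReal.tsum_mul_right`.
PROOF of `sum_H`: `sum_level` for `t h = if SepK h x g then 1 else 0`, `m h = M x h`; the inner sum is the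
cardinality (`≤ B`, `mult`) of the set `{h | SepK h x g ∧ M x h = n}`, finite by `sepK_finite`
(`tsum_eq_sum` over `Set.Finite.toFinset`, or `ENNReal.tsum_set_one`/`Set.encard`).
PROOF of `sum_tau`: `y ↦ s * y` is a bijection, `L2h_reach_mul`, `M_mul`.
-/

open MeasureTheory Filter Topology
open scoped ENNReal NNReal Pointwise

namespace IICErg

namespace Ends

variable {Γ : Type} [Group Γ]

open Classical in
theorem sum_level {ι : Type} (t : ι → ℝ≥0∞) (m : ι → ℕ) (C β : ℝ≥0∞)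
    (h : ∀ n, ∑' y, (if m y = n then t y else 0) ≤ C) :
    ∑' y, t y * β ^ m y ≤ C * (1 - β)⁻¹ := by
  have h1 : ∀ y, t y * β ^ m y = ∑' n : ℕ, (if m y = n then t y else 0) * β ^ n := by
    intro y
    rw [tsum_eq_single (m y)]
    · rw [if_pos rfl]
    · intro n hn
      rw [if_neg (Ne.symm hn), zero_mul]
  calc ∑' y, t y * β ^ m y = ∑' y, ∑' n : ℕ, (if m y = n then t y else 0) * β ^ n :=
        tsum_congr h1
    _ = ∑' n : ℕ, ∑' y, (if m y = n then t y else 0) * β ^ n := ENNReal.tsum_comm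
    _ = ∑' n : ℕ, (∑' y, if m y = n then t y else 0) * β ^ n :=
        tsum_congr fun n => ENNReal.tsum_mul_right
    _ ≤ ∑' n : ℕ, C * β ^ n := ENNReal.tsum_le_tsum fun n => mul_le_mul_left (h n) _
    _ = C * (1 - β)⁻¹ := by rw [ENNReal.tsum_mul_left, ENNReal.tsum_geometric]

open Classical in
theorem sum_H {S : GenSet Γ} {K : Finset Γ} (hc : Cn S (K : Set Γ)) (h1 : (1 : Γ) ∈ K) :
    ∃ B : ℝ≥0∞, B ≠ ⊤ ∧ ∀ (r : ℝ≥0∞) (x g : Γ),
      ∑' h, (if SepK S K h x g then r ^ M S K x h else 0) ≤ B * (1 - r)⁻¹ := by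
  obtain ⟨B, hB⟩ := mult (S := S) hc h1
  refine ⟨(B : ℝ≥0∞), ENNReal.natCast_ne_top B, fun r x g => ?_⟩
  have h2 := sum_level (fun h : Γ => if SepK S K h x g then (1 : ℝ≥0∞) else 0)
    (fun h => M S K x h) (B : ℝ≥0∞) r (by
      intro n
      have hfin : {h | SepK S K h x g ∧ M S K x h = n}.Finite :=
        (sepK_finite S K x g).subset fun h hh => hh.1
      rw [tsum_eq_sum (s := hfin.toFinset)]
      · calc ∑ h ∈ hfin.toFinset, (if M S K x h = n then if SepK S K h x g then (1 : ℝ≥0∞)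
              else 0 else 0) ≤ ∑ h ∈ hfin.toFinset, (1 : ℝ≥0∞) := by
              refine Finset.sum_le_sum fun h _ => ?_
              split_ifs <;> simp
          _ = ((hfin.toFinset.card : ℕ) : ℝ≥0∞) := by simp
          _ ≤ (B : ℝ≥0∞) := by
              rw [← Set.ncard_eq_toFinset_card _ hfin]
              exact_mod_cast hB x g n
      · intro h hh
        rw [Set.Finite.mem_toFinset] at hh
        split_ifs with e1 e2
        · exact absurd ⟨e2, e1⟩ hh
        · rfl
        · rfl)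
  refine le_trans (le_of_eq (tsum_congr fun h => ?_)) h2
  split_ifs
  · rw [one_mul]
  · rw [zero_mul]

theorem sum_tau (S : GenSet Γ) (K : Finset Γ) (p : unitInterval) (β : ℝ≥0∞) (s : Γ) :
    ∑' y, tau S p s y * β ^ M S K s y = ∑' y, tau S p 1 y * β ^ M S K 1 y := by
  rw [← (Equiv.mulLeft s).tsum_eq]
  refine tsum_congr fun y => ?_
  simp only [Equiv.coe_mulLeft]
  have e1 := L2h_reach_mul S p s 1 y
  have e2 := M_mul S K s 1 y
  rw [mul_one] at e1 e2
  rw [e1, e2]

end Ends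

end IICErg
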